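import Mathlib

open AlgebraicGeometry CategoryTheory

noncomputable section

namespace Pool.Agent.Lib.MP_02acd8_h53

/-- Laurent polynomials in `n` variables. -/
abbrev Laurent (n : ℕ) : Type := AddMonoidAlgebra ℂ (Fin n → ℤ)

/-- The point `Spec ℂ`. -/
abbrev Pt : Scheme.{0} := Spec (CommRingCat.of ℂ)

/-- The affine line `Spec ℂ[t]`. -/
abbrev Line : Scheme.{0} := Spec (CommRingCat.of (Polynomial ℂ))

/-- The structure map of the affine line. -/
def lineToPt : Line ⟶ Pt := Spec.map (CommRingCat.ofHom Polynomial.C)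

/-- The function field of an integral scheme over `ℂ`. -/
def FF {X : Scheme.{0}} [IsIntegral X] (_s : X ⟶ Pt) : Type := X.functionField

instance {X : Scheme.{0}} [IsIntegral X] (s : X ⟶ Pt) : Field (FF s) :=
  (inferInstance : Field X.functionField)

instance {X : Scheme.{0}} [IsIntegral X] (s : X ⟶ Pt) : Algebra ℂ (FF s) :=
  ((Scheme.ΓSpecIso (CommRingCat.of ℂ)).inv ≫ s.appTop ≫
    X.presheaf.germ ⊤ (genericPoint X) trivial).hom.toAlgebra

/-- The local ring at `x`, inside the function field. -/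
def loc {X : Scheme.{0}} [IsIntegral X] (s : X ⟶ Pt) (x : X) : Subring (FF s) :=
  (algebraMap (X.presheaf.stalk x) X.functionField).range

section Forms

variable {K : Type} [Field K] [Algebra ℂ K]

/-- Rational 1-forms regular at `O`: sums of `a db` with `a, b ∈ O`. -/
def regForms (O : Subring K) : Submodule ℂ Ω[K⁄ℂ] :=
  Submodule.span ℂ {η | ∃ a ∈ O, ∃ b ∈ O, η = a • KaehlerDifferential.D ℂ K b}

/-- Rational `n`-forms. -/
abbrev TopForm (n : ℕ) (K : Type) [Field K] [Algebra ℂ K] : Type := ⋀[K]^n Ω[K⁄ℂ]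

/-- The wedge product of `n` vectors. -/
def wedgeOf {n : ℕ} {M : Type} [AddCommGroup M] [Module K M] (v : Fin n → M) : ⋀[K]^n M :=
  exteriorPower.ιMulti K n v

/-- The form `db₁ ∧ ⋯ ∧ dbₙ`. -/
def wedgeD {n : ℕ} (b : Fin n → K) : TopForm n K :=
  wedgeOf fun i => KaehlerDifferential.D ℂ K (b i)

/-- The nonzero rational `n`-form `ω` generates the `n`-forms regular at `O`: it has neither a
zero nor a pole there. -/
def Generates {n : ℕ} (O : Subring K) (ω : TopForm n K) : Prop :=
  ω ≠ 0 ∧ ∀ η : TopForm n K,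
    η ∈ AddSubgroup.closure {θ | ∃ a ∈ O, ∃ b : Fin n → K, (∀ i, b i ∈ O) ∧ θ = a • wedgeD b} ↔
      ∃ a ∈ O, η = a • ω

variable {X : Type} [TopologicalSpace X]

/-- Global sections of the sheaf (rational 1-forms)/(regular 1-forms), by representatives. -/
def principalParts (O : X → Subring K) : Submodule ℂ (X → Ω[K⁄ℂ]) :=
  Submodule.span ℂ {p | ∀ x, ∃ U, IsOpen U ∧ x ∈ U ∧ ∃ η, ∀ y ∈ U, p y - η ∈ regForms (O y)}

/-- The sections that come from one rational 1-form. -/
def globalParts (O : X → Subring K) : Submodule ℂ (X → Ω[K⁄ℂ]) :=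
  Submodule.span ℂ {p | ∃ η, ∀ y, p y - η ∈ regForms (O y)}

/-- `dim H¹(X, Ω¹)`, from the flasque resolution of `Ω¹` that starts with the constant sheaf of
rational 1-forms. -/
def hOneOne (O : X → Subring K) : Cardinal :=
  Module.rank ℂ (principalParts O ⧸ (globalParts O).submoduleOf (principalParts O))

end Forms

/-- Some rational `n`-form has neither zeros nor poles. -/
def TrivialCanonical (n : ℕ) {X : Scheme.{0}} [IsIntegral X] (s : X ⟶ Pt) : Prop :=
  ∃ ω : TopForm n (FF s), ∀ x, Generates (loc s x) ω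

/-- `g ω⁻ᵐ` is a regular section of the `m`-th anticanonical sheaf, nonzero exactly on `U`. -/
def IsAntiSection {n : ℕ} {X : Type} {K : Type} [Field K] [Algebra ℂ K] (O : X → Subring K)
    (ω : TopForm n K) (m : ℕ) (g : K) (U : Set X) : Prop :=
  ∀ y, ∃ u : K, Generates (O y) (u • ω) ∧ g * u ^ m ∈ O y ∧
    (y ∈ U ↔ ∃ v ∈ O y, g * u ^ m * v = 1)

/-- Smooth Fano variety of dimension `n`: proper, smooth, with ample anticanonical sheaf. -/
def IsFano (n : ℕ) {X : Scheme.{0}} [IsIntegral X] (s : X ⟶ Pt) : Prop :=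
  IsProper s ∧ SmoothOfRelativeDimension n s ∧
    ∃ ω : TopForm n (FF s), ∀ x : X, ∃ (m : ℕ) (g : FF s) (U : X.Opens),
      0 < m ∧ IsAffineOpen U ∧ x ∈ U ∧ IsAntiSection (loc s) ω m g (U : Set X)

/-- Calabi-Yau compactification of the Laurent polynomial `f`. -/
def IsCYCompactification {n : ℕ} (f : Laurent n) {Y : Scheme.{0}} [IsIntegral Y]
    (w : Y ⟶ Line) : Prop :=
  Smooth (w ≫ lineToPt) ∧ TrivialCanonical n (w ≫ lineToPt) ∧ IsProper w ∧
    ∃ (U : Y.Opens) (j : Spec (CommRingCat.of (Laurent n)) ≅ U),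
      j.hom ≫ U.ι ≫ w = Spec.map (CommRingCat.ofHom (Polynomial.aeval f).toRingHom)

/-- The fibre of `w` over `c`. -/
def fibre {Y : Scheme.{0}} (w : Y ⟶ Line) (c : ℂ) : Set Y :=
  {y | Polynomial.X - Polynomial.C c ∈ (w y).asIdeal}

/-- Lattice points of the cone over the polar dual of the Newton polytope of `f`. -/
def dualCone {n : ℕ} (f : Laurent n) : AddSubmonoid ((Fin n → ℤ) × ℕ) where
  carrier := {p | ∀ v ∈ f.coeff.support, -(p.2 : ℤ) ≤ ∑ i, p.1 i * v i}
  zero_mem' := by simp
  add_mem' := by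
    intro p q hp hq v hv
    have h1 := hp v hv
    have h2 := hq v hv
    simp only [Prod.fst_add, Prod.snd_add, Pi.add_apply, add_mul, Finset.sum_add_distrib]
    push_cast
    omega

/-- The height on the cone. -/
def height {n : ℕ} (f : Laurent n) : dualCone f →+ ℕ :=
  (AddMonoidHom.snd _ _).comp (dualCone f).subtype

/-- `Proj` of a graded semigroup algebra. -/
def monoidProj {N : Type} [AddCommMonoid N] (d : N →+ ℕ) : Scheme.{0} :=
  Proj (AddMonoidAlgebra.gradeBy ℂ d)

/-- Its structure map. -/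
def monoidStr {N : Type} [AddCommMonoid N] (d : N →+ ℕ) : monoidProj d ⟶ Pt :=
  Proj.toSpecZero (AddMonoidAlgebra.gradeBy ℂ d) ≫
    Spec.map (CommRingCat.ofHom (algebraMap ℂ (AddMonoidAlgebra.gradeBy ℂ d 0)))

/-- The toric variety whose fan is spanned by the faces of the Newton polytope of `f`. -/
def toricVar {n : ℕ} (f : Laurent n) : Scheme.{0} := monoidProj (height f)

/-- Its structure map. -/
def toricStr {n : ℕ} (f : Laurent n) : toricVar f ⟶ Pt := monoidStr (height f)

/-- The Laurent polynomial `x + y + 1/x + 1/(xy)`. -/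
def mirror : Laurent 2 :=
  AddMonoidAlgebra.single ![1, 0] 1 + AddMonoidAlgebra.single ![0, 1] 1 +
    AddMonoidAlgebra.single ![-1, 0] 1 + AddMonoidAlgebra.single ![-1, -1] 1

/-- The classical period. -/
def period {n : ℕ} (f : Laurent n) : PowerSeries ℂ := PowerSeries.mk fun k => (f ^ k).coeff 0

end Pool.Agent.Lib.MP_02acd8_h53
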