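import Pool.Agent.Lib.MP_02acd8_h53.H1b

open AlgebraicGeometry CategoryTheory HomogeneousLocalization KaehlerDifferential

set_option linter.unusedSectionVars false

noncomputable section

namespace Pool.Agent.Lib.MP_02acd8_h53

/-- A chart through a point. -/
def sel (x : Proj TG) : Fin 4 := (toric_cover x).choose

lemma sel_spec (x : Proj TG) : gv (sel x) ∉ x.asHomogeneousIdeal := (toric_cover x).choose_spec

/-- A constant Laurent polynomial. -/
def cst (z : ℂ) : Laurent 2 := AddMonoidAlgebra.single 0 z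

lemma coeff_cst (z : ℂ) (u) : (cst z).coeff u = if u = 0 then z else 0 := by
  simp [cst, Finsupp.single_apply, eq_comm]

/-- Gluing coefficients from the four charts. -/
def glue (F : Fin 4 → Laurent 2) : Laurent 2 :=
  ∑ s, AddMonoidAlgebra.ofCoeff ((F s).coeff.filter fun u => tau u = s)

lemma coeff_glue (F : Fin 4 → Laurent 2) (u) : (glue F).coeff u = (F (tau u)).coeff u := by
  simp [glue, AddMonoidAlgebra.coeff_sum, Finsupp.finsetSum_apply, Finsupp.filter_apply]

namespace TData

variable (T : TData)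

/-- The logarithmic form on the chart `s` of the class with parameters `a, b`. -/
def lg (a b : ℂ) (s : Fin 4) : Ω[TK⁄ℂ] := T.θ (cst (cx a s)) (cst (cy a b s))

lemma lg_comb (a b : ℂ) (s : Fin 4) : a • T.lg 1 0 s + b • T.lg 0 1 s = T.lg a b s := by
  have h : ∀ z : ℂ, T.lam (cst z) = algebraMap ℂ TK z := fun z => T.lam.commutes z
  simp only [lg, θ, h, algebraMap_smul]
  fin_cases s <;> simp [cx, cy] <;> module

lemma reg_lg (a b : ℂ) (s t : Fin 4) : Reg s t (T.lg a b s - T.lg a b t) := by
  rw [lg, lg, θ_sub, reg_θ]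
  intro u j hs ht
  simp only [AddMonoidAlgebra.coeff_sub, Finsupp.sub_apply, coeff_cst]
  split_ifs with hu
  · exact hu ▸ W_class a b s t j hs ht
  · simpa using W_zero_zero j u

lemma lg_mem (a b : ℂ) : (fun x => T.lg a b (sel x)) ∈ principalParts TO :=
  (mem_principalParts _ _).2 fun x => ⟨Proj.basicOpen TG (gv (sel x)),
    (Proj.basicOpen TG (gv (sel x))).isOpen, sel_spec x, T.lg a b (sel x),
    fun y hy => T.reg_lg a b _ _ y (sel_spec y) hy⟩

include T in
theorem hOneOne_toric : hOneOne TO = 2 := by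
  have comb : ∀ a b : ℂ, (a • (fun x => T.lg 1 0 (sel x)) + b • fun x => T.lg 0 1 (sel x)) =
      fun x : Proj TG => T.lg a b (sel x) := fun a b => funext fun x => T.lg_comb a b _
  refine hOneOne_eq_two _ _ _ (T.lg_mem 1 0) (T.lg_mem 0 1) (fun a b H => ?_) fun p hp => ?_
  · rw [comb, mem_globalParts] at H
    obtain ⟨η, H⟩ := H
    have h1 : ∀ s, Reg s s (T.lg a b s - η) := fun s x hx _ => by
      have := add_mem (T.reg_lg a b s (sel x) x hx (sel_spec x)) (H x)
      rwa [sub_add_sub_cancel] at this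
    obtain ⟨F, G, e⟩ := T.exists_θ (h1 0)
    have e' : η = T.θ (cst (cx a 0) - F) (cst (cy a b 0) - G) := by
      rw [← θ_sub, ← e, lg, sub_sub_cancel]
    refine W_indep a b ((cst (cx a 0) - F).coeff 0) ((cst (cy a b 0) - G).coeff 0)
      fun s j hj => ?_
    have := h1 s
    rw [e', lg, θ_sub, reg_θ] at this
    simpa [coeff_cst] using this 0 j hj hj
  · have h1 : ∀ s, ∃ η, ∀ x : Proj TG, gv s ∉ x.asHomogeneousIdeal →
        p x - η ∈ regForms (TO x) := fun s => by
      obtain ⟨-, ⟨b, hb⟩, hc⟩ := T.chart s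
      exact T.H.serre (el_mem _ _ _) one_pos (el_ne_zero _ _ _) hb hc hp
    choose η hη using h1
    have h2 : ∀ s t, Reg s t (η s - η t) := fun s t x hs ht => by
      have := sub_mem (hη t x ht) (hη s x hs)
      rwa [sub_sub_sub_cancel_left] at this
    choose F G hFG using fun s => T.exists_θ (h2 s 0)
    have h3 : ∀ u s, W (s + 1) u ((F s).coeff u - (F (s + 1)).coeff u)
        ((G s).coeff u - (G (s + 1)).coeff u) := fun u s => by
      have := h2 s (s + 1)
      rw [← sub_sub_sub_cancel_right _ _ (η 0), hFG, hFG, θ_sub, reg_θ] at this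
      simpa using this u (s + 1) (Or.inr rfl) (Or.inl rfl)
    refine ⟨(F 1).coeff 0 - (F 0).coeff 0, (G 3).coeff 0 - (G 0).coeff 0, ?_⟩
    rw [comb, mem_globalParts]
    refine ⟨η 0 + T.θ (glue F) (glue G), fun x => ?_⟩
    have h4 : ∀ s, Reg s s (η s - η 0 - T.lg ((F 1).coeff 0 - (F 0).coeff 0)
        ((G 3).coeff 0 - (G 0).coeff 0) s - T.θ (glue F) (glue G)) := fun s => by
      rw [hFG, lg, θ_sub, θ_sub, reg_θ]
      intro u j hj _
      simp only [AddMonoidAlgebra.coeff_sub, Finsupp.sub_apply, coeff_cst, coeff_glue]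
      split_ifs with hu
      · subst hu
        exact W_zero (fun s => (F s).coeff 0) (fun s => (G s).coeff 0) (h3 0) s j hj
      · simpa using W_tau u hu (fun s => (F s).coeff u) (fun s => (G s).coeff u) (h3 u) s j hj
    have := add_mem (hη _ x (sel_spec x)) (h4 _ x (sel_spec x) (sel_spec x))
    refine (congrArg (· ∈ regForms (TO x)) ?_).mp this
    rw [Pi.sub_apply]
    abel

end TData

end Pool.Agent.Lib.MP_02acd8_h53
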