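import Pool.Agent.Lib.MP_02acd8_h53.Defs

open KaehlerDifferential MvPolynomial

set_option linter.unusedSectionVars false

noncomputable section

namespace Pool.Agent.Lib.MP_02acd8_h53

variable {K : Type} [Field K] [Algebra ℂ K]

/-- `η` is an `O`-combination of `d a₀` and `d a₁`. -/
def InSpan (O : Subring K) (a : Fin 2 → K) (η : Ω[K⁄ℂ]) : Prop :=
  ∃ p ∈ O, ∃ q ∈ O, η = p • D ℂ K (a 0) + q • D ℂ K (a 1)

namespace InSpan

variable {O : Subring K} {a : Fin 2 → K}

lemma zero : InSpan O a 0 := ⟨0, zero_mem _, 0, zero_mem _, by simp⟩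

lemma add {η η' : Ω[K⁄ℂ]} (h : InSpan O a η) (h' : InSpan O a η') : InSpan O a (η + η') := by
  obtain ⟨p, hp, q, hq, rfl⟩ := h
  obtain ⟨p', hp', q', hq', rfl⟩ := h'
  exact ⟨_, add_mem hp hp', _, add_mem hq hq', by simp only [add_smul]; abel⟩

lemma smul {η : Ω[K⁄ℂ]} {c : K} (hc : c ∈ O) (h : InSpan O a η) : InSpan O a (c • η) := by
  obtain ⟨p, hp, q, hq, rfl⟩ := h
  exact ⟨_, mul_mem hc hp, _, mul_mem hc hq, by simp only [smul_add, mul_smul]⟩

end InSpan

/-- `a₀, a₁` are local coordinates for `O`. -/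
structure Coord (O : Subring K) (a : Fin 2 → K) : Prop where
  mem : ∀ i, a i ∈ O
  const : ∀ z : ℂ, algebraMap ℂ K z ∈ O
  span : ∀ b ∈ O, InSpan O a (D ℂ K b)

lemma coord_of_frac {O : Subring K} {a : Fin 2 → K} (h1 : ∀ i, a i ∈ O)
    (h2 : ∀ z : ℂ, algebraMap ℂ K z ∈ O)
    (h3 : ∀ b ∈ O, ∃ p q : MvPolynomial (Fin 2) ℂ, ∃ v ∈ O, aeval a q * v = 1 ∧
      b = aeval a p * v) : Coord O a := by
  have hp : ∀ p : MvPolynomial (Fin 2) ℂ, aeval a p ∈ O ∧ InSpan O a (D ℂ K (aeval a p)) := by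
    intro p
    induction p using MvPolynomial.induction_on with
    | C z => exact ⟨by simpa using h2 z, by simpa using InSpan.zero⟩
    | add p q hp hq => rw [map_add, map_add]; exact ⟨add_mem hp.1 hq.1, hp.2.add hq.2⟩
    | mul_X p i hp =>
      rw [map_mul, aeval_X, Derivation.leibniz]
      refine ⟨mul_mem hp.1 (h1 i), InSpan.add (InSpan.smul hp.1 ?_) (hp.2.smul (h1 i))⟩
      fin_cases i
      · exact ⟨1, one_mem _, 0, zero_mem _, by simp⟩
      · exact ⟨0, zero_mem _, 1, one_mem _, by simp⟩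
  refine ⟨h1, h2, fun b hb => ?_⟩
  obtain ⟨p, q, v, hv, e, rfl⟩ := h3 b hb
  rw [Derivation.leibniz, (D ℂ K).leibniz_of_mul_eq_one (mul_comm (aeval a q) v ▸ e)]
  exact InSpan.add (InSpan.smul (hp p).1 (InSpan.smul (neg_mem (pow_mem hv 2)) (hp q).2))
    ((hp p).2.smul hv)

lemma smul_D_mem {O : Subring K} {p b : K} (hp : p ∈ O) (hb : b ∈ O) :
    p • D ℂ K b ∈ regForms O := Submodule.subset_span ⟨p, hp, b, hb, rfl⟩

lemma Coord.mem_regForms {O : Subring K} {a : Fin 2 → K} (h : Coord O a) (η : Ω[K⁄ℂ]) :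
    η ∈ regForms O ↔ InSpan O a η := by
  constructor
  · intro hη
    induction hη using Submodule.span_induction with
    | mem η hη =>
      obtain ⟨p, hp, b, hb, rfl⟩ := hη
      exact (h.span b hb).smul hp
    | zero => exact InSpan.zero
    | add _ _ _ _ h1 h2 => exact h1.add h2
    | smul z η _ h1 =>
      rw [← algebraMap_smul K]
      exact h1.smul (h.const z)
  · rintro ⟨p, hp, q, hq, rfl⟩
    exact add_mem (smul_D_mem hp (h.mem 0)) (smul_D_mem hq (h.mem 1))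

/-- The wedge product of two rational 1-forms. -/
def wedge (x y : Ω[K⁄ℂ]) : TopForm 2 K := exteriorPower.ιMulti K 2 ![x, y]

lemma wedgeD_eq (b : Fin 2 → K) : wedgeD b = wedge (D ℂ K (b 0)) (D ℂ K (b 1)) := by
  unfold wedgeD wedgeOf wedge
  congr 1
  ext i
  fin_cases i <;> rfl

lemma wedge_comb (x y : Ω[K⁄ℂ]) (p q r s : K) :
    wedge (p • x + q • y) (r • x + s • y) = (p * s - q * r) • wedge x y := by
  have h1 : ∀ u v w : Ω[K⁄ℂ], wedge (u + v) w = wedge u w + wedge v w := fun u v w =>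
    (exteriorPower.ιMulti K 2).map_vecCons_add ![w] u v
  have h2 : ∀ (c : K) (u w : Ω[K⁄ℂ]), wedge (c • u) w = c • wedge u w := fun c u w =>
    (exteriorPower.ιMulti K 2).map_vecCons_smul ![w] c u
  have h3 : ∀ u : Ω[K⁄ℂ], wedge u u = 0 := fun u =>
    (exteriorPower.ιMulti K 2).map_eq_zero_of_eq _ (i := 0) (j := 1) rfl (by decide)
  have h4 : ∀ u w : Ω[K⁄ℂ], wedge u w = -wedge w u := fun u w => by
    have := (exteriorPower.ιMulti K 2 (M := Ω[K⁄ℂ])).map_swap ![w, u] (i := 0) (j := 1) (by decide)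
    rw [wedge, wedge, ← this]
    congr 1
    ext i
    fin_cases i <;> rfl
  rw [h1, h2, h2, h4 x, h4 y, h1, h1, h2, h2, h2, h2, h3, h3, h4 y x]
  module

lemma Coord.generates {O : Subring K} {a : Fin 2 → K} (h : Coord O a) (h0 : wedgeD a ≠ 0) :
    Generates O (wedgeD a) := by
  refine ⟨h0, fun η => ⟨fun hη => ?_, ?_⟩⟩
  · induction hη using AddSubgroup.closure_induction with
    | mem η hη =>
      obtain ⟨c, hc, b, hb, rfl⟩ := hη
      obtain ⟨p, hp, q, hq, e0⟩ := h.span _ (hb 0)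
      obtain ⟨r, hr, s, hs, e1⟩ := h.span _ (hb 1)
      refine ⟨c * (p * s - q * r), mul_mem hc (sub_mem (mul_mem hp hs) (mul_mem hq hr)), ?_⟩
      rw [wedgeD_eq b, e0, e1, wedge_comb, wedgeD_eq, mul_smul]
    | zero => exact ⟨0, zero_mem _, by simp⟩
    | add _ _ _ _ h1 h2 =>
      obtain ⟨c, hc, rfl⟩ := h1
      obtain ⟨c', hc', rfl⟩ := h2
      exact ⟨_, add_mem hc hc', (add_smul _ _ _).symm⟩
    | neg _ _ h1 =>
      obtain ⟨c, hc, rfl⟩ := h1
      exact ⟨_, neg_mem hc, (neg_smul _ _).symm⟩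
  · rintro ⟨c, hc, rfl⟩
    exact AddSubgroup.subset_closure ⟨c, hc, a, h.mem, rfl⟩

lemma Generates.smul {n : ℕ} {O : Subring K} {ω : TopForm n K} (h : Generates O ω) {u v : K}
    (hu : u ∈ O) (hv : v ∈ O) (e : u * v = 1) : Generates O (u • ω) := by
  refine ⟨smul_ne_zero (left_ne_zero_of_mul_eq_one e) h.1, fun η => (h.2 η).trans ⟨?_, ?_⟩⟩
  · rintro ⟨c, hc, rfl⟩
    exact ⟨c * v, mul_mem hc hv, by rw [smul_smul, mul_assoc, mul_comm v, e, mul_one]⟩
  · rintro ⟨c, hc, rfl⟩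
    exact ⟨c * u, mul_mem hc hu, smul_smul _ _ _⟩

lemma exists_basis {v : Fin 2 → K} (hv : Function.Injective (aeval (R := ℂ) v))
    (hK : ∀ k : K, ∃ p q : MvPolynomial (Fin 2) ℂ, q ≠ 0 ∧ k * aeval v q = aeval v p) :
    ∃ b : Module.Basis (Fin 2) K Ω[K⁄ℂ], ∀ i, b i = D ℂ K (v i) := by
  let : Algebra (MvPolynomial (Fin 2) ℂ) K := (aeval (R := ℂ) v).toRingHom.toAlgebra
  have : IsScalarTower ℂ (MvPolynomial (Fin 2) ℂ) K :=
    IsScalarTower.of_algebraMap_eq fun z => ((aeval (R := ℂ) v).commutes z).symm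
  have : IsFractionRing (MvPolynomial (Fin 2) ℂ) K := by
    have : FaithfulSMul (MvPolynomial (Fin 2) ℂ) K :=
      (faithfulSMul_iff_algebraMap_injective _ _).2 hv
    refine IsFractionRing.of_field _ _ fun k => ?_
    obtain ⟨p, q, hq, e⟩ := hK k
    exact ⟨p, q, eq_div_of_mul_eq ((map_ne_zero_iff _ hv).2 hq) e⟩
  refine ⟨(mvPolynomialBasis ℂ (Fin 2)).ofIsLocalizedModule K (nonZeroDivisors _)
    (KaehlerDifferential.map ℂ ℂ (MvPolynomial (Fin 2) ℂ) K), fun i => ?_⟩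
  rw [Module.Basis.ofIsLocalizedModule_apply, mvPolynomialBasis_apply, map_D]
  congr 1
  exact aeval_X v i

lemma wedge_ne_zero (b : Module.Basis (Fin 2) K Ω[K⁄ℂ]) : wedge (b 0) (b 1) ≠ 0 := by
  intro e
  have := congrArg (exteriorPower.alternatingMapLinearEquiv b.det) e
  rw [wedge, exteriorPower.alternatingMapLinearEquiv_apply_ιMulti, LinearMap.map_zero] at this
  have h2 : ![b 0, b 1] = b := by
    ext i
    fin_cases i <;> rfl
  rw [h2, Module.Basis.det_self] at this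
  exact one_ne_zero this

instance stdSmooth_mv :
    Algebra.IsStandardSmoothOfRelativeDimension 2 ℂ (MvPolynomial (Fin 2) ℂ) := by
  have : Algebra.IsStandardSmooth ℂ (MvPolynomial (Fin 2) ℂ) :=
    Algebra.IsStandardSmooth.of_basis_kaehlerDifferential (mvPolynomialBasis ℂ (Fin 2)) (by
      rintro _ ⟨i, rfl⟩
      exact ⟨_, (mvPolynomialBasis_apply ℂ _ i).symm⟩)
  rw [Algebra.IsStandardSmoothOfRelativeDimension.iff_of_isStandardSmooth,
    rank_eq_card_basis (mvPolynomialBasis ℂ (Fin 2))]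
  simp

/-- A ring embedded in `K` with image `ℂ[a₀, a₁, 1/w(a)]` is standard smooth of dimension 2. -/
lemma stdSmooth_chart {B : Type} [CommRing B] (c : ℂ →+* B) (β : B →+* K)
    (hβ : Function.Injective β) (hc : ∀ z, β (c z) = algebraMap ℂ K z) {a : Fin 2 → K}
    (ha : Function.Injective (aeval (R := ℂ) a)) (w : MvPolynomial (Fin 2) ℂ)
    (h1 : ∀ i, a i ∈ β.range) (h2 : ∃ v ∈ β.range, aeval a w * v = 1)
    (h3 : ∀ b : B, ∃ (p : MvPolynomial (Fin 2) ℂ) (n : ℕ), β b * aeval a w ^ n = aeval a p) :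
    c.IsStandardSmoothOfRelativeDimension 2 := by
  let := c.toAlgebra
  choose a' ha' using h1
  have key : ∀ p : MvPolynomial (Fin 2) ℂ, β (aeval a' p) = aeval a p := by
    intro p
    induction p using MvPolynomial.induction_on with
    | C z => rw [aeval_C, aeval_C]; exact hc z
    | add p q hp hq => rw [map_add, map_add, map_add, hp, hq]
    | mul_X p i hp => rw [map_mul, map_mul, map_mul, hp, aeval_X, aeval_X, ha']
  let : Algebra (MvPolynomial (Fin 2) ℂ) B := (aeval (R := ℂ) a').toRingHom.toAlgebra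
  have : IsScalarTower ℂ (MvPolynomial (Fin 2) ℂ) B :=
    IsScalarTower.of_algebraMap_eq fun z => ((aeval (R := ℂ) a').commutes z).symm
  have am : ∀ p, algebraMap (MvPolynomial (Fin 2) ℂ) B p = aeval a' p := fun _ => rfl
  have : IsLocalization.Away w B := by
    refine IsLocalization.Away.mk _ ?_ ?_ ?_
    · obtain ⟨_, ⟨v, rfl⟩, e⟩ := h2
      refine IsUnit.of_mul_eq_one v (hβ ?_)
      rw [map_mul, am, key, e, map_one]
    · intro b
      obtain ⟨p, n, e⟩ := h3 b
      refine ⟨n, p, hβ ?_⟩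
      rw [map_mul, map_pow, am, am, key, key, e]
    · intro p q e
      refine ⟨0, ?_⟩
      have := congrArg β e
      rw [am, am, key, key] at this
      rw [ha this]
  have := Algebra.IsStandardSmoothOfRelativeDimension.localization_away (S := B) w
  exact Algebra.IsStandardSmoothOfRelativeDimension.trans 2 0 ℂ (MvPolynomial (Fin 2) ℂ) B

end Pool.Agent.Lib.MP_02acd8_h53
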