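import Pool.Agent.Lib.MP_02acd8_h53.Toric

set_option linter.unusedSimpArgs false

noncomputable section

namespace Pool.Agent.Lib.MP_02acd8_h53

/-- The one-point invariants. -/
def gval (a b : ℕ) : ℚ :=
  if a ≤ b then 1 / (a.factorial ^ 2 * b.factorial * (b - a).factorial) else 0

lemma coeff_mirror_pow (d : ℕ) : (mirror ^ d).coeff 0 =
    ((d.factorial * ∑ b ∈ Finset.range (d / 2 + 1), gval (d - 2 * b) b : ℚ) : ℂ) := by
  classical
  rw [mirror_eq, Finset.sum_pow_eq_sum_piAntidiag, AddMonoidAlgebra.coeff_sum,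
    Finsupp.finsetSum_apply]
  have h1 : ∀ k : Fin 4 → ℕ, ((Nat.multinomial Finset.univ k : Laurent 2) *
      ∏ i, mono (ray i) ^ k i).coeff 0 =
      if k 0 = k 2 + k 3 ∧ k 1 = k 3 then (Nat.multinomial Finset.univ k : ℂ) else 0 := by
    intro k
    rw [Fin.prod_univ_four, ← mono_nsmul, ← mono_nsmul, ← mono_nsmul, ← mono_nsmul, ← mono_add,
      ← mono_add, ← mono_add, ← nsmul_eq_mul, ← Nat.cast_smul_eq_nsmul ℂ, ← single_eq_smul,
      AddMonoidAlgebra.coeff_single, Finsupp.single_apply]
    refine if_congr ?_ rfl rfl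
    rw [funext_iff, Fin.forall_fin_two]
    simp [ray]
    omega
  simp only [h1, gval, Finset.mul_sum, mul_ite, mul_zero]
  rw [← Finset.sum_filter, ← Finset.sum_filter, Rat.cast_sum]
  refine Finset.sum_nbij' (fun k => k 0) (fun b => ![b, d - 2 * b, b - (d - 2 * b), d - 2 * b])
    ?_ ?_ ?_ ?_ ?_
  · intro k hk
    simp only [Finset.mem_filter, Finset.mem_piAntidiag, Fin.sum_univ_four, Finset.mem_range] at *
    omega
  · intro b hb
    simp only [Finset.mem_filter, Finset.mem_piAntidiag, Fin.sum_univ_four, Finset.mem_range] at *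
    simp
    omega
  · intro k hk
    simp only [Finset.mem_filter, Finset.mem_piAntidiag, Fin.sum_univ_four] at hk
    ext i
    fin_cases i <;> simp <;> omega
  · intro b _
    rfl
  · intro k hk
    simp only [Finset.mem_filter, Finset.mem_piAntidiag, Fin.sum_univ_four] at hk
    have h := Nat.multinomial_spec Finset.univ k
    rw [Fin.prod_univ_four, Fin.sum_univ_four, hk.1.1, hk.2.2] at h
    have h' := congrArg (Nat.cast : ℕ → ℂ) h
    rw [show d - 2 * k 0 = k 3 by omega, show k 0 - k 3 = k 2 by omega]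
    push_cast at h' ⊢
    have := Nat.cast_ne_zero (R := ℂ).2 (k 0).factorial_ne_zero
    have := Nat.cast_ne_zero (R := ℂ).2 (k 2).factorial_ne_zero
    have := Nat.cast_ne_zero (R := ℂ).2 (k 3).factorial_ne_zero
    rw [← h']
    field_simp

end Pool.Agent.Lib.MP_02acd8_h53
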