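import Pool.Agent.Lib.MP_02acd8_h53.Fano

open AlgebraicGeometry CategoryTheory HomogeneousLocalization KaehlerDifferential

set_option linter.unusedSectionVars false

noncomputable section

namespace Pool.Agent.Lib.MP_02acd8_h53

section Generic

variable {K : Type} [Field K] [Algebra ℂ K] {X : Type} [TopologicalSpace X] (O : X → Subring K)

lemma mem_principalParts (p : X → Ω[K⁄ℂ]) : p ∈ principalParts O ↔
    ∀ x, ∃ U, IsOpen U ∧ x ∈ U ∧ ∃ η, ∀ y ∈ U, p y - η ∈ regForms (O y) := by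
  refine ⟨fun hp => ?_, fun hp => Submodule.subset_span hp⟩
  induction hp using Submodule.span_induction with
  | mem p hp => exact hp
  | zero => exact fun x => ⟨Set.univ, isOpen_univ, trivial, 0, fun y _ => by simp⟩
  | add p q _ _ hp hq =>
    intro x
    obtain ⟨U, hU, hx, η, h⟩ := hp x
    obtain ⟨V, hV, hx', η', h'⟩ := hq x
    refine ⟨U ∩ V, hU.inter hV, ⟨hx, hx'⟩, η + η', fun y hy => ?_⟩
    rw [Pi.add_apply, add_sub_add_comm]
    exact add_mem (h y hy.1) (h' y hy.2)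
  | smul z p _ hp =>
    intro x
    obtain ⟨U, hU, hx, η, h⟩ := hp x
    refine ⟨U, hU, hx, z • η, fun y hy => ?_⟩
    rw [Pi.smul_apply, ← smul_sub]
    exact Submodule.smul_mem _ _ (h y hy)

lemma mem_globalParts (p : X → Ω[K⁄ℂ]) : p ∈ globalParts O ↔
    ∃ η, ∀ y, p y - η ∈ regForms (O y) := by
  refine ⟨fun hp => ?_, fun hp => Submodule.subset_span hp⟩
  induction hp using Submodule.span_induction with
  | mem p hp => exact hp
  | zero => exact ⟨0, fun y => by simp⟩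
  | add p q _ _ hp hq =>
    obtain ⟨η, h⟩ := hp
    obtain ⟨η', h'⟩ := hq
    refine ⟨η + η', fun y => ?_⟩
    rw [Pi.add_apply, add_sub_add_comm]
    exact add_mem (h y) (h' y)
  | smul z p _ hp =>
    obtain ⟨η, h⟩ := hp
    refine ⟨z • η, fun y => ?_⟩
    rw [Pi.smul_apply, ← smul_sub]
    exact Submodule.smul_mem _ _ (h y)

lemma hOneOne_eq_two (P Q : X → Ω[K⁄ℂ]) (hP : P ∈ principalParts O) (hQ : Q ∈ principalParts O)
    (ind : ∀ a b : ℂ, a • P + b • Q ∈ globalParts O → a = 0 ∧ b = 0)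
    (sp : ∀ p ∈ principalParts O, ∃ a b : ℂ, p - (a • P + b • Q) ∈ globalParts O) :
    hOneOne O = 2 := by
  let N := (globalParts O).submoduleOf (principalParts O)
  let v : Fin 2 → principalParts O ⧸ N := ![N.mkQ ⟨P, hP⟩, N.mkQ ⟨Q, hQ⟩]
  have h1 : LinearIndependent ℂ v := by
    refine LinearIndependent.pair_iff.2 fun a b e => ind a b ?_
    rw [← map_smul, ← map_smul, ← map_add, Submodule.mkQ_apply,
      Submodule.Quotient.mk_eq_zero] at e
    exact e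
  have h2 : ⊤ ≤ Submodule.span ℂ (Set.range v) := by
    intro z _
    obtain ⟨⟨p, hp⟩, rfl⟩ := N.mkQ_surjective z
    obtain ⟨a, b, h⟩ := sp p hp
    have : N.mkQ ⟨p, hp⟩ = a • v 0 + b • v 1 := by
      change _ = a • N.mkQ ⟨P, hP⟩ + b • N.mkQ ⟨Q, hQ⟩
      rw [← map_smul, ← map_smul, ← map_add]
      exact (Submodule.Quotient.eq N).2 h
    rw [this]
    exact add_mem (Submodule.smul_mem _ _ (Submodule.subset_span ⟨0, rfl⟩))
      (Submodule.smul_mem _ _ (Submodule.subset_span ⟨1, rfl⟩))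
  rw [hOneOne, rank_eq_card_basis (Module.Basis.mk h1 h2)]
  simp

lemma Coord.reg_iff {O : Subring K} {a : Fin 2 → K} (h : Coord O a)
    {b : Module.Basis (Fin 2) K Ω[K⁄ℂ]} (hb : ∀ i, b i = D ℂ K (a i)) (η : Ω[K⁄ℂ]) :
    η ∈ regForms O ↔ ∀ i, b.repr η i ∈ O := by
  rw [h.mem_regForms]
  constructor
  · rintro ⟨p, hp, q, hq, rfl⟩ i
    rw [← hb, ← hb]
    fin_cases i <;> simpa
  · intro H
    refine ⟨_, H 0, _, H 1, ?_⟩
    rw [← hb, ← hb, ← Fin.sum_univ_two (fun i => b.repr η i • b i), b.sum_repr]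

end Generic

variable {A σ : Type} [CommRing A] [IsDomain A] [SetLike σ A] [AddSubgroupClass σ A]
  {𝒜 : ℕ → σ} [GradedRing 𝒜] [IsIntegral (Proj 𝒜)] {c : ℂ →+* 𝒜 0} {h : A}
  {φ : A →+* FF (projStr 𝒜 c)}

lemma Dehom.serre (H : Dehom 𝒜 c h φ) {g : A} {d : ℕ} (hg : g ∈ 𝒜 d) (hd : 0 < d) (g0 : g ≠ 0)
    {a : Fin 2 → FF (projStr 𝒜 c)}
    {b : Module.Basis (Fin 2) (FF (projStr 𝒜 c)) Ω[FF (projStr 𝒜 c)⁄ℂ]}
    (hb : ∀ i, b i = D ℂ _ (a i))
    (hc : ∀ x : Proj 𝒜, g ∉ x.asHomogeneousIdeal → Coord (loc (projStr 𝒜 c) x) a)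
    {p : Proj 𝒜 → Ω[FF (projStr 𝒜 c)⁄ℂ]} (hp : p ∈ principalParts (loc (projStr 𝒜 c))) :
    ∃ η, ∀ x : Proj 𝒜, g ∉ x.asHomogeneousIdeal → p x - η ∈ regForms (loc (projStr 𝒜 c) x) := by
  rw [mem_principalParts] at hp
  have key : ∀ i, ∃ e, ∀ q, InLoc (chartF 𝒜 c hg hd g0) q
      (b.repr (p (Proj.awayι 𝒜 g hg hd q)) i - e) := fun i => serre_lift _ _ fun q => by
    obtain ⟨U, hU, hx, η, H'⟩ := hp (Proj.awayι 𝒜 g hg hd q)
    refine ⟨_, hU.preimage (Proj.awayι 𝒜 g hg hd).continuous, hx, b.repr η i, fun q' hq' => ?_⟩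
    have := ((hc _ (away_notMem hg hd q')).reg_iff hb _).1 (H' _ hq') i
    rw [map_sub, Finsupp.sub_apply] at this
    exact (H.loc_away_iff hg hd g0 q' _).1 this
  choose e he using key
  refine ⟨b.equivFun.symm e, fun x hx => ?_⟩
  rw [(hc x hx).reg_iff hb]
  intro i
  obtain ⟨q, rfl⟩ := exists_away hg hd hx
  rw [map_sub, Finsupp.sub_apply, ← b.equivFun_apply (b.equivFun.symm e),
    LinearEquiv.apply_symm_apply]
  exact (H.loc_away_iff hg hd g0 q _).2 (he i q)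

end Pool.Agent.Lib.MP_02acd8_h53
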