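import Pool.Agent.Lib.MP_02acd8_h53.H1a

open AlgebraicGeometry CategoryTheory HomogeneousLocalization KaehlerDifferential

set_option linter.unusedSectionVars false
set_option linter.unusedSimpArgs false

noncomputable section

namespace Pool.Agent.Lib.MP_02acd8_h53

/-- The condition along the `j`-th boundary divisor on the coefficients of `χᵘ`. -/
def W (j : Fin 4) (u : Fin 2 → ℤ) (a b : ℂ) : Prop :=
  (rho j u < 0 → a = 0 ∧ b = 0) ∧ (rho j u = 0 → (ray j 0 : ℂ) * a + (ray j 1 : ℂ) * b = 0)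

/-- The chart used in degree `u`. -/
def tau (u : Fin 2 → ℤ) : Fin 4 :=
  if 0 < u 0 then 1 else if u 0 < 0 then 0 else if 0 < u 1 then 2 else 0

lemma W_tau (u : Fin 2 → ℤ) (hu : u ≠ 0) (f g : Fin 4 → ℂ)
    (H : ∀ s, W (s + 1) u (f s - f (s + 1)) (g s - g (s + 1))) (s j : Fin 4)
    (hj : j = s ∨ j = s + 1) : W j u (f s - f (tau u)) (g s - g (tau u)) := by
  have h0 := H 0
  have h1 := H 1
  have h2 := H 2
  have h3 := H 3
  have hu' : ¬ (u 0 = 0 ∧ u 1 = 0) := fun h => hu (by ext i; fin_cases i <;> simp [h.1, h.2])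
  simp [W, rho, ray] at h0 h1 h2 h3
  unfold tau
  fin_cases s <;> rcases hj with rfl | rfl <;> simp [W, rho, ray] <;> split_ifs <;> grind

/-- The `dx/x` coefficients of the class with parameters `a, b`. -/
def cx (a : ℂ) : Fin 4 → ℂ := ![0, a, a, 0]

/-- The `dy/y` coefficients of the class with parameters `a, b`. -/
def cy (a b : ℂ) : Fin 4 → ℂ := ![0, 0, b - a, b]

lemma W_zero (f g : Fin 4 → ℂ)
    (H : ∀ s, W (s + 1) 0 (f s - f (s + 1)) (g s - g (s + 1))) (s j : Fin 4)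
    (hj : j = s ∨ j = s + 1) :
    W j 0 (f s - cx (f 1 - f 0) s - f 0) (g s - cy (f 1 - f 0) (g 3 - g 0) s - g 0) := by
  have h0 := H 0
  have h1 := H 1
  have h2 := H 2
  have h3 := H 3
  simp [W, rho, ray] at h0 h1 h2 h3
  fin_cases s <;> rcases hj with rfl | rfl <;> simp [W, rho, ray, cx, cy] <;> grind

lemma W_class (a b : ℂ) (s t j : Fin 4) (hs : j = s ∨ j = s + 1) (ht : j = t ∨ j = t + 1) :
    W j 0 (cx a s - cx a t) (cy a b s - cy a b t) := by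
  fin_cases s <;> fin_cases t <;> rcases hs with rfl | rfl <;> simp at ht <;>
    simp [W, rho, ray, cx, cy]

lemma W_indep (a b f g : ℂ) (H : ∀ s j : Fin 4, j = s ∨ j = s + 1 →
    W j 0 (cx a s - f) (cy a b s - g)) : a = 0 ∧ b = 0 := by
  have h0 := H 0 0 (by simp)
  have h1 := H 0 1 (by simp)
  have h2 := H 1 2 (by simp)
  have h3 := H 3 3 (by simp)
  simp [W, rho, ray, cx, cy] at h0 h1 h2 h3
  grind

lemma W_zero_zero (j u) : W j u 0 0 := by simp [W]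

/-- Contraction with a ray. -/
def pr (j : Fin 4) (F G : Laurent 2) : Laurent 2 := (ray j 0 : ℂ) • F + (ray j 1 : ℂ) • G

lemma coeff_pr (j F G u) :
    (pr j F G).coeff u = (ray j 0 : ℂ) * F.coeff u + (ray j 1 : ℂ) * G.coeff u := by
  simp [pr]

lemma coeff_mul_mono (F : Laurent 2) (m u) : (F * mono (-m)).coeff u = F.coeff (u + m) := by
  simp [mono, AddMonoidAlgebra.coeff_mul_single_apply]

lemma W_iff (s j : Fin 4) (hj : j = s ∨ j = s + 1) (u : Fin 2 → ℤ) (a b : ℂ) :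
    W j u a b ↔ ((ray s 0 : ℂ) * a + (ray s 1 : ℂ) * b ≠ 0 → 0 ≤ rho j (u - m0 s)) ∧
      ((ray (s + 1) 0 : ℂ) * a + (ray (s + 1) 1 : ℂ) * b ≠ 0 → 0 ≤ rho j (u - m1 s)) := by
  fin_cases s <;> rcases hj with rfl | rfl <;> simp [W, rho, ray, m0, m1] <;> grind

lemma vtx2_mem (s t : Fin 4) : (vtx s + vtx t, 2) ∈ dualCone mirror :=
  add_mem (vtx_mem s) (vtx_mem t)

lemma inCone_vtx2 (s t : Fin 4) (u) : InCone (vtx s + vtx t) 2 u ↔
    ∀ j, (j = s ∨ j = s + 1) → (j = t ∨ j = t + 1) → 0 ≤ rho j u := by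
  have : ∀ s t j : Fin 4, rho j (vtx s + vtx t) = -(2 : ℕ) ↔
      (j = s ∨ j = s + 1) ∧ (j = t ∨ j = t + 1) := by decide
  simp only [InCone, this, and_imp]

/-- The local rings of the toric surface. -/
abbrev TO : Proj TG → Subring TK := loc (projStr TG (algebraMap ℂ (TG 0)))

/-- Regularity on the intersection of two charts. -/
def Reg (s t : Fin 4) (η : Ω[TK⁄ℂ]) : Prop :=
  ∀ x : Proj TG, gv s ∉ x.asHomogeneousIdeal → gv t ∉ x.asHomogeneousIdeal → η ∈ regForms (TO x)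

namespace TData

variable (T : TData)

/-- The form `F dx/x + G dy/y`. -/
def θ (F G : Laurent 2) : Ω[TK⁄ℂ] := T.lam F • dlx T.lam + T.lam G • dly T.lam

lemma θ_sub (F G F' G') : T.θ F G - T.θ F' G' = T.θ (F - F') (G - G') := by
  simp only [θ, map_sub]
  module

lemma θ_eq (s : Fin 4) (F G) : T.θ F G =
    T.lam (pr s F G * mono (-m0 s)) • D ℂ TK (T.co s 0) +
      T.lam (pr (s + 1) F G * mono (-m1 s)) • D ℂ TK (T.co s 1) := by
  change _ = _ • D ℂ TK (chi _ (m0 s)) + _ • D ℂ TK (chi _ (m1 s))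
  have h0 := chi_mul_neg T.lam (m0 s)
  have h1 := chi_mul_neg T.lam (m1 s)
  rw [D_chi, D_chi, map_mul, map_mul, θ]
  change _ = (_ * chi _ _) • _ + (_ * chi _ _) • _
  have e : ∀ s : Fin 4, ray s 0 * m0 s 0 + ray (s + 1) 0 * m1 s 0 = 1 ∧
      ray s 1 * m0 s 0 + ray (s + 1) 1 * m1 s 0 = 0 ∧
      ray s 0 * m0 s 1 + ray (s + 1) 0 * m1 s 1 = 0 ∧
      ray s 1 * m0 s 1 + ray (s + 1) 1 * m1 s 1 = 1 := by decide
  obtain ⟨e1, e2, e3, e4⟩ := e s
  have e1 := congrArg (Int.cast : ℤ → TK) e1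
  have e2 := congrArg (Int.cast : ℤ → TK) e2
  have e3 := congrArg (Int.cast : ℤ → TK) e3
  have e4 := congrArg (Int.cast : ℤ → TK) e4
  push_cast at e1 e2 e3 e4
  simp only [pr, map_add, Int.cast_smul_eq_zsmul, zsmul_eq_mul, map_mul, map_intCast]
  match_scalars
  · linear_combination -(ray s 0 * T.lam F + ray s 1 * T.lam G) * m0 s 0 * h0 -
      (ray (s + 1) 0 * T.lam F + ray (s + 1) 1 * T.lam G) * m1 s 0 * h1 - T.lam F * e1 -
        T.lam G * e2
  · linear_combination -(ray s 0 * T.lam F + ray s 1 * T.lam G) * m0 s 1 * h0 -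
      (ray (s + 1) 0 * T.lam F + ray (s + 1) 1 * T.lam G) * m1 s 1 * h1 - T.lam F * e3 -
        T.lam G * e4

lemma loc_iff (s t : Fin 4) (k : TK) :
    (∀ x : Proj TG, gv s ∉ x.asHomogeneousIdeal → gv t ∉ x.asHomogeneousIdeal → k ∈ TO x) ↔
      ∃ F : Laurent 2, (∀ u, F.coeff u ≠ 0 → InCone (vtx s + vtx t) 2 u) ∧ k = T.lam F := by
  have e : gv s * gv t = el (vtx s + vtx t) 2 (vtx2_mem s t) := el_mul _ _ _ _ _ _
  rw [← T.mem_R (vtx2_mem s t) two_pos]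
  constructor
  · intro H
    refine T.H.mem_range_of_loc _ _ _ fun x hx => ?_
    rw [← e] at hx
    exact H x (fun h => hx (Ideal.mul_mem_right _ _ h)) fun h => hx (Ideal.mul_mem_left _ _ h)
  · intro H x hs ht
    refine T.H.range_le_loc _ _ _ ?_ H
    rw [← e]
    exact fun h => (x.isPrime.mem_or_mem h).elim hs ht

lemma reg_iff (s t : Fin 4) (p q : TK) : Reg s t (p • D ℂ TK (T.co s 0) + q • D ℂ TK (T.co s 1)) ↔
    (∃ F : Laurent 2, (∀ u, F.coeff u ≠ 0 → InCone (vtx s + vtx t) 2 u) ∧ p = T.lam F) ∧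
      ∃ F : Laurent 2, (∀ u, F.coeff u ≠ 0 → InCone (vtx s + vtx t) 2 u) ∧ q = T.lam F := by
  obtain ⟨-, ⟨b, hb⟩, hc⟩ := T.chart s
  rw [← T.loc_iff, ← T.loc_iff, ← hb, ← hb]
  have key : ∀ x : Proj TG, gv s ∉ x.asHomogeneousIdeal →
      (p • b 0 + q • b 1 ∈ regForms (TO x) ↔ p ∈ TO x ∧ q ∈ TO x) := fun x hx => by
    rw [(hc x hx).reg_iff hb]
    simp
  exact ⟨fun H => ⟨fun x hs ht => ((key x hs).1 (H x hs ht)).1,
    fun x hs ht => ((key x hs).1 (H x hs ht)).2⟩,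
    fun H x hs ht => (key x hs).2 ⟨H.1 x hs ht, H.2 x hs ht⟩⟩

lemma exists_θ {s t : Fin 4} {η} (H : Reg s t η) : ∃ F G, η = T.θ F G := by
  obtain ⟨-, ⟨b, hb⟩, -⟩ := T.chart s
  rw [← b.sum_repr η, Fin.sum_univ_two, hb, hb] at H ⊢
  obtain ⟨⟨P, -, hP⟩, Q, -, hQ⟩ := (T.reg_iff s t _ _).1 H
  refine ⟨m0 s 0 • (P * mono (m0 s)) + m1 s 0 • (Q * mono (m1 s)),
    m0 s 1 • (P * mono (m0 s)) + m1 s 1 • (Q * mono (m1 s)), ?_⟩
  rw [hP, hQ]
  change _ • D ℂ TK (chi _ (m0 s)) + _ • D ℂ TK (chi _ (m1 s)) = _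
  rw [D_chi, D_chi]
  simp only [θ, map_add, map_mul, zsmul_eq_mul, map_intCast, chi]
  module

lemma reg_θ (s t : Fin 4) (F G) : Reg s t (T.θ F G) ↔
    ∀ u j, (j = s ∨ j = s + 1) → (j = t ∨ j = t + 1) → W j u (F.coeff u) (G.coeff u) := by
  rw [T.θ_eq s, T.reg_iff]
  simp only [T.inj.eq_iff, exists_eq_right', coeff_mul_mono, coeff_pr, inCone_vtx2]
  constructor
  · rintro ⟨h0, h1⟩ u j hs ht
    rw [W_iff s j hs]
    exact ⟨fun h => h0 (u - m0 s) (by simpa using h) j hs ht,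
      fun h => h1 (u - m1 s) (by simpa using h) j hs ht⟩
  · intro H
    refine ⟨fun u hu j hs ht => ?_, fun u hu j hs ht => ?_⟩
    · simpa using ((W_iff s j hs _ _ _).1 (H (u + m0 s) j hs ht)).1 hu
    · simpa using ((W_iff s j hs _ _ _).1 (H (u + m1 s) j hs ht)).2 hu

end TData

end Pool.Agent.Lib.MP_02acd8_h53
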