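import Pool.Agent.Lib.MP_02acd8_h53.Chart
import Pool.Agent.Lib.MP_02acd8_h53.Forms

open AlgebraicGeometry CategoryTheory HomogeneousLocalization KaehlerDifferential

set_option linter.unusedSectionVars false

noncomputable section

namespace Pool.Agent.Lib.MP_02acd8_h53

section Field

variable {K : Type} [Field K] [Algebra ℂ K]

lemma aeval_injective_of_frac {v a : Fin 2 → K}
    (hv : Function.Injective (MvPolynomial.aeval (R := ℂ) v))
    (ha : ∀ k : K, ∃ p q : MvPolynomial (Fin 2) ℂ, MvPolynomial.aeval a q ≠ 0 ∧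
      k * MvPolynomial.aeval a q = MvPolynomial.aeval a p) :
    Function.Injective (MvPolynomial.aeval (R := ℂ) a) := by
  have : Algebra.IsAlgebraic (Algebra.adjoin ℂ (Set.range a)) K := ⟨fun k => by
    obtain ⟨p, q, hq, e⟩ := ha k
    have hm : ∀ p : MvPolynomial (Fin 2) ℂ,
        MvPolynomial.aeval a p ∈ Algebra.adjoin ℂ (Set.range a) := fun p => by
      rw [Algebra.adjoin_range_eq_range_aeval]
      exact ⟨p, rfl⟩
    refine IsAlgebraic.of_smul (y := (⟨_, hm q⟩ : Algebra.adjoin ℂ (Set.range a)))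
      (mem_nonZeroDivisors_of_ne_zero fun H => hq (congrArg Subtype.val H)) ?_
    have : (⟨_, hm q⟩ : Algebra.adjoin ℂ (Set.range a)) • k =
        algebraMap (Algebra.adjoin ℂ (Set.range a)) K ⟨_, hm p⟩ := by
      change MvPolynomial.aeval a q * k = MvPolynomial.aeval a p
      rw [mul_comm, e]
    rw [this]
    exact isAlgebraic_algebraMap _⟩
  exact (Algebra.IsAlgebraic.isTranscendenceBasis_of_le_trdeg_of_finite ℂ a
    (AlgebraicIndependent.cardinalMk_le_trdeg (x := v) hv)).1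

/-- The monomial with exponent `u`. -/
def mono (u : Fin 2 → ℤ) : Laurent 2 := AddMonoidAlgebra.single u 1

lemma mono_add (u v : Fin 2 → ℤ) : mono (u + v) = mono u * mono v := by
  simp [mono, AddMonoidAlgebra.single_mul_single]

lemma mono_zero : mono 0 = 1 := rfl

lemma mono_nsmul (n : ℕ) (u : Fin 2 → ℤ) : mono (n • u) = mono u ^ n := by
  simp [mono, AddMonoidAlgebra.single_pow]

lemma single_eq_smul (u : Fin 2 → ℤ) (z : ℂ) : AddMonoidAlgebra.single u z = z • mono u := by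
  simp [mono]

lemma aeval_mono_injective :
    Function.Injective (MvPolynomial.aeval (R := ℂ) ![mono ![1, 0], mono ![0, 1]]) := by
  let ι : (Fin 2 →₀ ℕ) →+ (Fin 2 → ℤ) :=
    { toFun := fun s i => s i
      map_zero' := by ext; simp
      map_add' := fun s t => by ext; simp }
  have : MvPolynomial.aeval (R := ℂ) ![mono ![1, 0], mono ![0, 1]] =
      AddMonoidAlgebra.mapDomainAlgHom ℂ ℂ ι := by
    apply MvPolynomial.algHom_ext
    intro i
    rw [MvPolynomial.aeval_X]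
    change _ = AddMonoidAlgebra.mapDomain ι (AddMonoidAlgebra.single _ _)
    rw [AddMonoidAlgebra.mapDomain_single]
    fin_cases i
    · change mono _ = mono _
      congr 1
      ext j
      fin_cases j <;> simp [ι]
    · change mono _ = mono _
      congr 1
      ext j
      fin_cases j <;> simp [ι]
  rw [this]
  refine AddMonoidAlgebra.mapDomain_injective fun s t e => ?_
  ext i
  have : (s i : ℤ) = t i := congrFun e i
  exact_mod_cast this

variable (lam : Laurent 2 →ₐ[ℂ] K)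

/-- The character with exponent `u`. -/
def chi (u : Fin 2 → ℤ) : K := lam (mono u)

lemma chi_add (u v : Fin 2 → ℤ) : chi lam (u + v) = chi lam u * chi lam v := by
  rw [chi, mono_add, map_mul]; rfl

lemma chi_zero : chi lam 0 = 1 := by rw [chi, mono_zero, map_one]

lemma chi_mul_neg (u : Fin 2 → ℤ) : chi lam u * chi lam (-u) = 1 := by
  rw [← chi_add, add_neg_cancel, chi_zero]

lemma chi_ne_zero (u : Fin 2 → ℤ) : chi lam u ≠ 0 := left_ne_zero_of_mul_eq_one (chi_mul_neg lam u)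

lemma chi_neg (u : Fin 2 → ℤ) : chi lam (-u) = (chi lam u)⁻¹ :=
  eq_inv_of_mul_eq_one_right (chi_mul_neg lam u)

lemma chi_sub (u v : Fin 2 → ℤ) : chi lam (u - v) = chi lam u / chi lam v := by
  rw [sub_eq_add_neg, chi_add, chi_neg, div_eq_mul_inv]

lemma chi_nsmul (n : ℕ) (u : Fin 2 → ℤ) : chi lam (n • u) = chi lam u ^ n := by
  rw [chi, mono_nsmul, map_pow]; rfl

lemma chi_zsmul (n : ℤ) (u : Fin 2 → ℤ) : chi lam (n • u) = chi lam u ^ n := by
  obtain ⟨n, rfl | rfl⟩ := Int.eq_nat_or_neg n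
  · rw [natCast_zsmul, chi_nsmul, zpow_natCast]
  · rw [neg_smul, chi_neg, natCast_zsmul, chi_nsmul, zpow_neg, zpow_natCast]

/-- The first torus coordinate. -/
abbrev xx : K := chi lam ![1, 0]

/-- The second torus coordinate. -/
abbrev yy : K := chi lam ![0, 1]

lemma chi_eq (u : Fin 2 → ℤ) : chi lam u = xx lam ^ u 0 * yy lam ^ u 1 := by
  rw [← chi_zsmul, ← chi_zsmul, ← chi_add]
  congr 1
  ext i
  fin_cases i <;> simp

/-- The form `dx / x`. -/
def dlx : Ω[K⁄ℂ] := (xx lam)⁻¹ • D ℂ K (xx lam)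

/-- The form `dy / y`. -/
def dly : Ω[K⁄ℂ] := (yy lam)⁻¹ • D ℂ K (yy lam)

lemma D_chi (u : Fin 2 → ℤ) : D ℂ K (chi lam u) =
    (chi lam u * u 0) • dlx lam + (chi lam u * u 1) • dly lam := by
  have hx := chi_ne_zero lam ![1, 0]
  have hy := chi_ne_zero lam ![0, 1]
  rw [chi_eq, Derivation.leibniz, Derivation.leibniz_zpow, Derivation.leibniz_zpow, dlx, dly,
    ← Int.cast_smul_eq_zsmul K, ← Int.cast_smul_eq_zsmul K, zpow_sub_one₀ hx, zpow_sub_one₀ hy]
  module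

lemma aeval_xy (p : MvPolynomial (Fin 2) ℂ) : MvPolynomial.aeval ![xx lam, yy lam] p =
    lam (MvPolynomial.aeval ![mono ![1, 0], mono ![0, 1]] p) := by
  rw [← AlgHom.comp_apply, MvPolynomial.comp_aeval]
  congr 2
  ext i
  fin_cases i <;> rfl

lemma xy_injective (hl : Function.Injective lam) :
    Function.Injective (MvPolynomial.aeval (R := ℂ) ![xx lam, yy lam]) := by
  intro p q e
  rw [aeval_xy, aeval_xy] at e
  exact aeval_mono_injective (hl e)

end Field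

variable {A σ : Type} [CommRing A] [IsDomain A] [SetLike σ A] [AddSubgroupClass σ A]
  {𝒜 : ℕ → σ} [GradedRing 𝒜] [IsIntegral (Proj 𝒜)] {c : ℂ →+* 𝒜 0} {h : A}
  {φ : A →+* FF (projStr 𝒜 c)}

lemma exists_torus {B : Type} [CommRing B] (ev : A →+* B)
    (hinj : ∀ n, ∀ r ∈ 𝒜 n, ev r = 0 → r = 0) {g : A} {d : ℕ} (hg : g ∈ 𝒜 d)
    (hu : IsUnit (ev g)) (hs : ∀ b, ∃ n, ∃ r ∈ 𝒜 (n • d), b * ev g ^ n = ev r) :
    ∃ e : Away 𝒜 g ≃+* B, ∀ n r (hr : r ∈ 𝒜 (n • d)),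
      e (Away.mk 𝒜 hg n r hr) * ev g ^ n = ev r := by
  let e : Away 𝒜 g →+* B :=
    (IsLocalization.Away.lift (S := Localization.Away g) g hu).comp (algebraMap _ _)
  have he : ∀ n r (hr : r ∈ 𝒜 (n • d)), e (Away.mk 𝒜 hg n r hr) * ev g ^ n = ev r := by
    intro n r hr
    simp only [e, RingHom.comp_apply, HomogeneousLocalization.algebraMap_apply, Away.val_mk,
      Localization.mk_eq_mk', IsLocalization.Away.lift]
    rw [mul_comm, eq_comm, ← map_pow]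
    exact (IsLocalization.lift_mk'_spec (S := Localization.Away g) _ r _
      (⟨g ^ n, n, rfl⟩ : Submonoid.powers g)).1 rfl
  refine ⟨RingEquiv.ofBijective e ⟨?_, fun b => ?_⟩, he⟩
  · rw [injective_iff_map_eq_zero]
    intro z hz
    obtain ⟨n, r, hr, rfl⟩ := Away.mk_surjective 𝒜 hg z
    have := he n r hr
    rw [hz, zero_mul] at this
    obtain rfl := hinj _ r hr this.symm
    exact mk_eq_zero_of_num _ rfl
  · obtain ⟨n, r, hr, e'⟩ := hs b
    exact ⟨_, (hu.pow n).mul_right_cancel ((he n r hr).trans e'.symm)⟩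

namespace Dehom

variable (H : Dehom 𝒜 c h φ)
include H

lemma frac (k : FF (projStr 𝒜 c)) :
    ∃ n, ∃ r ∈ 𝒜 n, ∃ t ∈ 𝒜 n, φ t ≠ 0 ∧ k * φ t = φ r := by
  obtain ⟨n, r, hr, t, ht, hx, e⟩ := (H.loc_iff (genericPoint (Proj 𝒜)) k).1 ⟨k, by
    change ((Proj 𝒜).presheaf.stalkSpecializes _).hom k = k
    rw [TopCat.Presheaf.stalkSpecializes_refl]
    rfl⟩
  exact ⟨n, r, hr, t, ht, H.ne_zero' ht hx, e⟩

lemma exists_lam (hh : h ∈ 𝒜 1) (ev : A →+* Laurent 2) (h1 : ev h = 1)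
    (hc : ∀ z, ev (c z) = algebraMap ℂ _ z)
    (hinj : ∀ n, ∀ r ∈ 𝒜 n, ev r = 0 → r = 0) {g : A} {d : ℕ} (hg : g ∈ 𝒜 d) (hd : 0 < d)
    (hu : IsUnit (ev g)) (hs : ∀ b, ∃ n, ∃ r ∈ 𝒜 (n • d), b * ev g ^ n = ev r) :
    ∃ lam : Laurent 2 →ₐ[ℂ] FF (projStr 𝒜 c), Function.Injective lam ∧
      ∀ n, ∀ r ∈ 𝒜 n, φ r = lam (ev r) := by
  obtain ⟨e, he⟩ := exists_torus ev hinj hg hu hs
  have g0 : g ≠ 0 := fun e => by simp [e] at hu
  let l := (chartF 𝒜 c hg hd g0).comp e.symm.toRingHom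
  have hl : ∀ m, ∀ r ∈ 𝒜 m, φ r = l (ev r) := by
    intro m r hr
    obtain ⟨n, r', hr', e'⟩ := hs (ev r)
    have e1 : ev r = e (Away.mk 𝒜 hg n r' hr') :=
      (hu.pow n).mul_right_cancel (e'.trans (he n r' hr').symm)
    have e2 : g ^ n * r - r' * h ^ m = 0 := by
      refine hinj (n • d + m) _ (sub_mem (SetLike.mul_mem_graded (SetLike.pow_mem_graded n hg) hr)
        (SetLike.mul_mem_graded hr' (by simpa using SetLike.pow_mem_graded m hh))) ?_
      rw [map_sub, map_mul, map_mul, map_pow, map_pow, h1, ← e']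
      ring
    have e3 := congrArg φ (sub_eq_zero.1 e2)
    rw [map_mul, map_mul, map_pow, map_pow, H.one, one_pow, mul_one] at e3
    have e4 : l (ev r) = chartF 𝒜 c hg hd g0 (Away.mk 𝒜 hg n r' hr') := by
      rw [e1]
      exact congrArg (chartF 𝒜 c hg hd g0) (e.symm_apply_apply _)
    rw [e4, H.chart_eq, ← e3, mul_div_cancel_left₀ _ (pow_ne_zero _ (H.ne_zero hg g0))]
  have hcomm : ∀ z, l (algebraMap ℂ _ z) = algebraMap ℂ _ z := fun z => by
    rw [H.const, hl 0 _ (c z).2, hc]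
  exact ⟨{ l with commutes' := hcomm }, (H.chart_injective hg hd g0).comp e.symm.injective, hl⟩

variable {g : A} {d : ℕ} (hg : g ∈ 𝒜 d) (hd : 0 < d) (g0 : g ≠ 0)

lemma chart_const (z : ℂ) :
    chartF 𝒜 c hg hd g0 (fromZeroRingHom 𝒜 _ (c z)) = algebraMap ℂ _ z := by
  have := H.chart hg hd g0 0 (c z) (by simp)
  rw [pow_zero, mul_one] at this
  rw [H.const, ← this]
  congr 1
  ext
  simp [fromZeroRingHom, Away.mk]

lemma frac_chart (k : FF (projStr 𝒜 c)) : ∃ a b : Away 𝒜 g,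
    chartF 𝒜 c hg hd g0 b ≠ 0 ∧ k * chartF 𝒜 c hg hd g0 b = chartF 𝒜 c hg hd g0 a := by
  obtain ⟨p, hp⟩ := exists_away hg hd (generic_mem 𝒜 hg hd g0)
  obtain ⟨a, b, hb, e⟩ := (H.loc_away_iff hg hd g0 p k).1 (hp ▸ ⟨k, by
    change ((Proj 𝒜).presheaf.stalkSpecializes _).hom k = k
    rw [TopCat.Presheaf.stalkSpecializes_refl]
    rfl⟩)
  refine ⟨a, b, fun e => hb ?_, e⟩
  rw [(map_eq_zero_iff _ (H.chart_injective hg hd g0)).1 e]
  exact zero_mem _

lemma range_le_loc {x : Proj 𝒜} (hx : g ∉ x.asHomogeneousIdeal) :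
    (chartF 𝒜 c hg hd g0).range ≤ loc (projStr 𝒜 c) x := by
  obtain ⟨p, rfl⟩ := exists_away hg hd hx
  rintro _ ⟨a, rfl⟩
  exact (H.loc_away_iff hg hd g0 p _).2
    ⟨a, 1, fun H => p.2.ne_top ((Ideal.eq_top_iff_one _).2 H), by simp⟩

lemma mem_range_of_loc {k : FF (projStr 𝒜 c)}
    (hk : ∀ x : Proj 𝒜, g ∉ x.asHomogeneousIdeal → k ∈ loc (projStr 𝒜 c) x) :
    k ∈ (chartF 𝒜 c hg hd g0).range :=
  mem_range_of_inLoc _ k fun p => (H.loc_away_iff hg hd g0 p k).1 (hk _ (away_notMem hg hd p))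

theorem chart_spec {v a : Fin 2 → FF (projStr 𝒜 c)}
    (hv : Function.Injective (MvPolynomial.aeval (R := ℂ) v)) (w : MvPolynomial (Fin 2) ℂ)
    (h1 : ∀ i, a i ∈ (chartF 𝒜 c hg hd g0).range)
    (h2 : ∃ u ∈ (chartF 𝒜 c hg hd g0).range, MvPolynomial.aeval a w * u = 1)
    (h3 : ∀ b ∈ (chartF 𝒜 c hg hd g0).range, ∃ (p : MvPolynomial (Fin 2) ℂ) (n : ℕ),
      b * MvPolynomial.aeval a w ^ n = MvPolynomial.aeval a p) :
    SmoothOfRelativeDimension 2 (Proj.awayι 𝒜 g hg hd ≫ projStr 𝒜 c) ∧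
      Function.Injective (MvPolynomial.aeval (R := ℂ) a) ∧
      (∃ b : Module.Basis (Fin 2) (FF (projStr 𝒜 c)) Ω[FF (projStr 𝒜 c)⁄ℂ],
        ∀ i, b i = D ℂ _ (a i)) ∧
      ∀ x : Proj 𝒜, g ∉ x.asHomogeneousIdeal → Coord (loc (projStr 𝒜 c) x) a := by
  obtain ⟨u, hu, hw⟩ := h2
  have hw0 := left_ne_zero_of_mul_eq_one hw
  have key : ∀ (k : FF (projStr 𝒜 c)) (a' b' : Away 𝒜 g), chartF 𝒜 c hg hd g0 b' ≠ 0 →
      k * chartF 𝒜 c hg hd g0 b' = chartF 𝒜 c hg hd g0 a' →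
      ∃ (p q : MvPolynomial (Fin 2) ℂ) (n : ℕ), MvPolynomial.aeval a q ≠ 0 ∧
        k * MvPolynomial.aeval a q = MvPolynomial.aeval a p ∧
        MvPolynomial.aeval a q = chartF 𝒜 c hg hd g0 b' * MvPolynomial.aeval a w ^ n := by
    intro k a' b' hb e
    obtain ⟨p, n, e1⟩ := h3 _ ⟨a', rfl⟩
    obtain ⟨q, m, e2⟩ := h3 _ ⟨b', rfl⟩
    refine ⟨p * w ^ m, q * w ^ n, m + n, ?_, ?_, ?_⟩
    · rw [map_mul, map_pow, ← e2]
      exact mul_ne_zero (mul_ne_zero hb (pow_ne_zero _ hw0)) (pow_ne_zero _ hw0)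
    · rw [map_mul, map_mul, map_pow, map_pow, ← e1, ← e2, ← e]
      ring
    · rw [map_mul, map_pow, ← e2]
      ring
  have fr : ∀ k : FF (projStr 𝒜 c), ∃ p q : MvPolynomial (Fin 2) ℂ, MvPolynomial.aeval a q ≠ 0 ∧
      k * MvPolynomial.aeval a q = MvPolynomial.aeval a p := fun k => by
    obtain ⟨a', b', hb, e⟩ := H.frac_chart hg hd g0 k
    obtain ⟨p, q, -, h1, h2, -⟩ := key k a' b' hb e
    exact ⟨p, q, h1, h2⟩
  have ha := aeval_injective_of_frac hv fr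
  refine ⟨?_, ha, exists_basis ha fun k => ?_, fun x hx => ?_⟩
  · rw [projStr, Proj.awayι_toSpecZero_assoc, ← Spec.map_comp,
      HasRingHomProperty.Spec_iff (P := @SmoothOfRelativeDimension 2)]
    exact RingHom.locally_of RingHom.isStandardSmoothOfRelativeDimension_respectsIso _
      (stdSmooth_chart _ _ (H.chart_injective hg hd g0) (H.chart_const hg hd g0) ha w h1
        ⟨u, hu, hw⟩ fun b => h3 _ ⟨b, rfl⟩)
  · obtain ⟨p, q, h1, h2⟩ := fr k
    exact ⟨p, q, fun e => h1 (by simp [e]), h2⟩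
  · have hle := H.range_le_loc hg hd g0 hx
    refine coord_of_frac (fun i => hle (h1 i)) (fun z => hle ⟨_, H.chart_const hg hd g0 z⟩)
      fun b hb => ?_
    obtain ⟨p, rfl⟩ := exists_away hg hd hx
    obtain ⟨a', b', hb', e⟩ := (H.loc_away_iff hg hd g0 p b).1 hb
    have hb0 : chartF 𝒜 c hg hd g0 b' ≠ 0 := fun e => hb' (by
      rw [(map_eq_zero_iff _ (H.chart_injective hg hd g0)).1 e]
      exact zero_mem _)
    obtain ⟨p', q, n, h1, h2, h3⟩ := key b a' b' hb0 e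
    have hi : (chartF 𝒜 c hg hd g0 b')⁻¹ ∈ loc (projStr 𝒜 c) (Proj.awayι 𝒜 g hg hd p) :=
      (H.loc_away_iff hg hd g0 p _).2 ⟨1, b', hb', by rw [inv_mul_cancel₀ hb0, map_one]⟩
    have h4 : MvPolynomial.aeval a q * ((chartF 𝒜 c hg hd g0 b')⁻¹ * u ^ n) = 1 := by
      rw [h3, mul_mul_mul_comm, mul_inv_cancel₀ hb0, ← mul_pow, hw, one_pow, one_mul]
    refine ⟨p', q, _, mul_mem hi (pow_mem (hle hu) n), h4, ?_⟩
    rw [← h2, mul_assoc, h4, mul_one]

end Dehom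

lemma smooth_of_charts {ι : Type} (g : ι → A) (d : ι → ℕ) (hg : ∀ i, g i ∈ 𝒜 (d i))
    (hd : ∀ i, 0 < d i) (cov : ∀ x : Proj 𝒜, ∃ i, g i ∉ x.asHomogeneousIdeal)
    (H : ∀ i, SmoothOfRelativeDimension 2 (Proj.awayι 𝒜 (g i) (hg i) (hd i) ≫ projStr 𝒜 c)) :
    SmoothOfRelativeDimension 2 (projStr 𝒜 c) :=
  IsZariskiLocalAtSource.of_openCover (P := @SmoothOfRelativeDimension 2)
    (Scheme.Cover.mkOfCovers ι _ (fun i => Proj.awayι 𝒜 (g i) (hg i) (hd i)) (fun x => by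
      obtain ⟨i, hi⟩ := cov x
      exact ⟨i, exists_away (hg i) (hd i) hi⟩) fun _ => inferInstance) H

end Pool.Agent.Lib.MP_02acd8_h53
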