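import Pool.Agent.Lib.MP_02acd8_h53.Toric

open AlgebraicGeometry CategoryTheory HomogeneousLocalization

set_option linter.unusedSectionVars false

noncomputable section

namespace Pool.Agent.Lib.MP_02acd8_h53

/-- The monomial `x`. -/
abbrev lx : Laurent 2 := mono ![1, 0]

/-- The monomial `y`. -/
abbrev ly : Laurent 2 := mono ![0, 1]

lemma mirror_mul : mirror * (lx * ly) = lx ^ 2 * ly + lx * ly ^ 2 + ly + 1 := by
  have h1 : mono ![-1, 0] * lx = 1 := by
    rw [← mono_add, ← mono_zero]
    congr 1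
    decide
  have h2 : mono ![-1, -1] * (lx * ly) = 1 := by
    rw [← mono_add, ← mono_add, ← mono_zero]
    congr 1
    decide
  have : mirror = lx + ly + mono ![-1, 0] + mono ![-1, -1] := rfl
  rw [this]
  linear_combination ly * h1 + h2

/-- The degree `n` part of the coordinate ring, dehomogenized. -/
def MM (n : ℕ) : Submodule ℂ (Laurent 2) :=
  Submodule.span ℂ {p | ∃ k i j : ℕ, i + j ≤ n ∧ p = mirror ^ k * lx ^ i * ly ^ j}

lemma MM_gen {n : ℕ} (k i j : ℕ) (h : i + j ≤ n) : mirror ^ k * lx ^ i * ly ^ j ∈ MM n :=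
  Submodule.subset_span ⟨k, i, j, h, rfl⟩

lemma MM_mul {n m : ℕ} {a b : Laurent 2} (ha : a ∈ MM n) (hb : b ∈ MM m) : a * b ∈ MM (n + m) := by
  have := Submodule.mul_mem_mul ha hb
  rw [MM, MM, Submodule.span_mul_span] at this
  refine Submodule.span_le.2 ?_ this
  rintro _ ⟨_, ⟨k, i, j, h, rfl⟩, _, ⟨k', i', j', h', rfl⟩, rfl⟩
  refine Submodule.subset_span ⟨k + k', i + i', j + j', by omega, ?_⟩
  ring

lemma MM_one (n : ℕ) : (1 : Laurent 2) ∈ MM n := by simpa using MM_gen 0 0 0 (Nat.zero_le n)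

/-- The homogeneous coordinate ring of the pencil. -/
def PAs : Subalgebra ℂ (Polynomial (Laurent 2)) where
  carrier := {p | ∀ n, p.coeff n ∈ MM n}
  mul_mem' := fun {p q} hp hq n => by
    rw [Polynomial.coeff_mul]
    exact sum_mem fun c hc => Finset.HasAntidiagonal.mem_antidiagonal.1 hc ▸ MM_mul (hp _) (hq _)
  add_mem' := fun {p q} hp hq n => by
    rw [Polynomial.coeff_add]
    exact add_mem (hp n) (hq n)
  algebraMap_mem' := fun z n => by
    rw [Polynomial.algebraMap_apply, Polynomial.coeff_C]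
    split_ifs
    · rw [Algebra.algebraMap_eq_smul_one]
      exact Submodule.smul_mem _ _ (MM_one n)
    · exact zero_mem _

/-- The same ring, as a type. -/
def PA : Type := PAs

instance : CommRing PA := inferInstanceAs (CommRing PAs)

instance : IsDomain PA := inferInstanceAs (IsDomain PAs)

instance : Algebra ℂ PA := inferInstanceAs (Algebra ℂ PAs)

/-- The inclusion into polynomials. -/
def pval : PA →ₐ[ℂ] Polynomial (Laurent 2) := PAs.val

lemma pval_injective : Function.Injective pval := Subtype.val_injective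

lemma pval_mem (r : PA) (n : ℕ) : (pval r).coeff n ∈ MM n := r.2 n

/-- Its grading. -/
def PG (n : ℕ) : Submodule ℂ PA where
  carrier := {p | ∀ m, m ≠ n → (pval p).coeff m = 0}
  add_mem' := fun {p q} hp hq m hm => by simp [hp m hm, hq m hm]
  zero_mem' := fun m _ => by simp
  smul_mem' := fun z p hp m hm => by simp [hp m hm]

/-- A homogeneous element. -/
def pmk (n : ℕ) (a : Laurent 2) (ha : a ∈ MM n) : PA := ⟨Polynomial.monomial n a, fun m => by
  rw [Polynomial.coeff_monomial]
  split_ifs with h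
  · exact h ▸ ha
  · exact zero_mem _⟩

lemma pval_pmk (n a ha) : pval (pmk n a ha) = Polynomial.monomial n a := rfl

lemma pmk_mem (n a ha) : pmk n a ha ∈ PG n := fun m hm => by
  simp [pval_pmk, Polynomial.coeff_monomial, hm.symm]

lemma eq_pmk {n} {r : PA} (hr : r ∈ PG n) : r = pmk n ((pval r).coeff n) (pval_mem r n) := by
  apply pval_injective
  ext m : 1
  simp only [pval_pmk, Polynomial.coeff_monomial]
  split_ifs with h
  · rw [h]
  · exact hr m (Ne.symm h)

instance : SetLike.GradedMonoid PG where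
  one_mem := fun m hm => by simp [Polynomial.coeff_one, hm]
  mul_mem := fun {n m p q} hp hq l hl => by
    rw [eq_pmk hp, eq_pmk hq]
    simp [pval_pmk, Polynomial.monomial_mul_monomial, Polynomial.coeff_monomial, hl.symm]

lemma PG_internal : DirectSum.IsInternal PG := by
  classical
  constructor
  · rw [injective_iff_map_eq_zero]
    intro z hz
    have key : ∀ (z : DirectSum ℕ fun n => PG n) (n : ℕ),
        (pval (DirectSum.coeAddMonoidHom PG z)).coeff n = (pval (z n)).coeff n := by
      intro z n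
      induction z using DirectSum.induction_on with
      | zero => simp
      | of i a =>
        rw [DirectSum.coeAddMonoidHom_of]
        by_cases h : i = n
        · subst h
          rw [DirectSum.of_eq_same]
        · rw [DirectSum.of_eq_of_ne _ _ _ (Ne.symm h), a.2 n (Ne.symm h)]
          simp
      | add a b ha hb => simp [ha, hb]
    refine DFinsupp.ext fun n => Subtype.ext (pval_injective (Polynomial.ext fun m => ?_))
    change _ = (pval 0).coeff m
    by_cases h : m = n
    · rw [h, ← key, hz]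
    · simpa using (z n).2 m h
  · intro p
    refine ⟨∑ n ∈ (pval p).support,
      DirectSum.of (fun n => PG n) n ⟨_, pmk_mem n _ (pval_mem p n)⟩, pval_injective ?_⟩
    rw [map_sum, map_sum]
    simp only [DirectSum.coeAddMonoidHom_of, pval_pmk]
    exact (Polynomial.as_sum_support (pval p)).symm

instance : GradedAlgebra PG := PG_internal.gradedAlgebra

/-- The coordinate `X`. -/
def eX : PA := pmk 1 lx (by simpa using MM_gen 0 1 0 le_rfl)

/-- The coordinate `Y`. -/
def eY : PA := pmk 1 ly (by simpa using MM_gen 0 0 1 le_rfl)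

/-- The coordinate `Z`. -/
def eZ : PA := pmk 1 1 (MM_one 1)

/-- The parameter of the pencil. -/
def et : PA := pmk 0 mirror (by simpa using MM_gen 1 0 0 le_rfl)

lemma eX_mem : eX ∈ PG 1 := pmk_mem _ _ _
lemma eY_mem : eY ∈ PG 1 := pmk_mem _ _ _
lemma eZ_mem : eZ ∈ PG 1 := pmk_mem _ _ _
lemma et_mem : et ∈ PG 0 := pmk_mem _ _ _

/-- Dehomogenization. -/
def pev : PA →ₐ[ℂ] Laurent 2 :=
  ((Polynomial.aeval (1 : Laurent 2)).restrictScalars ℂ).comp pval

lemma pev_pmk (n a ha) : pev (pmk n a ha) = a := by simp [pev, pval_pmk]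

lemma pev_X : pev eX = lx := pev_pmk _ _ _
lemma pev_Y : pev eY = ly := pev_pmk _ _ _
lemma pev_Z : pev eZ = 1 := pev_pmk _ _ _
lemma pev_t : pev et = mirror := pev_pmk _ _ _

lemma pev_inj (n : ℕ) (r : PA) (hr : r ∈ PG n) (e : pev r = 0) : r = 0 := by
  rw [eq_pmk hr, pev_pmk] at e
  rw [eq_pmk hr]
  apply pval_injective
  simp [pval_pmk, e]

lemma gen_mem (k i j l : ℕ) : et ^ k * eX ^ i * eY ^ j * eZ ^ l ∈ PG (i + j + l) := by
  have := SetLike.mul_mem_graded (SetLike.mul_mem_graded (SetLike.mul_mem_graded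
    (SetLike.pow_mem_graded k et_mem) (SetLike.pow_mem_graded i eX_mem))
    (SetLike.pow_mem_graded j eY_mem)) (SetLike.pow_mem_graded l eZ_mem)
  simpa using this

lemma pencil_induction {n : ℕ} {P : PA → Prop} (h0 : P 0) (hadd : ∀ a b, P a → P b → P (a + b))
    (hs : ∀ (z : ℂ) a, P a → P (z • a))
    (hg : ∀ k i j l, i + j + l = n → P (et ^ k * eX ^ i * eY ^ j * eZ ^ l))
    (r : PA) (hr : r ∈ PG n) : P r := by
  have key : ∀ a ∈ MM n, ∃ r' ∈ PG n, pev r' = a ∧ P r' := by
    intro a ha
    induction ha using Submodule.span_induction with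
    | mem _ h =>
      obtain ⟨k, i, j, h, rfl⟩ := h
      obtain ⟨l, rfl⟩ := Nat.exists_eq_add_of_le h
      exact ⟨_, gen_mem k i j l, by simp [pev_X, pev_Y, pev_Z, pev_t], hg k i j l rfl⟩
    | zero => exact ⟨0, zero_mem _, map_zero _, h0⟩
    | add _ _ _ _ h1 h2 =>
      obtain ⟨a, ha, rfl, pa⟩ := h1
      obtain ⟨b, hb, rfl, pb⟩ := h2
      exact ⟨a + b, add_mem ha hb, map_add _ _ _, hadd _ _ pa pb⟩
    | smul z _ _ h1 =>
      obtain ⟨a, ha, rfl, pa⟩ := h1
      exact ⟨z • a, Submodule.smul_mem _ _ ha, map_smul _ _ _, hs _ _ pa⟩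
  obtain ⟨r', hr', e, h⟩ := key _ (pval_mem r n)
  have : r - r' = 0 := pev_inj n _ (sub_mem hr hr') (by
    rw [map_sub, e, eq_pmk hr, pev_pmk, ← eq_pmk hr, sub_self])
  exact (sub_eq_zero.1 this) ▸ h

lemma pencil_rel : eZ ^ 3 + eY * eZ ^ 2 + eX * eY * (eX + eY) = et * (eX * eY * eZ) := by
  rw [← sub_eq_zero]
  refine pev_inj 3 _ ?_ ?_
  · have h1 := gen_mem 0 0 0 3
    have h2 := gen_mem 0 0 1 2
    have h3 := gen_mem 0 2 1 0
    have h4 := gen_mem 0 1 2 0
    have h5 := gen_mem 1 1 1 1
    have := sub_mem (add_mem (add_mem h1 h2) (add_mem h3 h4)) h5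
    refine (congrArg (· ∈ PG 3) ?_).mp this
    ring
  · simp only [map_sub, map_add, map_mul, map_pow, pev_X, pev_Y, pev_Z, pev_t]
    linear_combination -mirror_mul

lemma eZ_ne_zero : eZ ≠ 0 := fun e => by simpa [e] using pev_Z

instance pencil_integral : IsIntegral (Proj PG) := proj_integral PG eZ_mem eZ_ne_zero

end Pool.Agent.Lib.MP_02acd8_h53
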