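import Pool.Agent.Lib.MP_02acd8_h53.PencilC
import Pool.Agent.Lib.MP_02acd8_h53.Fano

open AlgebraicGeometry CategoryTheory HomogeneousLocalization

set_option linter.unusedSectionVars false
set_option maxSynthPendingDepth 3

noncomputable section

namespace Pool.Agent.Lib.MP_02acd8_h53

/-- Polynomials in `X, Y`. -/
abbrev S0 : Type := MvPolynomial (Fin 2) ℂ

/-- Polynomials in `X, Y, Z`. -/
abbrev S1 : Type := Polynomial S0

/-- Polynomials in `X, Y, Z, t`. -/
abbrev S2 : Type := Polynomial S1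

open Polynomial in
/-- The member of the pencil with parameter `c`. -/
def cub (c : ℂ) : S1 :=
  X ^ 3 + C (MvPolynomial.X 1) * X ^ 2 +
    C (-(MvPolynomial.C c * MvPolynomial.X 0) * MvPolynomial.X 1) * X +
    C (MvPolynomial.X 0 * (MvPolynomial.X 0 + MvPolynomial.X 1) * MvPolynomial.X 1)

/-- The member at infinity. -/
def tri : S1 := Polynomial.C (MvPolynomial.X 0 * MvPolynomial.X 1) * Polynomial.X

lemma cub_eq (c : ℂ) : cub c = cub 0 - algebraMap ℂ S1 c * tri := by
  simp [cub, tri]
  ring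

lemma cub_irreducible (c : ℂ) : Irreducible (cub c) := by
  have hm : (cub c).Monic := by
    unfold cub
    monicity!
  have hd : (cub c).natDegree = 3 := by
    unfold cub
    compute_degree!
  have hp : (Ideal.span {(MvPolynomial.X 1 : S0)}).IsPrime :=
    (Ideal.span_singleton_prime (MvPolynomial.X_ne_zero 1)).2 MvPolynomial.X_prime
  refine Polynomial.IsEisensteinAt.irreducible ⟨?_, fun {n} hn => ?_, ?_⟩ hp hm.isPrimitive
    (by omega)
  · rw [hm.leadingCoeff]
    exact fun h => hp.ne_top ((Ideal.eq_top_iff_one _).2 h)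
  · rw [hd] at hn
    rw [Ideal.mem_span_singleton]
    simp only [cub, Polynomial.coeff_add, Polynomial.coeff_C_mul, Polynomial.coeff_X_pow,
      Polynomial.coeff_X, Polynomial.coeff_C]
    interval_cases n <;> simp
  · rw [Ideal.span_singleton_pow, Ideal.mem_span_singleton]
    simp only [cub, Polynomial.coeff_add, Polynomial.coeff_C_mul, Polynomial.coeff_X_pow,
      Polynomial.coeff_X, Polynomial.coeff_C]
    rintro ⟨q, hq⟩
    have h1 : (MvPolynomial.X 0 : S0) * (MvPolynomial.X 0 + MvPolynomial.X 1) =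
        MvPolynomial.X 1 * q := by
      apply mul_right_cancel₀ (MvPolynomial.X_ne_zero (1 : Fin 2))
      simp at hq
      linear_combination hq
    simpa using congrArg (MvPolynomial.eval ![1, 0]) h1

/-- The equation of the total space. -/
def eqn : S2 := Polynomial.C (-tri) * Polynomial.X + Polynomial.C (cub 0)

lemma tri_ne_zero : tri ≠ 0 := by simp [tri]

lemma eqn_prime : Prime eqn := by
  refine (Polynomial.irreducible_C_mul_X_add_C (neg_ne_zero.2 tri_ne_zero) ?_).prime
  refine ((cub_irreducible 0).isRelPrime_iff_not_dvd.2 ?_).symm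
  rintro ⟨q, hq⟩
  have := congrArg (Polynomial.eval₂RingHom (MvPolynomial.eval ![1, -1]) 1) hq
  simp [tri, cub] at this

/-- The map from polynomials in `X, Y, Z`. -/
def Φ0 : S1 →ₐ[ℂ] PA := Polynomial.aevalTower (MvPolynomial.aeval ![eX, eY]) eZ

/-- The presentation of the coordinate ring. -/
def Φ : S2 →ₐ[ℂ] PA := Polynomial.aevalTower Φ0 et

lemma Φ_C (a : S1) : Φ (Polynomial.C a) = Φ0 a := Polynomial.aevalTower_C _ _ _

lemma Φ_X : Φ Polynomial.X = et := Polynomial.aevalTower_X _ _

lemma Φ0_X : Φ0 Polynomial.X = eZ := Polynomial.aevalTower_X _ _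

lemma Φ0_C (a : S0) : Φ0 (Polynomial.C a) = MvPolynomial.aeval ![eX, eY] a :=
  Polynomial.aevalTower_C _ _ _

lemma Φ0_injective : Function.Injective Φ0 := by
  let K := FractionRing S1
  let ι : S1 →ₐ[ℂ] K := IsScalarTower.toAlgHom ℂ S1 K
  have hι : Function.Injective ι := IsFractionRing.injective S1 K
  let x := ι (Polynomial.C (MvPolynomial.X 0))
  let y := ι (Polynomial.C (MvPolynomial.X 1))
  let z := ι Polynomial.X
  have hx : x ≠ 0 := (map_ne_zero_iff _ hι).2 (by simp)
  have hy : y ≠ 0 := (map_ne_zero_iff _ hι).2 (by simp)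
  have hz : z ≠ 0 := (map_ne_zero_iff _ hι).2 (by simp)
  let m : Multiplicative (Fin 2 → ℤ) →* K :=
    { toFun := fun u => (x / z) ^ (u.toAdd 0) * (y / z) ^ (u.toAdd 1)
      map_one' := by simp
      map_mul' := fun u v => by
        simp only [toAdd_mul, Pi.add_apply, zpow_add₀ (div_ne_zero hx hz),
          zpow_add₀ (div_ne_zero hy hz)]
        ring }
  let μ : Laurent 2 →ₐ[ℂ] K := AddMonoidAlgebra.lift ℂ K _ m
  have hμ : ∀ u, μ (mono u) = (x / z) ^ (u 0) * (y / z) ^ (u 1) := fun u => by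
    simp [μ, mono, m]
  have key : ((Polynomial.aevalTower μ z).comp pval).comp Φ0 = ι := by
    have h : ∀ a ha, Polynomial.aevalTower μ z (pval (pmk 1 a ha)) = μ a * z := fun a ha => by
      rw [pval_pmk, ← Polynomial.C_mul_X_eq_monomial, map_mul, Polynomial.aevalTower_C,
        Polynomial.aevalTower_X]
    refine Polynomial.algHom_ext' (MvPolynomial.algHom_ext fun i => ?_) ?_
    · change Polynomial.aevalTower μ z (pval (Φ0 (Polynomial.C _))) = ι (Polynomial.C _)
      rw [Φ0_C, MvPolynomial.aeval_X]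
      fin_cases i
      · change Polynomial.aevalTower μ z (pval eX) = x
        rw [eX, h, hμ]
        simpa using div_mul_cancel₀ x hz
      · change Polynomial.aevalTower μ z (pval eY) = y
        rw [eY, h, hμ]
        simpa using div_mul_cancel₀ y hz
    · change Polynomial.aevalTower μ z (pval (Φ0 Polynomial.X)) = z
      rw [Φ0_X, eZ, h, map_one, one_mul]
  intro a b e
  apply hι
  rw [← key, AlgHom.comp_apply, AlgHom.comp_apply _ Φ0, e]

lemma Φ_eqn : Φ eqn = 0 := by
  simp only [eqn, cub, tri, map_add, map_mul, map_neg, map_pow, Φ_C, Φ_X, Φ0_X, Φ0_C,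
    MvPolynomial.aeval_X, map_zero]
  simp only [Matrix.cons_val_zero, Matrix.cons_val_one]
  linear_combination pencil_rel

lemma pseudo_div (Q : S2) : ∃ (n : ℕ) (R : S1), eqn ∣ Polynomial.C tri ^ n * Q - Polynomial.C R := by
  induction Q using Polynomial.induction_on with
  | C a => exact ⟨0, a, by simp⟩
  | add p q hp hq =>
    obtain ⟨n, R, h⟩ := hp
    obtain ⟨m, R', h'⟩ := hq
    refine ⟨n + m, tri ^ m * R + tri ^ n * R', ?_⟩
    have := dvd_add (h.mul_left (Polynomial.C tri ^ m)) (h'.mul_left (Polynomial.C tri ^ n))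
    refine (congrArg (eqn ∣ ·) ?_).mp this
    simp only [map_add, map_mul, map_pow]
    ring
  | monomial n a h =>
    obtain ⟨m, R, h⟩ := h
    refine ⟨m + 1, R * cub 0, ?_⟩
    have := dvd_sub (h.mul_left (Polynomial.C tri * Polynomial.X))
      (dvd_mul_right eqn (Polynomial.C R))
    refine (congrArg (eqn ∣ ·) ?_).mp this
    simp only [eqn, map_mul, map_neg]
    ring

lemma dvd_of_Φ {Q : S2} (h : Φ Q = 0) : eqn ∣ Q := by
  obtain ⟨n, R, q, hq⟩ := pseudo_div Q
  have h1 := congrArg Φ hq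
  rw [map_sub, map_mul, map_mul, h, Φ_eqn, Φ_C, mul_zero, zero_mul, zero_sub, neg_eq_zero,
    map_eq_zero_iff _ Φ0_injective] at h1
  rw [h1, map_zero, sub_zero] at hq
  refine (eqn_prime.dvd_or_dvd ⟨q, hq⟩).resolve_left fun h => ?_
  have h2 := Polynomial.natDegree_le_of_dvd (eqn_prime.dvd_of_dvd_pow h)
    (Polynomial.C_ne_zero.2 tri_ne_zero)
  rw [eqn, Polynomial.natDegree_linear (neg_ne_zero.2 tri_ne_zero), Polynomial.natDegree_C] at h2
  omega

lemma Φ_surjective : Function.Surjective Φ := by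
  classical
  intro r
  change r ∈ Φ.range
  rw [← DirectSum.sum_support_decompose PG r]
  refine sum_mem fun n _ => pencil_induction (P := fun r => r ∈ Φ.range) (zero_mem _)
    (fun a b => add_mem) (fun z a ha => Subalgebra.smul_mem _ ha _) (fun k i j l _ => ?_) _
    (DirectSum.decompose PG r n).2
  refine mul_mem (mul_mem (mul_mem (pow_mem ?_ _) (pow_mem ?_ _)) (pow_mem ?_ _)) (pow_mem ?_ _)
  · exact ⟨_, Φ_X⟩
  · exact ⟨_, (Φ_C _).trans ((Φ0_C _).trans (MvPolynomial.aeval_X _ 0))⟩
  · exact ⟨_, (Φ_C _).trans ((Φ0_C _).trans (MvPolynomial.aeval_X _ 1))⟩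
  · exact ⟨_, (Φ_C _).trans Φ0_X⟩

lemma fibre_prime (c : ℂ) : (Ideal.span {et - algebraMap ℂ PA c}).IsPrime ∧
    eZ ∉ Ideal.span {et - algebraMap ℂ PA c} := by
  let ev : S2 →+* S1 := Polynomial.evalRingHom (algebraMap ℂ S1 c)
  have hp : (Ideal.span {cub c}).IsPrime :=
    (Ideal.span_singleton_prime (cub_irreducible c).ne_zero).2 (cub_irreducible c).prime
  let I := (Ideal.span {cub c}).comap ev
  have he : ev eqn = cub c := by
    rw [cub_eq c]
    simp [ev, eqn]
    ring
  have hk : RingHom.ker Φ ≤ I := fun Q hQ => by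
    obtain ⟨q, rfl⟩ := dvd_of_Φ hQ
    rw [Ideal.mem_comap, map_mul, he]
    exact Ideal.mul_mem_right _ _ (Ideal.mem_span_singleton_self _)
  have hτ : Φ (Polynomial.X - Polynomial.C (algebraMap ℂ S1 c)) = et - algebraMap ℂ PA c := by
    rw [map_sub, Φ_X, Φ_C, AlgHom.commutes]
  have hI : I.map Φ = Ideal.span {et - algebraMap ℂ PA c} := by
    apply le_antisymm
    · rw [Ideal.map_le_iff_le_comap]
      intro Q hQ
      obtain ⟨q, hq⟩ := Ideal.mem_span_singleton.1 (Ideal.mem_comap.1 hQ)
      have : Polynomial.X - Polynomial.C (algebraMap ℂ S1 c) ∣ Q - eqn * Polynomial.C q := by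
        rw [Polynomial.dvd_iff_isRoot]
        change ev _ = 0
        rw [map_sub, map_mul, he, hq]
        simp [ev]
      have := map_dvd Φ this
      rw [hτ, map_sub, map_mul, Φ_eqn, zero_mul, sub_zero] at this
      exact Ideal.mem_span_singleton.2 this
    · rw [Ideal.span_singleton_le_iff_mem, ← hτ]
      exact Ideal.mem_map_of_mem _ (by simp [I, ev])
  refine ⟨hI ▸ Ideal.map_isPrime_of_surjective Φ_surjective hk, fun h => ?_⟩
  rw [← hI, ← Φ0_X, ← Φ_C, ← Ideal.mem_comap, Ideal.comap_map_of_surjective _ Φ_surjective,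
    sup_eq_left.2 (show Ideal.comap Φ ⊥ ≤ I from hk), Ideal.mem_comap,
    Ideal.mem_span_singleton] at h
  have h2 : cub c ∣ Polynomial.X := by simpa [ev] using h
  have h3 := Polynomial.natDegree_le_of_dvd h2 Polynomial.X_ne_zero
  have hd : (cub c).natDegree = 3 := by
    unfold cub
    compute_degree!
  rw [hd, Polynomial.natDegree_X] at h3
  omega

end Pool.Agent.Lib.MP_02acd8_h53
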