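import Pool.Agent.Lib.MP_02acd8_h53.StForm

open Filter Topology Polynomial

noncomputable section

namespace Pool.Agent.Lib.MP_02acd8_h53

theorem generic {k m : ℕ} (hm : m < k) {J T : Type} [Fintype J] [Finite T]
    (P : T → (Fin m → ℂ) → Fin k → ℂ) (Q : T → (Fin m → ℂ) → J → ℂ)
    (hP : ∀ τ i, ContDiff ℂ 1 fun t => P τ t i) (hQ : ∀ τ l, ContDiff ℂ 1 fun t => Q τ t l) :
    ∃ g : J → Fin k → ℂ, (∀ l i, g l i ≠ 0) ∧
      ∀ τ t, (∀ i, P τ t i = ∑ l, g l i * Q τ t l) → ∀ l, Q τ t l = 0 := by
  classical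
  have key : ∀ s : Finset J, ∃ g : J → Fin k → ℂ, (∀ l i, g l i ≠ 0) ∧
      ∀ τ t, (∀ l, l ∉ s → Q τ t l = 0) → (∀ i, P τ t i = ∑ l, g l i * Q τ t l) →
        ∀ l, Q τ t l = 0 := by
    intro s
    induction s using Finset.induction_on with
    | empty => exact ⟨fun _ _ => 1, fun _ _ => one_ne_zero, fun τ t h _ l => h l (by simp)⟩
    | insert l s _ ih =>
      obtain ⟨g, g0, hg⟩ := ih
      let Ψ : T → (Fin m → ℂ) → Fin k → ℂ := fun τ t i =>
        (P τ t i - ∑ l' ∈ Finset.univ.erase l, g l' i * Q τ t l') / Q τ t l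
      have hd : dimH (⋃ τ, Ψ τ '' {t | Q τ t l ≠ 0}) < Module.finrank ℝ (Fin k → ℂ) := by
        refine lt_of_le_of_lt (b := (Module.finrank ℝ (Fin m → ℂ) : ENNReal)) ?_ ?_
        · rw [dimH_iUnion]
          refine iSup_le fun τ => (dimH_image_le_of_locally_lipschitzOn fun t ht => ?_).trans
            ((dimH_mono (Set.subset_univ _)).trans (Real.dimH_univ_eq_finrank _).le)
          have : ContDiffAt ℂ 1 (Ψ τ) t := contDiffAt_pi.2 fun i =>
            ((hP τ i).contDiffAt.sub (ContDiffAt.sum fun l' _ =>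
              contDiffAt_const.mul (hQ τ l').contDiffAt)).div (hQ τ l).contDiffAt ht
          obtain ⟨C, U, hU, h⟩ := this.exists_lipschitzOnWith
          exact ⟨C, U, mem_nhdsWithin_of_mem_nhds hU, h⟩
        · simp only [Module.finrank_pi_fintype, Complex.finrank_real_complex, Finset.sum_const,
            Finset.card_univ, Fintype.card_fin, smul_eq_mul]
          exact_mod_cast (by omega : m * 2 < k * 2)
      have ho : IsOpen {v : Fin k → ℂ | ∀ i, v i ≠ 0} := by
        rw [Set.ofPred_forall]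
        exact isOpen_iInter_of_finite fun i => isOpen_ne_fun (continuous_apply i) continuous_const
      obtain ⟨v, hv, hv'⟩ := (dense_compl_of_dimH_lt_finrank hd).inter_open_nonempty _ ho
        ⟨fun _ => 1, fun _ => one_ne_zero⟩
      refine ⟨Function.update g l v, fun l' i => ?_, fun τ t h1 h2 => ?_⟩
      · rw [Function.update_apply]
        split_ifs
        exacts [hv i, g0 l' i]
      have h3 : ∀ i, P τ t i = v i * Q τ t l + ∑ l' ∈ Finset.univ.erase l, g l' i * Q τ t l' := by
        intro i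
        rw [h2, ← Finset.add_sum_erase _ _ (Finset.mem_univ l), Function.update_self]
        congr 1
        exact Finset.sum_congr rfl fun l' hl' => by
          rw [Function.update_of_ne (Finset.ne_of_mem_erase hl')]
      by_cases h4 : Q τ t l = 0
      · refine hg τ t (fun l' hl' => ?_) fun i => ?_
        · by_cases e : l' = l
          · rw [e, h4]
          · exact h1 l' (by simp [e, hl'])
        · rw [h3, ← Finset.add_sum_erase _ _ (Finset.mem_univ l), h4, mul_zero, mul_zero]
      · refine (hv' (Set.mem_iUnion.2 ⟨τ, ⟨t, h4, funext fun i => ?_⟩⟩)).elim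
        simp only [Ψ, h3, add_sub_cancel_right, mul_div_cancel_right₀ _ h4]
  obtain ⟨g, g0, hg⟩ := key Finset.univ
  exact ⟨g, g0, fun τ t => hg τ t (by simp)⟩

/-- A product of rescaled series. -/
def rs (F : PowerSeries ℂ) (W : Multiset ℂ) (m : ℂ) : PowerSeries ℂ :=
  (W.map fun w => PowerSeries.rescale (w - m) F).prod

lemma rs_add (F W W' m) : rs F (W + W') m = rs F W m * rs F W' m := by simp [rs]

lemma rs_inv (W m) : rs (1 - PowerSeries.X) W m * rs (PowerSeries.mk 1) W m = 1 := by
  simp only [rs, ← Multiset.prod_map_mul, ← map_mul]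
  rw [mul_comm, PowerSeries.mk_one_mul_one_sub_eq_one]
  simp

lemma rs_affine (F W m) (a b : ℂ) :
    rs F (W.map fun w => a * w + b) (a * m + b) = PowerSeries.rescale a (rs F W m) := by
  simp only [rs, Multiset.map_map, map_multiset_prod, Function.comp_def,
    PowerSeries.rescale_rescale]
  congr 2
  ext1 w
  congr 2
  ring

/-- The centre of a configuration. -/
def ctr (W : Fin 4 → Multiset ℂ) : ℂ := (W 0).sum / (W 0).card

/-- The generating series of a configuration. -/
def gs (W : Fin 4 → Multiset ℂ) (j : Fin 4) : PowerSeries ℂ :=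
  rs (1 - PowerSeries.X) (W j) (ctr W) * if j = 2 then rs (PowerSeries.mk 1) (W 1) (ctr W) else 1

/-- The weighted homogeneous coordinates of a configuration. -/
def tc (W : Fin 4 → Multiset ℂ) (j : Fin 4) (k : ℕ) : ℂ := PowerSeries.coeff k (gs W j)

lemma ctr_affine {W : Fin 4 → Multiset ℂ} (h : (W 0).card ≠ 0) (a b : ℂ) :
    ctr (fun j => (W j).map fun w => a * w + b) = a * ctr W + b := by
  have : ((W 0).card : ℂ) ≠ 0 := Nat.cast_ne_zero.2 h
  simp only [ctr, Multiset.sum_map_add, Multiset.card_map,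
    Multiset.map_const', Multiset.sum_replicate, nsmul_eq_mul]
  rw [Multiset.sum_map_mul_left, Multiset.map_id']
  field_simp

lemma tc_affine {W : Fin 4 → Multiset ℂ} (h : (W 0).card ≠ 0) (a b : ℂ) (j k) :
    tc (fun j => (W j).map fun w => a * w + b) j k = a ^ k * tc W j k := by
  rw [tc, tc, ← PowerSeries.coeff_rescale, gs, gs, ctr_affine h, rs_affine, rs_affine,
    map_mul (PowerSeries.rescale a)]
  split_ifs
  · rfl
  · rw [map_one]

lemma coeff_mul_mem {E : Type} (A : Subalgebra ℂ (E → ℂ)) {F G : E → PowerSeries ℂ}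
    (hF : ∀ k, (fun e => PowerSeries.coeff k (F e)) ∈ A)
    (hG : ∀ k, (fun e => PowerSeries.coeff k (G e)) ∈ A) (k) :
    (fun e => PowerSeries.coeff k (F e * G e)) ∈ A := by
  convert A.sum_mem (t := Finset.HasAntidiagonal.antidiagonal k)
    fun p _ => A.mul_mem (hF p.1) (hG p.2) using 1
  ext e
  simp [PowerSeries.coeff_mul]

lemma rs_mem {E : Type} (A : Subalgebra ℂ (E → ℂ)) (F) (n : ℕ) {w : E → ℕ → ℂ} {m : E → ℂ}
    (hw : ∀ i, (fun e => w e i) ∈ A) (hm : m ∈ A) (k) :
    (fun e => PowerSeries.coeff k (rs F ((Multiset.range n).map (w e)) (m e))) ∈ A := by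
  induction n generalizing k with
  | zero => exact A.algebraMap_mem (PowerSeries.coeff k 1)
  | succ n ih =>
    simp only [rs, Multiset.range_succ, Multiset.map_cons, Multiset.prod_cons]
    refine coeff_mul_mem A (fun k => ?_) ih k
    simp only [PowerSeries.coeff_rescale]
    exact A.mul_mem (A.pow_mem (A.sub_mem (hw n) hm) k) (A.algebraMap_mem _)

lemma tc_mem {E : Type} (A : Subalgebra ℂ (E → ℂ)) (n : Fin 4 → ℕ) {w : E → Fin 4 → ℕ → ℂ}
    (hw : ∀ j i, (fun e => w e j i) ∈ A) (j k) :
    (fun e => tc (fun j => (Multiset.range (n j)).map (w e j)) j k) ∈ A := by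
  have hm : (fun e => ctr fun j => (Multiset.range (n j)).map (w e j)) ∈ A := by
    convert A.mul_mem (A.sum_mem (t := Finset.range (n 0)) fun i _ => hw 0 i)
      (A.algebraMap_mem (n 0 : ℂ)⁻¹) using 1
    ext e
    rw [Pi.mul_apply, Finset.sum_apply]
    simp [ctr, div_eq_mul_inv, Finset.sum]
  refine coeff_mul_mem A (rs_mem A _ _ (hw j) hm) (fun k => ?_) k
  split_ifs
  · exact rs_mem A _ _ (hw 1) hm k
  · exact A.algebraMap_mem (PowerSeries.coeff k 1)

/-- Smooth functions. -/
def smoothAlg (E : Type) [NormedAddCommGroup E] [NormedSpace ℂ E] : Subalgebra ℂ (E → ℂ) where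
  carrier := {f | ContDiff ℂ 1 f}
  mul_mem' := fun {f g} (h : ContDiff ℂ 1 f) (h' : ContDiff ℂ 1 g) => h.mul h'
  add_mem' := fun {f g} (h : ContDiff ℂ 1 f) (h' : ContDiff ℂ 1 g) => h.add h'
  algebraMap_mem' := fun c => contDiff_const (𝕜 := ℂ) (n := 1) (c := c)

/-- Convergent families with their limits. -/
def limAlg {ι : Type} (l : Filter ι) : Subalgebra ℂ (Option ι → ℂ) where
  carrier := {f | Tendsto (fun i => f (some i)) l (𝓝 (f none))}
  mul_mem' := Tendsto.mul
  add_mem' := Tendsto.add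
  algebraMap_mem' := fun _ => tendsto_const_nhds

lemma tc_tendsto {ι : Type} {l : Filter ι} (n : Fin 4 → ℕ) {w : ι → Fin 4 → ℕ → ℂ}
    {L : Fin 4 → ℕ → ℂ} (h : ∀ j i, Tendsto (fun e => w e j i) l (𝓝 (L j i))) (j k) :
    Tendsto (fun e => tc (fun j => (Multiset.range (n j)).map (w e j)) j k) l
      (𝓝 (tc (fun j => (Multiset.range (n j)).map (L j)) j k)) :=
  tc_mem (limAlg l) n (w := fun e => e.elim L w) h j k

lemma reflect_prod (W : Multiset ℂ) : ((reflect W.card (W.map fun w => X - C w).prod : ℂ[X]) :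
    PowerSeries ℂ) = rs (1 - PowerSeries.X) W 0 := by
  induction W using Multiset.induction_on with
  | empty => simp [rs]
  | cons w W ih =>
    rw [Multiset.map_cons, Multiset.prod_cons, Multiset.card_cons, add_comm, reflect_mul _ _
      (natDegree_X_sub_C w).le (natDegree_multiset_prod_X_sub_C_eq_card W).le, coe_mul, ih]
    simp [rs, reflect_sub, PowerSeries.rescale_X]

lemma coeff_rs (W : Multiset ℂ) (m : ℂ) (k : ℕ) :
    PowerSeries.coeff k (rs (1 - PowerSeries.X) W m) =
      if k ≤ W.card then (W.map fun w => X - C (w - m)).prod.coeff (W.card - k) else 0 := by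
  have h := reflect_prod (W.map fun w => 1 * w + -m)
  have h1 := rs_affine (1 - PowerSeries.X) W m 1 (-m)
  rw [one_mul, add_neg_cancel, PowerSeries.rescale_one, RingHom.id_apply] at h1
  rw [h1] at h
  rw [← h, coeff_coe, coeff_reflect, Multiset.card_map, Multiset.map_map]
  simp only [Function.comp_def, one_mul, ← sub_eq_add_neg]
  split_ifs with hk
  · rw [revAt_le hk]
  · rw [revAt_eq_self_of_lt (not_le.1 hk), coeff_eq_zero_of_natDegree_lt]
    have := natDegree_multiset_prod_X_sub_C_eq_card (W.map fun w => w - m)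
    rw [Multiset.map_map, Multiset.card_map] at this
    exact this.le.trans_lt (not_le.1 hk)

lemma eq_of_coeff_rs {W : Multiset ℂ} {m : ℂ}
    (h : ∀ k, k < W.card → PowerSeries.coeff (k + 1) (rs (1 - PowerSeries.X) W m) = 0) :
    ∀ w ∈ W, w = m := by
  have hm : (W.map fun w => X - C (w - m)).prod.Monic :=
    monic_multiset_prod_of_monic _ _ fun _ _ => monic_X_sub_C _
  have hd := natDegree_multiset_prod_X_sub_C_eq_card (W.map fun w => w - m)
  rw [Multiset.map_map, Multiset.card_map] at hd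
  have e : (W.map fun w => X - C (w - m)).prod = X ^ W.card := by
    refine (Polynomial.ext_iff_natDegree_le hd.le (natDegree_X_pow _).le).2 fun i hi => ?_
    rw [coeff_X_pow]
    split_ifs with h1
    · exact h1 ▸ hd ▸ hm
    · have := h (W.card - i - 1) (by omega)
      rwa [coeff_rs, if_pos (by omega), show W.card - (W.card - i - 1 + 1) = i by omega] at this
  intro w hw
  have := congrArg (eval (w - m)) e
  rw [eval_multiset_prod, Multiset.prod_eq_zero (by
    simp only [Multiset.map_map, Multiset.mem_map]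
    exact ⟨w, hw, by simp⟩), eval_pow, eval_X] at this
  exact sub_eq_zero.1 (eq_zero_of_pow_eq_zero this.symm)

lemma eq_of_tc {W : Fin 4 → Multiset ℂ} (h : ∀ j k, k < (W j).card → tc W j (k + 1) = 0) :
    ∀ j, ∀ w ∈ W j, w = ctr W := by
  have h1 : ∀ j, j ≠ 2 → ∀ w ∈ W j, w = ctr W := fun j hj =>
    eq_of_coeff_rs fun k hk => by simpa [tc, gs, hj] using h j k hk
  intro j
  by_cases hj : j = 2
  · subst hj
    have : rs (PowerSeries.mk 1) (W 1) (ctr W) = 1 :=
      Multiset.prod_eq_one fun F hF => by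
        obtain ⟨w, hw, rfl⟩ := Multiset.mem_map.1 hF
        rw [h1 1 (by decide) w hw, sub_self]
        simp
    exact eq_of_coeff_rs fun k hk => by simpa [tc, gs, this] using h 2 k hk
  · exact h1 j hj

end Pool.Agent.Lib.MP_02acd8_h53
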