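import Pool.Agent.Lib.MP_02acd8_h53.StDeg
import Pool.Agent.Lib.MP_02acd8_h53.StGen

open Filter Topology OnePoint Polynomial

set_option linter.unusedSectionVars false

noncomputable section

namespace Pool.Agent.Lib.MP_02acd8_h53

variable {K : Type} [Field K] [Algebra ℂ K] {Y : Type} {O : Y → Subring K}

lemma hv_const {P : ℂ[X]} (h : P.natDegree ≤ 0) (q) : hv 0 P q = hv 0 P ∞ := by
  rw [eq_C_of_natDegree_le_zero h]
  induction q using OnePoint.rec <;> simp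

lemma exists_zero {n : ℕ} {P : ℂ[X]} (h : P.natDegree ≤ n) (hn : n ≠ 0) : ∃ q, hv n P q = 0 := by
  by_cases h0 : P = 0
  · exact ⟨∞, by simp [h0]⟩
  obtain ⟨q, hq⟩ := Multiset.card_pos_iff_exists_mem.1 ((card_zr h).symm ▸ Nat.pos_of_ne_zero hn)
  exact ⟨q, not_not.1 fun H => (isForm_hv h h0).ne_zero.1 H hq⟩

/-- The zeros of a coordinate, seen from the root. -/
def rt {ι : Type} (A : PreMap Y) (dg : Fin (A.len + 1) → ℕ) (P : Fin (A.len + 1) → ι → ℂ[X]) (j : ι) :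
    Multiset ℂ :=
  (P 0 j).roots + ∑ w ∈ kids A 0, Multiset.replicate (sub A dg w) (A.node w)

lemma mem_rt {ι : Type} {A : PreMap Y} {dg} {P : Fin (A.len + 1) → ι → ℂ[X]} {j z} :
    z ∈ rt A dg P j ↔ z ∈ (P 0 j).roots ∨ ∃ w ∈ kids A 0, sub A dg w ≠ 0 ∧ z = A.node w := by
  simp [rt, Multiset.mem_sum, Multiset.mem_replicate]

lemma tw_eq_rt {ι : Type} [Fintype ι] [DecidableEq ι] {A : PreMap Y} {dg}
    {P : Fin (A.len + 1) → ι → ℂ[X]} {j} (h : (P 0 j).natDegree = dg 0) :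
    tw A dg P (LinearMap.proj j) 0 = (rt A dg P j).map (↑) := by
  have := map_sum (Multiset.mapAddMonoidHom ((↑) : ℂ → Sphere))
    (fun w => Multiset.replicate (sub A dg w) (A.node w)) (kids A 0)
  simp only [Multiset.coe_mapAddMonoidHom, Multiset.map_replicate] at this
  simp [tw, extra, zr, rt, lp_proj, h, this]

lemma inv_smul_coe {φ : Mob} (h : φ • (∞ : Sphere) = ∞) (w : ℂ) :
    φ 0 0 ≠ 0 ∧ φ 1 1 ≠ 0 ∧
      φ⁻¹ • (w : Sphere) = ((φ 1 1 / φ 0 0 * w + -(φ 0 1 / φ 0 0) : ℂ) : Sphere) := by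
  rw [smul_infty_eq_self_iff] at h
  have hd := φ.det_ne_zero
  rw [Matrix.det_fin_two, h, mul_zero, sub_zero, mul_ne_zero_iff] at hd
  refine ⟨hd.1, hd.2, ?_⟩
  rw [inv_smul_eq_iff, smul_some_eq_ite, h, zero_mul, zero_add, if_neg hd.2]
  have := hd.1
  have := hd.2
  congr 1
  field_simp
  ring

/-- Polynomials describing the components. -/
structure Data (A : PreMap Y) where
  /-- degrees over the line -/
  na : Fin (A.len + 1) → ℕ
  /-- degrees over the plane -/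
  nb : Fin (A.len + 1) → ℕ
  /-- maps to the line -/
  Pa : Fin (A.len + 1) → Fin 2 → ℂ[X]
  /-- maps to the plane -/
  Pb : Fin (A.len + 1) → Fin 3 → ℂ[X]

/-- The configuration of roots. -/
def Data.cfg {A : PreMap Y} (D : Data A) : Fin 4 → Multiset ℂ :=
  ![rt A D.nb D.Pb 2, rt A D.na D.Pa 0, rt A D.nb D.Pb 0, rt A D.na D.Pa 1]

/-- The sizes of the parts of a configuration. -/
def sz (a b : ℕ) : Fin 4 → ℕ := ![b, a, b, a]

namespace Model

variable (M : Model O)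

/-- The base point. -/
def base : Y := M.mkp ![1, 1] ![1, 1, 1]

lemma base_spec : Hom (O M.base) M.α ![1, 1] ∧ Hom (O M.base) M.β ![1, 1, 1] :=
  M.mkp_spec (by simp) (by simp) (by simp)

/-- The polynomials describe the map. -/
structure Valid {A : PreMap Y} (D : Data A) : Prop where
  la : ∀ v j, (D.Pa v j).natDegree ≤ D.na v
  lb : ∀ v j, (D.Pb v j).natDegree ≤ D.nb v
  ha : ∀ v q, Hom (O (A.maps v q)) M.α (hvv (D.na v) (D.Pa v) q)
  hb : ∀ v q, Hom (O (A.maps v q)) M.β (hvv (D.nb v) (D.Pb v) q)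

lemma exists_data {A : PreMap Y} (h : ∀ v q, HoloAt O (fun w => A.maps v (param q w)) 0) :
    ∃ D : Data A, M.Valid D := by
  choose na Pa la ha using fun v => gaga M.isPt M.hα (h v) M.exists_a
  choose nb Pb lb hb using fun v => gaga M.isPt M.hβ (h v) M.exists_b
  exact ⟨⟨na, nb, Pa, Pb⟩, la, lb, ha, hb⟩

variable {M} {d : ℕ} {A : PreMap Y} {D : Data A}

namespace Valid

variable (V : M.Valid D) (S : IsStable 2 O M.base d A)
include V S

lemma ord : Ordered A := fun v hv => (S.1 v hv).1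

lemma goodA : Good A D.na D.Pa := ⟨V.ord S, V.la, fun v q => (V.ha v q).1⟩

lemma goodB : Good A D.nb D.Pb := ⟨V.ord S, V.lb, fun v q => (V.hb v q).1⟩

lemma total : sub A D.na 0 + 2 * sub A D.nb 0 = d := by
  obtain ⟨e, he, h⟩ := S.2.2.2.2
  rw [Finset.sum_congr rfl fun v _ =>
    M.deg_eq (V.la v) (V.lb v) (V.ha v) (V.hb v) (S.2.1 v) (he v)] at h
  rw [(V.ord S).sub_zero, (V.ord S).sub_zero, Finset.mul_sum, ← Finset.sum_add_distrib]
  exact_mod_cast h

lemma lead : ∃ c c' : ℂ, c ≠ 0 ∧ c' ≠ 0 ∧ (∀ j, (D.Pa 0 j).coeff (D.na 0) = c) ∧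
    ∀ j, (D.Pb 0 j).coeff (D.nb 0) = c' := by
  obtain ⟨c, hc, e⟩ := M.base_spec.1.unique (M.isPt _) M.hα (S.2.2.1 ▸ V.ha 0 ∞)
  obtain ⟨c', hc', e'⟩ := M.base_spec.2.unique (M.isPt _) M.hβ (S.2.2.1 ▸ V.hb 0 ∞)
  refine ⟨c, c', hc, hc', fun j => (congrFun e j).trans ?_, fun j => (congrFun e' j).trans ?_⟩ <;>
    fin_cases j <;> simp

lemma degA (j) : D.Pa 0 j ≠ 0 ∧ (D.Pa 0 j).natDegree = D.na 0 := by
  obtain ⟨c, -, hc, -, h, -⟩ := V.lead S
  exact ⟨fun e => hc (by rw [← h j, e, coeff_zero]),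
    natDegree_eq_of_le_of_coeff_ne_zero (V.la 0 j) (h j ▸ hc)⟩

lemma degB (j) : D.Pb 0 j ≠ 0 ∧ (D.Pb 0 j).natDegree = D.nb 0 := by
  obtain ⟨-, c, -, hc, -, h⟩ := V.lead S
  exact ⟨fun e => hc (by rw [← h j, e, coeff_zero]),
    natDegree_eq_of_le_of_coeff_ne_zero (V.lb 0 j) (h j ▸ hc)⟩

lemma card_cfg (j) : (D.cfg j).card = sz (sub A D.na 0) (sub A D.nb 0) j := by
  have h1 := fun j => (V.goodA S).card_tw (LinearMap.proj j) 0
  have h2 := fun j => (V.goodB S).card_tw (LinearMap.proj j) 0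
  simp only [tw_eq_rt (V.degA S _).2, tw_eq_rt (V.degB S _).2, Multiset.card_map] at h1 h2
  fin_cases j <;> simp [Data.cfg, sz, h1, h2]

lemma rel : D.Pa 0 0 * D.Pb 0 1 = D.Pa 0 1 * D.Pb 0 0 :=
  Polynomial.funext fun z => by simpa [hvv] using M.hom_rel (V.ha 0 z) (V.hb 0 z)

lemma no_common (z : ℂ) : ¬ (z ∈ (D.Pa 0 0).roots ∧ z ∈ (D.Pa 0 1).roots) := fun h =>
  (V.ha 0 z).1 (funext fun j => by
    fin_cases j
    exacts [isRoot_of_mem_roots h.1, isRoot_of_mem_roots h.2])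

lemma roots_le : (D.Pa 0 0).roots ≤ (D.Pb 0 0).roots := by
  refine roots.le_of_dvd (V.degB S 0).1 (IsCoprime.dvd_of_dvd_mul_left (y := D.Pa 0 1) ?_
    ⟨_, (V.rel S).symm⟩)
  refine (Polynomial.isCoprime_iff_aeval_ne_zero_of_isAlgClosed ℂ ℂ _ _).2 fun z => ?_
  have := V.no_common S z
  rw [mem_roots (V.degA S 0).1, mem_roots (V.degA S 1).1, not_and_or] at this
  simpa using this

lemma na_le : D.na 0 ≤ D.nb 0 := by
  have := Multiset.card_le_card (V.roots_le S)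
  rwa [IsAlgClosed.card_roots_eq_natDegree, IsAlgClosed.card_roots_eq_natDegree, (V.degA S 0).2,
    (V.degB S 0).2] at this

lemma const {v} (h : D.na v = 0) (h' : D.nb v = 0) :
    ∃ w w', w ∈ kids A v ∧ w' ∈ kids A v ∧ w ≠ w' := by
  obtain ⟨w, w', h1, h2, h3, h4, h5⟩ := S.2.2.2.1 v fun q => by
    refine M.ext (V.ha v q) (V.hb v q) ?_ ?_
    · convert V.ha v ∞ using 1
      exact funext fun j => by rw [hvv, hvv, h, hv_const (h ▸ V.la v j)]
    · convert V.hb v ∞ using 1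
      exact funext fun j => by rw [hvv, hvv, h', hv_const (h' ▸ V.lb v j)]
  exact ⟨w, w', mem_kids.2 ⟨h1, h4⟩, mem_kids.2 ⟨h2, h5⟩, h3⟩

lemma le_sub (dg) {v w} (h : w ∈ kids A v) : dg v + sub A dg w ≤ sub A dg v := by
  rw [(V.ord S).sub_eq dg v]
  exact Nat.add_le_add_left (Finset.single_le_sum (f := sub A dg) (fun _ _ => Nat.zero_le _) h) _

lemma sub_pos (v) : sub A D.na v ≠ 0 ∨ sub A D.nb v ≠ 0 := by
  refine (V.ord S).down (P := fun v => sub A D.na v ≠ 0 ∨ sub A D.nb v ≠ 0) (fun v ih => ?_) v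
  by_contra H
  have h1 := (V.ord S).sub_eq D.na v
  have h2 := (V.ord S).sub_eq D.nb v
  obtain ⟨w, -, hw, -⟩ := V.const S (v := v) (by omega) (by omega)
  have := ih w hw
  have := V.le_sub S D.na hw
  have := V.le_sub S D.nb hw
  omega

lemma onE (v) : sub A D.nb v = 0 → ∀ b, Hom (O (A.maps v ∞)) M.β b → b 0 = 0 ∧ b 1 = 0 := by
  refine (V.ord S).down (P := fun v => sub A D.nb v = 0 →
    ∀ b, Hom (O (A.maps v ∞)) M.β b → b 0 = 0 ∧ b 1 = 0) (fun v ih h b hb => ?_) v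
  have h2 := (V.ord S).sub_eq D.nb v
  have h3 : D.nb v = 0 := by omega
  obtain ⟨c, hc, e⟩ := hb.unique (M.isPt _) M.hβ (V.hb v ∞)
  have h4 : ∀ q, hvv (D.nb v) (D.Pb v) q = c • b := fun q => by
    rw [← e]
    exact funext fun j => by rw [hvv, hvv, h3, hv_const (h3 ▸ V.lb v j)]
  by_cases h5 : D.na v = 0
  · obtain ⟨w, -, hw, -⟩ := V.const S h5 h3
    have := V.le_sub S D.nb hw
    rw [mem_kids] at hw
    have := ih w (mem_kids.2 hw) (by omega) _ (by
      rw [(S.1 w hw.1).2.1, hw.2]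
      exact V.hb v _)
    simpa [h4, hc] using this
  have h6 : ∀ q, hvv (D.na v) (D.Pa v) q 0 * b 1 = hvv (D.na v) (D.Pa v) q 1 * b 0 := fun q => by
    have := M.hom_rel (V.ha v q) (V.hb v q)
    rw [h4] at this
    apply mul_left_cancel₀ hc
    simp only [Pi.smul_apply, smul_eq_mul] at this
    linear_combination this
  have h7 : ∀ q, hvv (D.na v) (D.Pa v) q 0 ≠ 0 ∨ hvv (D.na v) (D.Pa v) q 1 ≠ 0 := fun q =>
    Fin.exists_fin_two.1 (Function.ne_iff.1 (V.ha v q).1)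
  obtain ⟨q, hq : hvv _ _ q 0 = 0⟩ := exists_zero (V.la v 0) h5
  obtain ⟨q', hq' : hvv _ _ q' 1 = 0⟩ := exists_zero (V.la v 1) h5
  have a := h6 q
  have a' := h6 q'
  rw [hq, zero_mul] at a
  rw [hq', zero_mul] at a'
  exact ⟨(mul_eq_zero.1 a.symm).resolve_left ((h7 q).resolve_left (not_not.2 hq)),
    (mul_eq_zero.1 a').resolve_left ((h7 q').resolve_right (not_not.2 hq'))⟩

lemma node_root {w} (hw : w ∈ kids A 0) (h : sub A D.nb w = 0) : A.node w ∈ (D.Pb 0 0).roots := by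
  rw [mem_kids] at hw
  exact (mem_roots (V.degB S 0).1).2 (V.onE S w h (hvv (D.nb 0) (D.Pb 0) (A.node w)) (by
    rw [(S.1 w hw.1).2.1, hw.2]
    exact V.hb 0 _)).1

lemma b_pos : sub A D.nb 0 ≠ 0 := by
  intro h
  have h2 := (V.ord S).sub_eq D.nb 0
  have := V.na_le S
  obtain ⟨w, -, hw, -⟩ := V.const S (v := 0) (by omega) (by omega)
  have := V.le_sub S D.nb hw
  have h3 := Multiset.card_pos_iff_exists_mem.2 ⟨_, V.node_root S hw (by omega)⟩
  rw [IsAlgClosed.card_roots_eq_natDegree, (V.degB S 0).2] at h3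
  omega

lemma two (m : ℂ) : ¬ ∀ j, ∀ w ∈ D.cfg j, w = m := by
  intro H
  have ex : ∀ P : ℂ[X], P.natDegree ≠ 0 → ∃ z, z ∈ P.roots := fun P h =>
    Multiset.card_pos_iff_exists_mem.1 (by rw [IsAlgClosed.card_roots_eq_natDegree]; omega)
  have h1 : D.na 0 = 0 := by
    by_contra h
    obtain ⟨z, hz⟩ := ex _ ((V.degA S 0).2 ▸ h)
    obtain ⟨z', hz'⟩ := ex _ ((V.degA S 1).2 ▸ h)
    obtain rfl := H 1 z (mem_rt.2 (Or.inl hz))
    obtain rfl := H 3 z' (mem_rt.2 (Or.inl hz'))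
    exact V.no_common S _ ⟨hz, hz'⟩
  have h2 : D.nb 0 = 0 := by
    by_contra h
    obtain ⟨z, hz⟩ := ex _ ((V.degB S 0).2 ▸ h)
    obtain ⟨z', hz'⟩ := ex _ ((V.degB S 2).2 ▸ h)
    obtain rfl := H 2 z (mem_rt.2 (Or.inl hz))
    obtain rfl := H 0 z' (mem_rt.2 (Or.inl hz'))
    have a := isRoot_of_mem_roots hz
    have b := congrArg (eval z') (V.rel S)
    rw [eval_mul, eval_mul, a, mul_zero, mul_eq_zero] at b
    refine (V.hb 0 z').1 (funext fun j => ?_)
    fin_cases j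
    · exact a
    · refine b.resolve_left fun e => ?_
      have := Multiset.card_pos_iff_exists_mem.2 ⟨_, (mem_roots (V.degA S 0).1).2 e⟩
      rw [IsAlgClosed.card_roots_eq_natDegree, (V.degA S 0).2] at this
      omega
    · exact isRoot_of_mem_roots hz'
  obtain ⟨w, w', hw, hw', hne⟩ := V.const S h1 h2
  have key : ∀ w ∈ kids A 0, A.node w = m := fun w hw => (V.sub_pos S w).elim
    (fun h => H 1 _ (mem_rt.2 (Or.inr ⟨w, hw, h, rfl⟩)))
    fun h => H 0 _ (mem_rt.2 (Or.inr ⟨w, hw, h, rfl⟩))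
  exact hne ((S.1 w (mem_kids.1 hw).1).2.2 w' (mem_kids.1 hw').1
    ((mem_kids.1 hw).2.trans (mem_kids.1 hw').2.symm) ((key w hw).trans (key w' hw').symm))

lemma few (hn : A.len ≠ 0) : ∃ s : Finset ℂ, s.card < d ∧ ∀ j, ∀ w ∈ D.cfg j, w ∈ s := by
  classical
  let T := (kids A 0).filter fun w => sub A D.nb w ≠ 0
  refine ⟨((D.Pa 0 1).roots + (D.Pb 0 0).roots + (D.Pb 0 2).roots).toFinset ∪ T.image A.node,
    ?_, ?_⟩
  · have h1 := Multiset.toFinset_card_le ((D.Pa 0 1).roots + (D.Pb 0 0).roots + (D.Pb 0 2).roots)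
    simp only [Multiset.card_add, IsAlgClosed.card_roots_eq_natDegree, (V.degA S _).2,
      (V.degB S _).2] at h1
    have h2 : T.card ≤ ∑ w ∈ kids A 0, sub A D.nb w := by
      rw [Finset.card_eq_sum_ones]
      exact (Finset.sum_le_sum fun w hw => Nat.pos_of_ne_zero (Finset.mem_filter.1 hw).2).trans
        (Finset.sum_le_sum_of_subset (Finset.filter_subset _ _))
    have h3 := (V.ord S).sub_eq D.nb 0
    have h4 := V.total S
    have hw : (⟨1, by omega⟩ : Fin (A.len + 1)) ∈ kids A 0 := by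
      have : (⟨1, by omega⟩ : Fin (A.len + 1)) ≠ 0 := fun e => by simp at e
      exact mem_kids.2 ⟨this, Fin.ext (Nat.lt_one_iff.1 (V.ord S _ this))⟩
    have h5 := V.sub_pos S ⟨1, by omega⟩
    have h6 := V.le_sub S D.na hw
    have h7 := V.le_sub S D.nb hw
    refine ((Finset.card_union_le _ _).trans (Nat.add_le_add h1 Finset.card_image_le)).trans_lt ?_
    omega
  · have key : ∀ w ∈ kids A 0, A.node w ∈ ((D.Pa 0 1).roots + (D.Pb 0 0).roots +
        (D.Pb 0 2).roots).toFinset ∪ T.image A.node := fun w hw => by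
      by_cases h : sub A D.nb w = 0
      · simp [V.node_root S hw h]
      · exact Finset.mem_union_right _ (Finset.mem_image_of_mem _ (Finset.mem_filter.2 ⟨hw, h⟩))
    intro j z hz
    fin_cases j <;> rcases mem_rt.1 hz with h | ⟨w, hw, -, rfl⟩ <;>
      first | exact key w hw | (simp [h]; done) | simp [Multiset.mem_of_le (V.roots_le S) h]

end Valid

end Model

end Pool.Agent.Lib.MP_02acd8_h53
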