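import Pool.Agent.Lib.MP_02acd8_h53.StGaga

open Filter Topology OnePoint

set_option linter.unusedSectionVars false

noncomputable section

namespace Pool.Agent.Lib.MP_02acd8_h53

/-- The nonzero coordinate of the line on a chart. -/
def ia : Fin 4 → Fin 2 := ![1, 1, 0, 0]

/-- The nonzero coordinate of the plane on a chart. -/
def ib : Fin 4 → Fin 3 := ![1, 2, 2, 0]

/-- The affine coordinates on a chart. -/
def cv {F : Type} [Field F] (s : Fin 4) (a : Fin 2 → F) (b : Fin 3 → F) : Fin 2 → F :=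
  ![![b 2 / b 1, a 0 / a 1], ![a 0 / a 1, b 1 / b 2], ![b 0 / b 2, a 1 / a 0],
    ![a 1 / a 0, b 2 / b 0]] s

/-- The point of the line. -/
def av {F : Type} [Field F] (s : Fin 4) (c : Fin 2 → F) : Fin 2 → F :=
  ![![c 1, 1], ![c 0, 1], ![1, c 1], ![1, c 0]] s

/-- The point of the plane. -/
def bv {F : Type} [Field F] (s : Fin 4) (c : Fin 2 → F) : Fin 3 → F :=
  ![![c 1, 1, c 0], ![c 0 * c 1, c 1, 1], ![c 0, c 0 * c 1, 1], ![1, c 0, c 1]] s

lemma av_cv {F : Type} [Field F] (s : Fin 4) {a : Fin 2 → F} (b : Fin 3 → F) (h : a (ia s) ≠ 0)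
    (j) : av s (cv s a b) j = a j / a (ia s) := by
  fin_cases s <;> fin_cases j <;> simp_all [av, cv, ia]

lemma bv_cv {F : Type} [Field F] (s : Fin 4) {a : Fin 2 → F} {b : Fin 3 → F} (h : a (ia s) ≠ 0)
    (h' : b (ib s) ≠ 0) (e : a 0 * b 1 = a 1 * b 0) (j) : bv s (cv s a b) j = b j / b (ib s) := by
  fin_cases s <;> fin_cases j <;> simp [bv, cv, ia, ib] at h h' ⊢ <;> field_simp <;>
    first | linear_combination e | linear_combination -e

lemma exists_chart {a : Fin 2 → ℂ} {b : Fin 3 → ℂ} (ha : a ≠ 0) (hb : b ≠ 0)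
    (e : a 0 * b 1 = a 1 * b 0) : ∃ s, a (ia s) ≠ 0 ∧ b (ib s) ≠ 0 := by
  by_contra H
  simp only [not_exists, not_and, not_not, Fin.forall_fin_succ, ia, ib] at H
  simp only [Ne, funext_iff, Fin.forall_fin_succ] at ha hb
  simp at H ha hb
  by_cases h0 : a 0 = 0 <;> by_cases h1 : a 1 = 0 <;> simp_all

variable {K : Type} [Field K] [Algebra ℂ K]

lemma hom_of_base {ι : Type} {O : Subring K} (hO : IsPt O) {γ : ι → K} (hγ : ∀ i, γ i ≠ 0)
    {v : ι → ℂ} {i : ι} (h : ∀ j, γ j / γ i ∈ O ∧ val O (γ j / γ i) = v j) : Hom O γ v := by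
  have h1 : v i = 1 := by rw [← (h i).2, div_self (hγ i), hO.val_one]
  refine ⟨fun e => by simp [e] at h1, fun k hk j => ?_⟩
  have h2 := hO.inv_mem (h k).1 ((h k).2.symm ▸ hk)
  have e : γ j / γ k = γ j / γ i * (γ k / γ i)⁻¹ := by
    have := hγ i
    have := hγ k
    field_simp
  rw [e, hO.val_mul (h j).1 h2.1, h2.2, (h j).2, (h k).2]
  exact ⟨mul_mem (h j).1 h2.1, (div_eq_mul_inv _ _).symm⟩

lemma analyticAt_eval {E : Type} [NormedAddCommGroup E] [NormedSpace ℂ E] {c : E → Fin 2 → ℂ}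
    {e : E} (h : ∀ i, AnalyticAt ℂ (fun x => c x i) e) (P : MvPolynomial (Fin 2) ℂ) :
    AnalyticAt ℂ (fun x => MvPolynomial.eval (c x) P) e := by
  induction P using MvPolynomial.induction_on with
  | C z => simpa using analyticAt_const
  | add p q hp hq => simpa using hp.fun_add hq
  | mul_X p i hp => simpa using hp.fun_mul (h i)

lemma IsTangent.ext {O : Subring K} (hO : IsPt O) {D D' : K → ℂ} (h : IsTangent O D)
    (h' : IsTangent O D') {t : Fin 2 → K} (ht : ∀ i, t i ∈ O) (e : ∀ i, D (t i) = D' (t i))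
    {f : K} (hf : f ∈ O) {P Q : MvPolynomial (Fin 2) ℂ} (hQ : val O (MvPolynomial.aeval t Q) ≠ 0)
    (hP : f * MvPolynomial.aeval t Q = MvPolynomial.aeval t P) : D f = D' f := by
  have key : ∀ P : MvPolynomial (Fin 2) ℂ, D (MvPolynomial.aeval t P) = D' (MvPolynomial.aeval t P) := by
    intro P
    induction P using MvPolynomial.induction_on with
    | C z => rw [MvPolynomial.aeval_C, h.1, h'.1]
    | add p q hp hq =>
      rw [map_add, (h.2 _ (hO.aeval_mem ht p).1 _ (hO.aeval_mem ht q).1).1,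
        (h'.2 _ (hO.aeval_mem ht p).1 _ (hO.aeval_mem ht q).1).1, hp, hq]
    | mul_X p i hp =>
      rw [map_mul, MvPolynomial.aeval_X, (h.2 _ (hO.aeval_mem ht p).1 _ (ht i)).2,
        (h'.2 _ (hO.aeval_mem ht p).1 _ (ht i)).2, hp, e]
  have h1 := (h.2 _ hf _ (hO.aeval_mem ht Q).1).2
  have h2 := (h'.2 _ hf _ (hO.aeval_mem ht Q).1).2
  rw [hP, key, key Q] at h1
  rw [hP] at h2
  exact mul_left_cancel₀ hQ (add_left_cancel (h1.symm.trans h2))

/-- The blown up plane, described by four affine charts inside its function field. -/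
structure Model {Y : Type} (O : Y → Subring K) where
  /-- the map to the line -/
  α : Fin 2 → K
  /-- the map to the plane -/
  β : Fin 3 → K
  /-- a rational 2-form -/
  ω : TopForm 2 K
  /-- the points of the charts -/
  pt : Fin 4 → (Fin 2 → ℂ) → Y
  hα : ∀ i, α i ≠ 0
  hβ : ∀ i, β i ≠ 0
  rel : α 0 * β 1 = α 1 * β 0
  surj : ∀ y, ∃ s c, y = pt s c
  chart : ∀ y s, (∀ i, cv s α β i ∈ O y) → ∃ c, y = pt s c
  inj : ∀ s, Function.Injective (MvPolynomial.aeval (R := ℂ) (cv s α β))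
  mem : ∀ s c k, k ∈ O (pt s c) ↔ ∃ P Q : MvPolynomial (Fin 2) ℂ, MvPolynomial.eval c Q ≠ 0 ∧
    k * MvPolynomial.aeval (cv s α β) Q = MvPolynomial.aeval (cv s α β) P
  gen : ∀ s c, Generates (O (pt s c)) ((α (ia s) * β (ib s) ^ 2)⁻¹ • ω)

namespace Model

variable {Y : Type} {O : Y → Subring K} (M : Model O)
include M

open MvPolynomial in
lemma pt_spec (s c) : IsPt (O (M.pt s c)) ∧ ∀ k P Q, eval c Q ≠ 0 →
    k * aeval (cv s M.α M.β) Q = aeval (cv s M.α M.β) P → val (O (M.pt s c)) k = eval c P / eval c Q := by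
  classical
  let ev : K → ℂ := fun k => if h : k ∈ O (M.pt s c) then
    eval c ((M.mem s c k).1 h).choose / eval c ((M.mem s c k).1 h).choose_spec.choose else 0
  have hev : ∀ k P Q, eval c Q ≠ 0 → k * aeval (cv s M.α M.β) Q = aeval (cv s M.α M.β) P →
      ev k = eval c P / eval c Q := by
    intro k P Q hQ e
    have hk := (M.mem s c k).2 ⟨P, Q, hQ, e⟩
    obtain ⟨h1, h2⟩ := ((M.mem s c k).1 hk).choose_spec.choose_spec
    simp only [ev, dif_pos hk]
    rw [div_eq_div_iff h1 hQ, ← map_mul, ← map_mul]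
    congr 1
    apply M.inj s
    rw [map_mul, map_mul]
    linear_combination aeval (cv s M.α M.β) ((M.mem s c k).1 hk).choose_spec.choose * e -
      aeval (cv s M.α M.β) Q * h2
  have := isPt_of_ev (O := O (M.pt s c)) ev
    (fun z => (M.mem s c _).2 ⟨C z, 1, by simp, by simp⟩)
    (fun z => by rw [hev _ (C z) 1 (by simp) (by simp)]; simp) ?_ ?_ ?_
  · exact ⟨this.1, fun k P Q hQ e => by
      rw [this.2 k ((M.mem s c k).2 ⟨P, Q, hQ, e⟩), hev k P Q hQ e]⟩
  · intro f hf g hg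
    obtain ⟨P, Q, hQ, e⟩ := (M.mem s c _).1 hf
    obtain ⟨P', Q', hQ', e'⟩ := (M.mem s c _).1 hg
    rw [hev f P Q hQ e, hev g P' Q' hQ' e', hev (f + g) (P * Q' + Q * P') (Q * Q')
      (by simp [hQ, hQ']) (by simp only [map_add, map_mul, ← e, ← e']; ring)]
    simp only [map_add, map_mul]
    field_simp
  · intro f hf g hg
    obtain ⟨P, Q, hQ, e⟩ := (M.mem s c _).1 hf
    obtain ⟨P', Q', hQ', e'⟩ := (M.mem s c _).1 hg
    rw [hev f P Q hQ e, hev g P' Q' hQ' e', hev (f * g) (P * P') (Q * Q')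
      (by simp [hQ, hQ']) (by simp only [map_mul, ← e, ← e']; ring)]
    simp only [map_mul]
    field_simp
  · intro f hf
    obtain ⟨P, Q, hQ, e⟩ := (M.mem s c _).1 hf
    rw [hev f P Q hQ e, div_ne_zero_iff, and_iff_left hQ]
    constructor
    · intro hP
      have h0 : aeval (cv s M.α M.β) P ≠ 0 := fun H => hP (by
        rw [(map_eq_zero_iff _ (M.inj s)).1 H, map_zero])
      have hf0 : f ≠ 0 := fun H => h0 (by rw [← e, H, zero_mul])
      exact ⟨f⁻¹, (M.mem s c _).2 ⟨Q, P, hP, by rw [← e, inv_mul_cancel_left₀ hf0]⟩,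
        mul_inv_cancel₀ hf0⟩
    · rintro ⟨g, hg, e1⟩ hP
      obtain ⟨P', Q', hQ', e'⟩ := (M.mem s c _).1 hg
      have : Q * Q' = P * P' := M.inj s (by
        rw [map_mul, map_mul, ← e, ← e', mul_mul_mul_comm, e1, one_mul])
      have := congrArg (eval c) this
      simp [hP, hQ, hQ'] at this

lemma isPt (y : Y) : IsPt (O y) := by
  obtain ⟨s, c, rfl⟩ := M.surj y
  exact (M.pt_spec s c).1

lemma co_spec (s c i) : cv s M.α M.β i ∈ O (M.pt s c) ∧
    val (O (M.pt s c)) (cv s M.α M.β i) = c i :=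
  ⟨(M.mem s c _).2 ⟨MvPolynomial.X i, 1, by simp, by simp⟩, by
    simpa using (M.pt_spec s c).2 _ (MvPolynomial.X i) 1 (by simp) (by simp)⟩

lemma hom_pt (s c) : Hom (O (M.pt s c)) M.α (av s c) ∧ Hom (O (M.pt s c)) M.β (bv s c) := by
  have hO := M.isPt (M.pt s c)
  have h0 := M.co_spec s c 0
  have h1 := M.co_spec s c 1
  have h2 := hO.val_mul h0.1 h1.1
  have h3 := mul_mem h0.1 h1.1
  rw [h0.2, h1.2] at h2
  refine ⟨hom_of_base hO M.hα (i := ia s) fun j => ?_, hom_of_base hO M.hβ (i := ib s) fun j => ?_⟩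
  · rw [← av_cv s M.β (M.hα _)]
    generalize cv s M.α M.β = t at *
    generalize O (M.pt s c) = R at *
    fin_cases s <;> fin_cases j <;> simp [av, h0, h1, hO.val_one]
  · rw [← bv_cv s (M.hα _) (M.hβ _) M.rel]
    generalize cv s M.α M.β = t at *
    generalize O (M.pt s c) = R at *
    fin_cases s <;> fin_cases j <;> simp [bv, h0, h1, h2, h3, hO.val_one]

lemma exists_a (y : Y) : ∃ a, Hom (O y) M.α a := by
  obtain ⟨s, c, rfl⟩ := M.surj y
  exact ⟨_, (M.hom_pt s c).1⟩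

lemma exists_b (y : Y) : ∃ b, Hom (O y) M.β b := by
  obtain ⟨s, c, rfl⟩ := M.surj y
  exact ⟨_, (M.hom_pt s c).2⟩

lemma hom_rel {y : Y} {a b} (ha : Hom (O y) M.α a) (hb : Hom (O y) M.β b) :
    a 0 * b 1 = a 1 * b 0 := by
  obtain ⟨s, c, rfl⟩ := M.surj y
  obtain ⟨k, -, rfl⟩ := (M.hom_pt s c).1.unique (M.isPt _) M.hα ha
  obtain ⟨k', -, rfl⟩ := (M.hom_pt s c).2.unique (M.isPt _) M.hβ hb
  fin_cases s <;> simp [av, bv] <;> ring

lemma eq_pt {y : Y} {a b} (ha : Hom (O y) M.α a) (hb : Hom (O y) M.β b) {s} (h : a (ia s) ≠ 0)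
    (h' : b (ib s) ≠ 0) : y = M.pt s (cv s a b) := by
  have key : ∀ i, cv s M.α M.β i ∈ O y ∧ val (O y) (cv s M.α M.β i) = cv s a b i := by
    have h1 := ha.2 _ h
    have h2 := hb.2 _ h'
    intro i
    fin_cases s <;> fin_cases i <;> first | exact h1 _ | exact h2 _
  obtain ⟨c, rfl⟩ := M.chart y s fun i => (key i).1
  congr 1
  exact funext fun i => (M.co_spec s c i).2.symm.trans (key i).2

lemma ext {y y' : Y} {a b} (ha : Hom (O y) M.α a) (hb : Hom (O y) M.β b)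
    (ha' : Hom (O y') M.α a) (hb' : Hom (O y') M.β b) : y = y' := by
  obtain ⟨s, h, h'⟩ := exists_chart ha.1 hb.1 (M.hom_rel ha hb)
  rw [M.eq_pt ha hb h h', M.eq_pt ha' hb' h h']

open Classical in
/-- The point with given homogeneous coordinates. -/
def mkp (a : Fin 2 → ℂ) (b : Fin 3 → ℂ) : Y :=
  if h : ∃ y, Hom (O y) M.α a ∧ Hom (O y) M.β b then h.choose else M.pt 0 0

lemma mkp_spec {a : Fin 2 → ℂ} {b : Fin 3 → ℂ} (ha : a ≠ 0) (hb : b ≠ 0)
    (e : a 0 * b 1 = a 1 * b 0) : Hom (O (M.mkp a b)) M.α a ∧ Hom (O (M.mkp a b)) M.β b := by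
  obtain ⟨s, h, h'⟩ := exists_chart ha hb e
  have : ∃ y, Hom (O y) M.α a ∧ Hom (O y) M.β b := by
    refine ⟨M.pt s (cv s a b), ?_, ?_⟩
    · convert (M.hom_pt s (cv s a b)).1.smul h
      ext j
      rw [Pi.smul_apply, av_cv s b h, smul_eq_mul, mul_div_cancel₀ _ h]
    · convert (M.hom_pt s (cv s a b)).2.smul h'
      ext j
      rw [Pi.smul_apply, bv_cv s h h' e, smul_eq_mul, mul_div_cancel₀ _ h']
  rw [mkp, dif_pos this]
  exact this.choose_spec

lemma holo {E : Type} [NormedAddCommGroup E] [NormedSpace ℂ E] {g : E → Y} {e : E}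
    {a : E → Fin 2 → ℂ} {b : E → Fin 3 → ℂ}
    (h : ∀ᶠ x in 𝓝 e, Hom (O (g x)) M.α (a x) ∧ Hom (O (g x)) M.β (b x))
    (ha : ∀ j, AnalyticAt ℂ (fun x => a x j) e) (hb : ∀ j, AnalyticAt ℂ (fun x => b x j) e) :
    HoloAt O g e := by
  have h0 := h.self_of_nhds
  obtain ⟨s, h1, h2⟩ := exists_chart h0.1.1 h0.2.1 (M.hom_rel h0.1 h0.2)
  have h3 : ∀ᶠ x in 𝓝 e, g x = M.pt s (cv s (a x) (b x)) := by
    filter_upwards [h, (ha _).continuousAt.eventually_ne h1, (hb _).continuousAt.eventually_ne h2]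
      with x p q r using M.eq_pt p.1 p.2 q r
  have h4 : ∀ i, AnalyticAt ℂ (fun x => cv s (a x) (b x) i) e := by
    intro i
    fin_cases s <;> fin_cases i <;> first | exact (ha _).div (ha _) h1 | exact (hb _).div (hb _) h2
  intro f hf
  rw [h3.self_of_nhds] at hf
  obtain ⟨P, Q, hQ, eq⟩ := (M.mem _ _ _).1 hf
  have h5 := (analyticAt_eval h4 Q).continuousAt.eventually_ne hQ
  refine ⟨?_, ((analyticAt_eval h4 P).div (analyticAt_eval h4 Q) hQ).congr ?_⟩
  · filter_upwards [h3, h5] with x p q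
    exact p ▸ (M.mem _ _ _).2 ⟨P, Q, q, eq⟩
  · filter_upwards [h3, h5] with x p q
    rw [p, (M.pt_spec _ _).2 f P Q q eq]
    rfl

end Model

end Pool.Agent.Lib.MP_02acd8_h53
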