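import Pool.Agent.Lib.MP_02acd8_h53.Defs

open AlgebraicGeometry Filter Topology OnePoint

noncomputable section

namespace Pool.Agent.Lib.MP_02acd8_h53

/-- The Riemann sphere. -/
abbrev Sphere : Type := OnePoint ℂ

/-- Matrices acting on the sphere by Moebius transformations. -/
abbrev Mob : Type := Matrix.GeneralLinearGroup (Fin 2) ℂ

/-- The local parameter of the sphere at `q`. -/
def param (q : Sphere) (w : ℂ) : Sphere :=
  q.elim (if w = 0 then ∞ else ((w⁻¹ : ℂ) : Sphere)) fun z => ((z + w : ℂ) : Sphere)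

/-- A rooted tree of maps from spheres: the vertex `v ≠ 0` is glued at its point `∞` to the point
`node v` of its parent `par v`; the marked point is the point `∞` of the root `0`. -/
structure PreMap (Y : Type) where
  /-- number of nodes -/
  len : ℕ
  /-- parent -/
  par : Fin (len + 1) → Fin (len + 1)
  /-- position of the node on the parent -/
  node : Fin (len + 1) → ℂ
  /-- the maps -/
  maps : Fin (len + 1) → Sphere → Y

/-- The tree with one vertex. -/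
def oneVertex {Y : Type} (u : Sphere → Y) : PreMap Y := ⟨0, id, 0, fun _ => u⟩

/-- `u'` is a reparametrisation of `u` that fixes the marked point. -/
def Repar {Y : Type} (u u' : Sphere → Y) (φ : Mob) : Prop :=
  φ • (∞ : Sphere) = ∞ ∧ ∀ q, u (φ • q) = u' q

section

variable {K : Type} [Field K] [Algebra ℂ K]

/-- The value of `f` at the closed point of the local ring `O`. -/
def val (O : Subring K) (f : K) : ℂ :=
  Classical.epsilon fun c : ℂ => ¬ ∃ g ∈ O, (f - algebraMap ℂ K c) * g = 1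

/-- A tangent vector at the closed point of `O`. -/
def IsTangent (O : Subring K) (D : K → ℂ) : Prop :=
  (∀ c, D (algebraMap ℂ K c) = 0) ∧ ∀ f ∈ O, ∀ g ∈ O,
    D (f + g) = D f + D g ∧ D (f * g) = val O f * D g + val O g * D f

variable {Y : Type} (n : ℕ) (O : Y → Subring K)

/-- Convergence in the classical topology. -/
def Conv {ι : Type} (l : Filter ι) (g : ι → Y) (y : Y) : Prop :=
  ∀ f ∈ O y, (∀ᶠ i in l, f ∈ O (g i)) ∧ Tendsto (fun i => val (O (g i)) f) l (𝓝 (val (O y) f))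

/-- Holomorphic at a point. -/
def HoloAt {E : Type} [NormedAddCommGroup E] [NormedSpace ℂ E] (g : E → Y) (e : E) : Prop :=
  ∀ f ∈ O (g e), (∀ᶠ e' in 𝓝 e, f ∈ O (g e')) ∧ AnalyticAt ℂ (fun e' => val (O (g e')) f) e

/-- The anticanonical degree of `u` is `d`: the orders of `ω⁻¹` along `u` add up to `d`. -/
def AntiDeg (u : Sphere → Y) (d : ℤ) : Prop :=
  ∃ (ω : TopForm n K) (m : Finsupp Sphere ℤ), d = m.sum (fun _ k => k) ∧
    ∀ q, ∃ (h : K) (c : ℂ), Generates (O (u q)) (h • ω) ∧ c ≠ 0 ∧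
      (∀ᶠ w in 𝓝[≠] 0, h ∈ O (u (param q w))) ∧
      Tendsto (fun w => val (O (u (param q w))) h / w ^ m q) (𝓝[≠] 0) (𝓝 c)

/-- The pull-back of the tangent bundle is generated by holomorphic global sections. -/
def IsFree (u : Sphere → Y) : Prop :=
  ∀ q D, IsTangent (O (u q)) D → ∃ ξ : Sphere → K → ℂ, (∀ f ∈ O (u q), ξ q f = D f) ∧
    ∀ q', IsTangent (O (u q')) (ξ q') ∧
      ∀ f ∈ O (u q'), AnalyticAt ℂ (fun w => ξ (param q' w) f) 0

/-- Genus 0 stable map of anticanonical degree `d` with one marked point, sent to `p`. -/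
def IsStable (p : Y) (d : ℕ) (A : PreMap Y) : Prop :=
  (∀ v, v ≠ 0 → A.par v < v ∧ A.maps v ∞ = A.maps (A.par v) (A.node v) ∧
    ∀ w, w ≠ 0 → A.par v = A.par w → A.node v = A.node w → v = w) ∧
  (∀ v q, HoloAt O (fun w => A.maps v (param q w)) 0) ∧ A.maps 0 ∞ = p ∧
  (∀ v, (∀ q, A.maps v q = A.maps v ∞) →
    ∃ w w', w ≠ 0 ∧ w' ≠ 0 ∧ w ≠ w' ∧ A.par w = v ∧ A.par w' = v) ∧
  ∃ e : Fin (A.len + 1) → ℤ, (∀ v, AntiDeg n O (A.maps v) (e v)) ∧ ∑ v, e v = d

/-- Gromov convergence with reparametrisations `φ`. -/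
def GromovTo (A : ℕ → PreMap Y) (B : PreMap Y) (φ : ℕ → Fin (B.len + 1) → Mob) : Prop :=
  ∃ f : ∀ i, Fin (B.len + 1) → Fin ((A i).len + 1),
    (∀ i, f i 0 = 0 ∧ φ i 0 • (∞ : Sphere) = ∞) ∧
    (∀ v (z : ℂ), (∀ w, w ≠ 0 → B.par w = v → B.node w ≠ z) →
      Conv O (atTop ×ˢ 𝓝 z) (fun t => (A t.1).maps (f t.1 v) (φ t.1 v • (t.2 : Sphere)))
        (B.maps v z)) ∧
    ∀ v, v ≠ 0 →
      (∀ z : ℂ, Tendsto (fun t : ℕ × ℂ => (φ t.1 (B.par v))⁻¹ • φ t.1 v • (t.2 : Sphere))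
        ((atTop ⊓ 𝓟 {i | f i v = f i (B.par v)}) ×ˢ 𝓝 z) (𝓝 (B.node v : Sphere))) ∧
      (∀ i, f i v ≠ f i (B.par v) → f i v ≠ 0 ∧ (A i).par (f i v) = f i (B.par v)) ∧
      Tendsto (fun i => ((φ i v)⁻¹ • (∞ : Sphere),
          (φ i (B.par v))⁻¹ • ((A i).node (f i v) : Sphere)))
        (atTop ⊓ 𝓟 {i | f i v ≠ f i (B.par v)}) (𝓝 (∞, (B.node v : Sphere)))

/-- Continuous sections of the `N`-th power of the cotangent line at the marked point. -/
def IsSection (p : Y) (d N : ℕ) (σ : PreMap Y → Fin (d - 2) → ℂ) : Prop :=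
  ∀ A B φ, (∀ i, IsStable n O p d (A i)) → IsStable n O p d B → GromovTo O A B φ →
    Tendsto (fun i => (φ i 0 1 1 / φ i 0 0 0) ^ N • σ (A i)) atTop (𝓝 (σ B))

/-- `u` is free, has no automorphism, and `σ` has invertible derivative at `u` in a holomorphic
chart of the moduli space. -/
def IsSimple (p : Y) (d : ℕ) (σ : PreMap Y → Fin (d - 2) → ℂ) (u : Sphere → Y) : Prop :=
  IsFree O u ∧ ∃ (F : (Fin (d - 2) → ℂ) → Sphere → Y) (U : Set (Fin (d - 2) → ℂ))
    (T : (Fin (d - 2) → ℂ) ≃L[ℂ] (Fin (d - 2) → ℂ)), F 0 = u ∧ U ∈ 𝓝 0 ∧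
    (∀ s ∈ U, IsStable n O p d (oneVertex (F s)) ∧
      (∀ q, HoloAt O (fun t : (Fin (d - 2) → ℂ) × ℂ => F t.1 (param q t.2)) (s, 0)) ∧
      ∀ s' ∈ U, ∀ φ, Repar (F s) (F s') φ → s = s' ∧ ∀ q : Sphere, φ • q = q) ∧
    HasFDerivAt (fun s => σ (oneVertex (F s))) T.toContinuousLinearMap 0

/-- `r` is the invariant with the insertion `[pt] ψ^(d-2)` in degree `d`, as an Euler number. -/
def Descendant (d : ℕ) (r : ℚ) : Prop :=
  ∃ (p : Y) (N : ℕ) (σ : PreMap Y → Fin (d - 2) → ℂ) (Z : Finset (Sphere → Y)),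
    0 < N ∧ IsSection n O p d N σ ∧
    (∀ u ∈ Z, IsSimple n O p d σ u ∧ ∀ u' ∈ Z, ∀ φ, Repar u u' φ → u = u') ∧
    (∀ A, IsStable n O p d A → (σ A = 0 ↔ A.len = 0 ∧ ∃ u ∈ Z, ∃ φ, Repar u (A.maps 0) φ)) ∧
    r = Z.card / N ^ (d - 2)

end

/-- The local rings at the closed points. -/
def closedLoc {X : Scheme.{0}} [IsIntegral X] (s : X ⟶ Pt) :
    {x : X // IsClosed ({x} : Set X)} → Subring (FF s) := fun x => loc s x

/-- The classical period of `f` is the regularized quantum period. -/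
def PeriodCondition {n : ℕ} {X : Scheme.{0}} [IsIntegral X] (s : X ⟶ Pt) (f : Laurent n) : Prop :=
  ∃ I : ℕ → ℚ, (∀ d, 2 ≤ d → Descendant n (closedLoc s) d (I d)) ∧
    period f = 1 + PowerSeries.mk fun d => if d < 2 then 0 else ((d.factorial * I d : ℚ) : ℂ)

end Pool.Agent.Lib.MP_02acd8_h53
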