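import Pool.Agent.Lib.MP_02acd8_h53.StChart

open Filter Topology OnePoint Polynomial

set_option linter.unusedSectionVars false

noncomputable section

namespace Pool.Agent.Lib.MP_02acd8_h53

/-- The order of a function at the origin. -/
def HasOrd (g : ℂ → ℂ) (n : ℤ) : Prop :=
  ∃ c : ℂ, c ≠ 0 ∧ Tendsto (fun w => g w / w ^ n) (𝓝[≠] 0) (𝓝 c)

namespace HasOrd

variable {g g' : ℂ → ℂ} {n n' : ℤ}

lemma congr (h : HasOrd g n) (e : ∀ᶠ w in 𝓝[≠] 0, g w = g' w) : HasOrd g' n :=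
  h.imp fun _ h => ⟨h.1, h.2.congr' (e.mono fun _ h => by simp only [h])⟩

lemma mul (h : HasOrd g n) (h' : HasOrd g' n') : HasOrd (fun w => g w * g' w) (n + n') := by
  obtain ⟨c, hc, e⟩ := h
  obtain ⟨c', hc', e'⟩ := h'
  refine ⟨c * c', mul_ne_zero hc hc', (e.mul e').congr' ?_⟩
  filter_upwards [self_mem_nhdsWithin] with w hw
  rw [zpow_add₀ hw, div_mul_div_comm]

lemma div (h : HasOrd g n) (h' : HasOrd g' n') : HasOrd (fun w => g w / g' w) (n - n') := by
  obtain ⟨c, hc, e⟩ := h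
  obtain ⟨c', hc', e'⟩ := h'
  refine ⟨c / c', div_ne_zero hc hc', (e.div e' hc').congr' ?_⟩
  filter_upwards [self_mem_nhdsWithin] with w hw
  rw [zpow_sub₀ hw, Pi.div_apply, div_div_div_comm]

lemma ne_zero (h : HasOrd g n) : ∀ᶠ w in 𝓝[≠] 0, g w ≠ 0 := by
  obtain ⟨c, hc, e⟩ := h
  exact (e.eventually_ne hc).mono fun w hw => (div_ne_zero_iff.1 hw).1

lemma of_tendsto {c : ℂ} (hc : c ≠ 0) (h : Tendsto g (𝓝 0) (𝓝 c)) : HasOrd g 0 :=
  ⟨c, hc, by simpa using h.mono_left nhdsWithin_le_nhds⟩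

lemma unique (h : HasOrd g n) (h' : HasOrd g n') : n = n' := by
  have key : ∀ {n n' : ℤ}, HasOrd g n → HasOrd g n' → ¬ n < n' := by
    intro n n' h h' hlt
    obtain ⟨c, hc, e⟩ := h.div h'
    obtain ⟨k, hk⟩ := Int.eq_ofNat_of_zero_le (sub_nonneg.2 hlt.le)
    have h1 : Tendsto (fun w : ℂ => w ^ k) (𝓝[≠] 0) (𝓝 (0 ^ k)) :=
      ((continuous_pow k).tendsto 0).mono_left nhdsWithin_le_nhds
    rw [zero_pow (by omega)] at h1
    refine hc (tendsto_nhds_unique e (h1.congr' ?_))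
    filter_upwards [h.ne_zero] with w hw
    rw [div_self hw, one_div, ← zpow_neg, neg_sub, hk, zpow_natCast]
  exact le_antisymm (not_lt.1 (key h' h)) (not_lt.1 (key h h'))

end HasOrd

/-- The factor that passes to the local trivialisation. -/
def sc (q : Sphere) (w : ℂ) : ℂ := q.elim w fun _ => 1

lemma sc_ne_zero (q : Sphere) {w : ℂ} (h : w ≠ 0) : sc q w ≠ 0 := by
  induction q using OnePoint.rec <;> simp [sc, h]

lemma ord_br (q x : Sphere) :
    HasOrd (fun w => sc q w * br (param q w) x) (if q = x then 1 else 0) := by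
  induction q using OnePoint.rec with
  | infty =>
    induction x using OnePoint.rec with
    | infty =>
      refine ⟨-1, by simp, tendsto_const_nhds.congr' ?_⟩
      filter_upwards [self_mem_nhdsWithin] with w (hw : w ≠ 0)
      simp [param_infty hw, sc, hw]
    | coe x =>
      rw [if_neg (infty_ne_coe x)]
      refine (HasOrd.of_tendsto (g := fun w => 1 - w * x) one_ne_zero
        (Continuous.tendsto' (by fun_prop) _ _ (by simp))).congr ?_
      filter_upwards [self_mem_nhdsWithin] with w (hw : w ≠ 0)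
      simp [param_infty hw, sc, mul_sub, hw]
  | coe z =>
    split_ifs with h
    · subst h
      refine ⟨1, by simp, tendsto_const_nhds.congr' ?_⟩
      filter_upwards [self_mem_nhdsWithin] with w (hw : w ≠ 0)
      simp [sc, hw]
    · refine HasOrd.of_tendsto (c := br z x) (mt br_eq_zero.1 h) ?_
      induction x using OnePoint.rec with
      | infty => simp [sc]
      | coe x =>
        simp only [sc, param_coe, br_cc, elim_some]
        exact Continuous.tendsto' (by fun_prop) _ _ (by simp)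

lemma ord_pb (q : Sphere) (W : Multiset Sphere) :
    HasOrd (fun w => sc q w ^ W.card * pb W (param q w)) (W.count q) := by
  induction W using Multiset.induction_on with
  | empty => exact HasOrd.of_tendsto one_ne_zero (by simp [pb])
  | cons x W ih =>
    have := (ord_br q x).mul ih
    convert this using 1
    · ext w
      simp only [pb, Multiset.card_cons, Multiset.map_cons, Multiset.prod_cons]
      ring
    · rw [Multiset.count_cons]
      split_ifs <;> simp [add_comm]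

lemma eventually_notMem (q : Sphere) (W : Multiset Sphere) : ∀ᶠ w in 𝓝[≠] 0, param q w ∉ W :=
  (ord_pb q W).ne_zero.mono fun _ h => pb_ne_zero.1 (right_ne_zero_of_mul h)

lemma IsForm.ord {g g' W W'} (h : IsForm g W) (h' : IsForm g' W') (e : W.card = W'.card) (q) :
    HasOrd (fun w => g (param q w) / g' (param q w)) (W.count q - W'.count q) := by
  obtain ⟨c, hc, e1⟩ := h
  obtain ⟨c', hc', e2⟩ := h'
  have := (HasOrd.of_tendsto (div_ne_zero hc hc') tendsto_const_nhds).mul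
    ((ord_pb q W).div (ord_pb q W'))
  rw [zero_add] at this
  refine this.congr ?_
  filter_upwards [self_mem_nhdsWithin] with w hw
  rw [e, mul_div_mul_left _ _ (pow_ne_zero _ (sc_ne_zero q hw)), e1, e2, div_mul_div_comm]

lemma param_finite (q : Sphere) {w : ℂ} (h : w ≠ 0) : ∃ z : ℂ, param q w = z := by
  induction q using OnePoint.rec with
  | infty => exact ⟨_, param_infty h⟩
  | coe z => exact ⟨_, rfl⟩

variable {K : Type} [Field K] [Algebra ℂ K]

lemma Generates.unit {n : ℕ} {O : Subring K} (hO : IsPt O) {ω ω' : TopForm n K}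
    (h : Generates O ω) (h' : Generates O ω') : ∃ e ∈ O, val O e ≠ 0 ∧ ω' = e • ω := by
  obtain ⟨e, he, h1⟩ := (h.2 ω').1 ((h'.2 ω').2 ⟨1, one_mem _, by simp⟩)
  obtain ⟨e', he', h2⟩ := (h'.2 ω).1 ((h.2 ω).2 ⟨1, one_mem _, by simp⟩)
  refine ⟨e, he, (hO.unit he).2 ⟨e', he', ?_⟩, h1⟩
  rw [h2, smul_smul] at h1
  exact (smul_left_injective K h'.1 ((one_smul _ _).trans h1)).symm

/-- The anticanonical section of a chart. -/
def anti {F : Type} [Field F] (s : Fin 4) (a : Fin 2 → F) (b : Fin 3 → F) : F :=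
  a (ia s) * b (ib s) ^ 2

lemma anti_ne_zero {s a b} : anti (F := ℂ) s a b ≠ 0 ↔ a (ia s) ≠ 0 ∧ b (ib s) ≠ 0 := by
  simp [anti]

lemma anti_form {na nb : ℕ} {Pa : Fin 2 → ℂ[X]} {Pb : Fin 3 → ℂ[X]}
    (ha : ∀ j, (Pa j).natDegree ≤ na) (hb : ∀ j, (Pb j).natDegree ≤ nb) {s q}
    (h : anti s (hvv na Pa q) (hvv nb Pb q) ≠ 0) : ∃ W : Multiset Sphere, W.card = na + 2 * nb ∧
      IsForm (fun q => anti s (hvv na Pa q) (hvv nb Pb q)) W := by
  rw [anti_ne_zero] at h
  have h1 := isForm_hv (ha (ia s)) (lp_proj _ Pa ▸ lp_ne_zero (ℓ := LinearMap.proj _) h.1)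
  have h2 := isForm_hv (hb (ib s)) (lp_proj _ Pb ▸ lp_ne_zero (ℓ := LinearMap.proj _) h.2)
  exact ⟨zr na (Pa (ia s)) + (zr nb (Pb (ib s)) + zr nb (Pb (ib s))),
    by simp [card_zr (ha _), card_zr (hb _), two_mul], by
    simpa only [anti, sq, hvv] using h1.mul (h2.mul h2)⟩

lemma eval_cv_poly (Pa : Fin 2 → ℂ[X]) (Pb : Fin 3 → ℂ[X]) (s : Fin 4)
    (P : MvPolynomial (Fin 2) ℂ) : ∃ (N : ℕ) (G : ℂ[X]), ∀ z : ℂ,
      (Pa (ia s) * Pb (ib s)).eval z ≠ 0 →
      MvPolynomial.eval (cv s (fun j => (Pa j).eval z) fun j => (Pb j).eval z) P *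
        (Pa (ia s) * Pb (ib s)).eval z ^ N = G.eval z := by
  induction P using MvPolynomial.induction_on with
  | C c => exact ⟨0, C c, by simp⟩
  | add p q hp hq =>
    obtain ⟨N, G, h⟩ := hp
    obtain ⟨N', G', h'⟩ := hq
    refine ⟨N + N', G * (Pa (ia s) * Pb (ib s)) ^ N' + G' * (Pa (ia s) * Pb (ib s)) ^ N,
      fun z hz => ?_⟩
    rw [eval_add, eval_mul (p := G), eval_mul (p := G'), eval_pow, eval_pow, ← h z hz, ← h' z hz, map_add]
    ring
  | mul_X p i hp =>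
    obtain ⟨N, G, h⟩ := hp
    have : ∃ G' : ℂ[X], ∀ z : ℂ, (Pa (ia s) * Pb (ib s)).eval z ≠ 0 →
        cv s (fun j => (Pa j).eval z) (fun j => (Pb j).eval z) i *
          (Pa (ia s) * Pb (ib s)).eval z = G'.eval z := by
      refine ⟨![![Pb 2 * Pa 1, Pa 0 * Pb 1],
        ![Pa 0 * Pb 2, Pb 1 * Pa 1], ![Pb 0 * Pa 0, Pa 1 * Pb 2], ![Pa 1 * Pb 0, Pb 2 * Pa 0]] s i,
        fun z hz => ?_⟩
      rw [eval_mul, mul_ne_zero_iff] at hz
      obtain ⟨h1, h2⟩ := hz
      fin_cases s <;> fin_cases i <;> simp [cv, ia, ib] at h1 h2 ⊢ <;> field_simp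
    obtain ⟨G', h'⟩ := this
    refine ⟨N + 1, G * G', fun z hz => ?_⟩
    rw [eval_mul (p := G), ← h z hz, ← h' z hz, map_mul, MvPolynomial.eval_X]
    ring

namespace Model

variable {Y : Type} {O : Y → Subring K} (M : Model O)
include M

lemma anti_ratio {y : Y} {a b} (ha : Hom (O y) M.α a) (hb : Hom (O y) M.β b) (s) {t}
    (h : anti t a b ≠ 0) : anti s M.α M.β / anti t M.α M.β ∈ O y ∧
      val (O y) (anti s M.α M.β / anti t M.α M.β) = anti s a b / anti t a b := by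
  rw [anti_ne_zero] at h
  have h1 := ha.2 _ h.1 (ia s)
  have h2 := hb.2 _ h.2 (ib s)
  simp only [anti, mul_div_mul_comm, ← div_pow]
  rw [(M.isPt y).val_mul h1.1 (pow_mem h2.1 2), (M.isPt y).val_pow h2.1, h1.2, h2.2]
  exact ⟨mul_mem h1.1 (pow_mem h2.1 2), rfl⟩

lemma anti_gen {y : Y} {a b} (ha : Hom (O y) M.α a) (hb : Hom (O y) M.β b) :
    ∃ t, anti t a b ≠ 0 ∧ Generates (O y) ((anti t M.α M.β)⁻¹ • M.ω) := by
  obtain ⟨t, h1, h2⟩ := exists_chart ha.1 hb.1 (M.hom_rel ha hb)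
  exact ⟨t, anti_ne_zero.2 ⟨h1, h2⟩, M.eq_pt ha hb h1 h2 ▸ M.gen t _⟩

lemma anti_ne (s) : anti s M.α M.β ≠ 0 := mul_ne_zero (M.hα _) (pow_ne_zero _ (M.hβ _))

variable {u : Sphere → Y} {na nb : ℕ} {Pa : Fin 2 → ℂ[X]} {Pb : Fin 3 → ℂ[X]}
  (da : ∀ j, (Pa j).natDegree ≤ na) (db : ∀ j, (Pb j).natDegree ≤ nb)
  (ha : ∀ q, Hom (O (u q)) M.α (hvv na Pa q)) (hb : ∀ q, Hom (O (u q)) M.β (hvv nb Pb q))
include da db ha hb

lemma anti_ord {s W} (hW : W.card = na + 2 * nb)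
    (h : IsForm (fun q => anti s (hvv na Pa q) (hvv nb Pb q)) W) {t q}
    (ht : anti t (hvv na Pa q) (hvv nb Pb q) ≠ 0) :
    (∀ᶠ w in 𝓝[≠] 0, anti s M.α M.β / anti t M.α M.β ∈ O (u (param q w))) ∧
      HasOrd (fun w => val (O (u (param q w))) (anti s M.α M.β / anti t M.α M.β)) (W.count q) := by
  obtain ⟨W', hW', h'⟩ := anti_form da db ht
  have h1 := h.ord h' (hW.trans hW'.symm) q
  rw [Multiset.count_eq_zero.2 (h'.ne_zero.1 ht), Nat.cast_zero, sub_zero] at h1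
  have h2 := (eventually_notMem q W').mono fun w hw =>
    M.anti_ratio (ha _) (hb _) s (h'.ne_zero.2 hw)
  exact ⟨h2.mono fun _ h => h.1, h1.congr (h2.mono fun _ h => h.2.symm)⟩

theorem antiDeg : AntiDeg 2 O u (na + 2 * nb : ℕ) := by
  obtain ⟨s, hs, -⟩ := M.anti_gen (ha ∞) (hb ∞)
  obtain ⟨W, hW, h⟩ := anti_form da db hs
  refine ⟨(anti s M.α M.β)⁻¹ • M.ω, W.toFinsupp.mapRange (↑) rfl, ?_, fun q => ?_⟩
  · rw [Finsupp.sum_mapRange_index fun _ => rfl, ← hW, Finsupp.sum, ← Nat.cast_sum]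
    simp
  · obtain ⟨t, ht, hg⟩ := M.anti_gen (ha q) (hb q)
    obtain ⟨h1, c, hc, h2⟩ := M.anti_ord da db ha hb hW h ht
    refine ⟨_, c, ?_, hc, h1, h2⟩
    rwa [smul_smul, div_mul_eq_mul_div, mul_inv_cancel₀ (M.anti_ne s), one_div]

theorem deg_eq (hu : ∀ q, HoloAt O (fun w => u (param q w)) 0) {d : ℤ} (hd : AntiDeg 2 O u d) :
    d = (na + 2 * nb : ℕ) := by
  obtain ⟨ω, m, rfl, H⟩ := hd
  choose h c hg hc hm hl using H
  choose t ht hgen using fun q => M.anti_gen (ha q) (hb q)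
  choose e he he0 hω using fun q => (hgen q).unit (M.isPt _) (hg q)
  have hord : ∀ q, HasOrd (fun w => val (O (u (param q w))) (h q)) (m q) :=
    fun q => ⟨c q, hc q, hl q⟩
  have eo : ∀ q, (∀ᶠ w in 𝓝[≠] 0, e q ∈ O (u (param q w))) ∧
      HasOrd (fun w => val (O (u (param q w))) (e q)) 0 := fun q => by
    have := hu q (e q) (by simpa using he q)
    exact ⟨this.1.filter_mono nhdsWithin_le_nhds, HasOrd.of_tendsto (he0 q)
      (by simpa using this.2.continuousAt.tendsto)⟩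
  obtain ⟨W, hW, hf⟩ := anti_form da db (ht ∞)
  have ω0 : M.ω ≠ 0 := fun e => (hgen ∞).1 (by rw [e, smul_zero])
  have e0 : ∀ q, e q ≠ 0 := fun q => (M.isPt _).ne_zero (he0 q)
  have rel : ∀ q, h q = e q * (h ∞ * (e ∞)⁻¹) * (anti (t ∞) M.α M.β / anti (t q) M.α M.β) := by
    intro q
    have h1 := congrArg (h q • ·) (hω ∞)
    have h2 := congrArg (h ∞ • ·) (hω q)
    simp only [smul_smul] at h1 h2
    rw [mul_comm, h2] at h1
    have := smul_left_injective K ω0 h1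
    have h3 := e0 ∞
    have h4 := M.anti_ne (t q)
    have h5 := M.anti_ne (t ∞)
    field_simp at this ⊢
    linear_combination -this
  obtain ⟨w, ⟨⟨⟨⟨w1, w2⟩, w3⟩, w4⟩, w5⟩, w6 : w ≠ 0⟩ := ((((((hm ∞).and (hord ∞).ne_zero).and
    (eo ∞).1).and (eo ∞).2.ne_zero).and (eventually_notMem ∞ W)).and self_mem_nhdsWithin).exists
  obtain ⟨z1, hz1⟩ := param_finite ∞ w6
  rw [hz1] at w1 w2 w3 w4 w5
  have i1 := (M.isPt _).inv_mem w3 w4
  have r1 := mul_mem w1 i1.1
  have r2 : val (O (u z1)) (h ∞ * (e ∞)⁻¹) ≠ 0 := by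
    rw [(M.isPt _).val_mul w1 i1.1, i1.2]
    exact mul_ne_zero w2 (inv_ne_zero w4)
  generalize h ∞ * (e ∞)⁻¹ = r at r1 r2 rel
  have ch : ∀ z : ℂ, (z : Sphere) ∉ W → u z = M.pt (t ∞) (cv (t ∞) (fun j => (Pa j).eval z)
      fun j => (Pb j).eval z) ∧ (Pa (ia (t ∞)) * Pb (ib (t ∞))).eval z ≠ 0 := fun z hz => by
    have := anti_ne_zero.1 (hf.ne_zero.2 hz)
    exact ⟨M.eq_pt (ha z) (hb z) this.1 this.2, by rw [eval_mul]; exact mul_ne_zero this.1 this.2⟩
  rw [(ch z1 w5).1] at r1 r2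
  obtain ⟨P, Q, hQ, hr⟩ := (M.mem _ _ _).1 r1
  rw [(M.pt_spec _ _).2 r P Q hQ hr, div_ne_zero_iff] at r2
  obtain ⟨N, G, hG⟩ := eval_cv_poly Pa Pb (t ∞) P
  obtain ⟨N', G', hG'⟩ := eval_cv_poly Pa Pb (t ∞) Q
  generalize Pa (ia (t ∞)) * Pb (ib (t ∞)) = D at *
  have n1 : G * D ^ N' ≠ 0 := fun H => by
    have := congrArg (eval z1) H
    simp [← hG z1 (ch z1 w5).2, (ch z1 w5).2, r2.1] at this
  have n2 : G' * D ^ N ≠ 0 := fun H => by
    have := congrArg (eval z1) H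
    simp [← hG' z1 (ch z1 w5).2, (ch z1 w5).2, hQ] at this
  have l1 := le_max_left (G * D ^ N').natDegree (G' * D ^ N).natDegree
  have l2 := le_max_right (G * D ^ N').natDegree (G' * D ^ N).natDegree
  have c0 := (card_zr l1).trans (card_zr l2).symm
  have f1 := isForm_hv l1 n1
  have f2 := isForm_hv l2 n2
  generalize max (G * D ^ N').natDegree (G' * D ^ N).natDegree = n at *
  generalize zr n (G * D ^ N') = Z1 at *
  generalize zr n (G' * D ^ N) = Z2 at *
  have key : ∀ q, m q = Z1.count q - Z2.count q + W.count q := by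
    intro q
    obtain ⟨a1, a2⟩ := M.anti_ord da db ha hb hW hf (ht q)
    have := ((eo q).2.mul (f1.ord f2 c0 q)).mul a2
    rw [zero_add] at this
    refine (hord q).unique (this.congr ?_)
    filter_upwards [a1, (eo q).1, eventually_notMem q W, eventually_notMem q Z2,
      self_mem_nhdsWithin] with w b1 b2 b3 b4 b5
    obtain ⟨z, hz⟩ := param_finite q b5
    rw [hz] at b1 b2 b3 b4 ⊢
    have d1 := (ch z b3).2
    have d2 := f2.ne_zero.2 b4
    rw [hv_coe, eval_mul, eval_pow, ← hG' z d1] at d2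
    have d3 := left_ne_zero_of_mul (left_ne_zero_of_mul d2)
    have d4 : r ∈ O (u z) := (ch z b3).1 ▸ (M.mem _ _ _).2 ⟨P, Q, d3, hr⟩
    rw [rel q, (M.isPt _).val_mul (mul_mem b2 d4) b1, (M.isPt _).val_mul b2 d4]
    congr 2
    rw [(ch z b3).1, (M.pt_spec _ _).2 r P Q d3 hr, hv_coe, hv_coe, eval_mul, eval_mul, eval_pow,
      eval_pow, ← hG z d1, ← hG' z d1]
    field_simp
  rw [Finsupp.sum_of_support_subset m (s := (Z1 + Z2 + W).toFinset) ?_ _ fun _ _ => rfl]
  · simp only [key, Finset.sum_add_distrib, Finset.sum_sub_distrib, ← Nat.cast_sum]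
    rw [Multiset.sum_count_eq_card, Multiset.sum_count_eq_card, Multiset.sum_count_eq_card, c0, hW,
      sub_self, zero_add] <;> simp +contextual
  · intro q hq
    by_contra H
    simp only [Multiset.mem_toFinset, Multiset.mem_add, not_or, ← Multiset.count_eq_zero] at H
    rw [Finsupp.mem_support_iff, key, H.1.1, H.1.2, H.2] at hq
    simp at hq

end Model

end Pool.Agent.Lib.MP_02acd8_h53
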