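import Pool.Agent.Lib.MP_02acd8_h53.StBd

open Filter Topology OnePoint Polynomial

set_option linter.unusedSectionVars false

noncomputable section

namespace Pool.Agent.Lib.MP_02acd8_h53

variable {K : Type} [Field K] [Algebra ℂ K] {Y : Type} {O : Y → Subring K}

/-- A form in the local trivialisation at `q`. -/
def hl (n : ℕ) (P : ℂ[X]) (q : Sphere) (w : ℂ) : ℂ :=
  ∑ i ∈ Finset.range (n + 1), P.coeff i * q.elim (w ^ (n - i)) fun z => (z + w) ^ i

lemma hl_eq (q : Sphere) (w : ℂ) : ∃ t : ℂ, t ≠ 0 ∧ (w = 0 → t = 1) ∧ ∀ (n : ℕ) (P : ℂ[X]),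
    P.natDegree ≤ n → hl n P q w = t ^ n * hv n P (param q w) := by
  induction q using OnePoint.rec with
  | coe z => exact ⟨1, one_ne_zero, fun _ => rfl, fun n P h => by
      simp [hl, eval_eq_sum_range' (Nat.lt_succ_of_le h)]⟩
  | infty =>
    by_cases hw : w = 0
    · refine ⟨1, one_ne_zero, fun _ => rfl, fun n P _ => ?_⟩
      rw [hw, param_zero, hl, Finset.sum_range_succ, Finset.sum_eq_zero fun i hi => by
        simp [Nat.sub_ne_zero_of_lt (Finset.mem_range.1 hi)]]
      simp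
    · refine ⟨w, hw, fun h => absurd h hw, fun n P h => ?_⟩
      rw [param_infty hw, hv_coe, eval_eq_sum_range' (Nat.lt_succ_of_le h), Finset.mul_sum]
      refine Finset.sum_congr rfl fun i hi => ?_
      rw [elim_infty, pow_sub₀ _ hw (Nat.lt_succ_iff.1 (Finset.mem_range.1 hi)), inv_pow]
      ring

lemma analyticAt_hl {E : Type} [NormedAddCommGroup E] [NormedSpace ℂ E] {P : E → ℂ[X]} {e : E}
    (h : ∀ i, AnalyticAt ℂ (fun x => (P x).coeff i) e) (n q) :
    AnalyticAt ℂ (fun t : E × ℂ => hl n (P t.1) q t.2) (e, 0) := by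
  refine Finset.analyticAt_fun_sum _ fun i _ =>
    ((h i).comp_of_eq (f := Prod.fst) analyticAt_fst rfl).fun_mul ?_
  induction q using OnePoint.rec
  exacts [analyticAt_snd.fun_pow _, (analyticAt_const.fun_add analyticAt_snd).fun_pow _]

lemma hv_mul {n n' : ℕ} {P P' : ℂ[X]} (h : P.natDegree ≤ n) (h' : P'.natDegree ≤ n') (q) :
    hv (n + n') (P * P') q = hv n P q * hv n' P' q := by
  induction q using OnePoint.rec with
  | infty => exact coeff_mul_add_eq_of_natDegree_le h h'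
  | coe z => exact eval_mul

lemma HoloAt.comp {E F : Type} [NormedAddCommGroup E] [NormedSpace ℂ E] [NormedAddCommGroup F]
    [NormedSpace ℂ F] {g : E → Y} {t : F → E} {x : F} (h : HoloAt O g (t x))
    (ht : AnalyticAt ℂ t x) : HoloAt O (fun y => g (t y)) x :=
  fun f hf => ⟨ht.continuousAt.eventually (h f hf).1, (h f hf).2.comp ht⟩

lemma HoloAt.tangent (hO : ∀ y, IsPt (O y)) {g : ℂ → Y} (h : HoloAt O g 0) :
    IsTangent (O (g 0)) fun f => deriv (fun x => val (O (g x)) f) 0 := by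
  refine ⟨fun c => by simp [(hO _).val_const], fun f hf f' hf' => ⟨?_, ?_⟩⟩
  · rw [← deriv_fun_add (h f hf).2.differentiableAt (h f' hf').2.differentiableAt]
    exact EventuallyEq.deriv_eq (((h f hf).1.and (h f' hf').1).mono fun x hx =>
      (hO _).val_add hx.1 hx.2)
  · have := deriv_fun_mul (h f hf).2.differentiableAt (h f' hf').2.differentiableAt
    rw [mul_comm, add_comm] at this
    rw [← this]
    exact EventuallyEq.deriv_eq (((h f hf).1.and (h f' hf').1).mono fun x hx =>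
      (hO _).val_mul hx.1 hx.2)

lemma analyticAt_deriv {g : ℂ × ℂ → ℂ} (h : AnalyticAt ℂ g (0, 0)) :
    AnalyticAt ℂ (fun w => deriv (fun x => g (x, w)) 0) 0 := by
  have h1 : AnalyticAt ℂ (fun w : ℂ => ((0, w) : ℂ × ℂ)) 0 := by fun_prop
  have h2 := (ContinuousLinearMap.apply ℂ ℂ ((1, 0) : ℂ × ℂ)).analyticAt (fderiv ℂ g (0, 0))
  refine ((h2.comp h.fderiv).comp_of_eq h1 rfl).congr ?_
  filter_upwards [h1.continuousAt.eventually h.eventually_analyticAt] with w hw
  have h3 : HasDerivAt (fun x : ℂ => ((x, w) : ℂ × ℂ)) (1, 0) 0 :=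
    (hasDerivAt_id _).prodMk (hasDerivAt_const _ _)
  exact (hw.differentiableAt.hasFDerivAt.comp_hasDerivAt 0 h3).deriv.symm

/-- The point of the line with given Cox coordinates. -/
def ca {R : Type} (c : Fin 4 → R) : Fin 2 → R := ![c 1, c 3]

/-- The point of the plane with given Cox coordinates. -/
def cb {R : Type} [Mul R] (c : Fin 4 → R) : Fin 3 → R := ![c 2 * c 1, c 2 * c 3, c 0]

/-- Admissible Cox coordinates. -/
def Adm (c : Fin 4 → ℂ) : Prop := ca c ≠ 0 ∧ cb c ≠ 0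

/-- The degrees of the Cox coordinates in the class `a E + b F`. -/
def dj (a b : ℕ) : Fin 4 → ℕ := ![b, a, b - a, a]

lemma exists_dir (s : Fin 4) {c : Fin 4 → ℂ} (h : ca c (ia s) ≠ 0) (h' : cb c (ib s) ≠ 0)
    (v : Fin 2 → ℂ) : ∃ δ : Fin 4 → ℂ, ∀ x : ℂ, ca (fun j => c j + x * δ j) (ia s) ≠ 0 ∧
      cb (fun j => c j + x * δ j) (ib s) ≠ 0 ∧ ∀ i, cv s (ca fun j => c j + x * δ j)
        (cb fun j => c j + x * δ j) i = cv s (ca c) (cb c) i + x * v i := by
  refine ⟨![![v 0 * (c 2 * c 3), v 1 * c 3, 0, 0], ![0, v 0 * c 3, v 1 * c 0 / c 3, 0],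
    ![0, 0, v 0 * c 0 / c 1, v 1 * c 1], ![v 1 * (c 2 * c 1), 0, 0, v 0 * c 1]] s, fun x => ?_⟩
  fin_cases s <;> simp [ca, cb, cv, ia, ib] at h h' ⊢ <;> simp [h, h'] <;> constructor <;>
    first | field_simp [h'.1] | field_simp

lemma hvv_ca (a b : ℕ) (C : Fin 4 → ℂ[X]) (q) :
    hvv a (ca C) q = ca fun j => hv (dj a b j) (C j) q := by
  ext j
  fin_cases j <;> rfl

lemma hvv_cb {a b : ℕ} (hab : a ≤ b) {C : Fin 4 → ℂ[X]} (h : ∀ j, (C j).natDegree ≤ dj a b j) (q) :
    hvv b (cb C) q = cb fun j => hv (dj a b j) (C j) q := by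
  have e : b = b - a + a := by omega
  ext j
  fin_cases j
  · exact (congrArg (hv · _ q) e).trans (hv_mul (h 2) (h 1) q)
  · exact (congrArg (hv · _ q) e).trans (hv_mul (h 2) (h 3) q)
  · rfl

namespace Model

variable (M : Model O)

/-- The sphere with given Cox polynomials. -/
def sph (a b : ℕ) (C : Fin 4 → ℂ[X]) (q : Sphere) : Y :=
  M.mkp (ca fun j => hv (dj a b j) (C j) q) (cb fun j => hv (dj a b j) (C j) q)

lemma cox_spec {c : Fin 4 → ℂ} (h : Adm c) :
    Hom (O (M.mkp (ca c) (cb c))) M.α (ca c) ∧ Hom (O (M.mkp (ca c) (cb c))) M.β (cb c) :=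
  M.mkp_spec h.1 h.2 (by simp [ca, cb]; ring)

variable {a b : ℕ} (hab : a ≤ b)
include hab

lemma holo_sph {E : Type} [NormedAddCommGroup E] [NormedSpace ℂ E] {C : E → Fin 4 → ℂ[X]} {e : E}
    (hd : ∀ x j, (C x j).natDegree ≤ dj a b j)
    (h : ∀ j i, AnalyticAt ℂ (fun x => (C x j).coeff i) e) {q}
    (h0 : Adm fun j => hv (dj a b j) (C e j) q) :
    HoloAt O (fun t : E × ℂ => M.sph a b (C t.1) (param q t.2)) (e, 0) ∧
      ∀ᶠ t : E × ℂ in 𝓝 (e, 0), Adm fun j => hv (dj a b j) (C t.1 j) (param q t.2) := by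
  choose t t0 t1 ht using hl_eq q
  have ea : ∀ x w, (ca fun j => hl (dj a b j) (C x j) q w) =
      t w ^ a • ca fun j => hv (dj a b j) (C x j) (param q w) := fun x w => by
    simp only [ht _ _ _ (hd x _)]
    ext j
    fin_cases j <;> simp [ca, dj]
  have eb : ∀ x w, (cb fun j => hl (dj a b j) (C x j) q w) =
      t w ^ b • cb fun j => hv (dj a b j) (C x j) (param q w) := fun x w => by
    have : t w ^ b = t w ^ (b - a) * t w ^ a := by rw [← pow_add, Nat.sub_add_cancel hab]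
    simp only [ht _ _ _ (hd x _)]
    ext j
    fin_cases j <;> simp [cb, dj] <;> rw [this] <;> ring
  have an := fun j => analyticAt_hl (h j) (dj a b j) q
  have aa : ∀ j, AnalyticAt ℂ
      (fun x : E × ℂ => ca (fun j => hl (dj a b j) (C x.1 j) q x.2) j) (e, 0) := fun j => by
    fin_cases j
    exacts [an 1, an 3]
  have ab : ∀ j, AnalyticAt ℂ
      (fun x : E × ℂ => cb (fun j => hl (dj a b j) (C x.1 j) q x.2) j) (e, 0) := fun j => by
    fin_cases j
    exacts [(an 2).fun_mul (an 1), (an 2).fun_mul (an 3), an 0]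
  have adm : ∀ᶠ t : E × ℂ in 𝓝 (e, 0), Adm fun j => hv (dj a b j) (C t.1 j) (param q t.2) := by
    have h1 := (continuousAt_pi.2 fun j => (aa j).continuousAt).eventually_ne (y := 0)
      (by rw [ea, t1 0 rfl, param_zero]; simpa using h0.1)
    have h2 := (continuousAt_pi.2 fun j => (ab j).continuousAt).eventually_ne (y := 0)
      (by rw [eb, t1 0 rfl, param_zero]; simpa using h0.2)
    filter_upwards [h1, h2] with x p r
    rw [ea] at p
    rw [eb] at r
    exact ⟨right_ne_zero_of_smul p, right_ne_zero_of_smul r⟩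
  refine ⟨M.holo (adm.mono fun x hx => ?_) aa ab, adm⟩
  rw [ea, eb]
  exact ⟨(M.cox_spec hx).1.smul (pow_ne_zero _ (t0 _)), (M.cox_spec hx).2.smul (pow_ne_zero _ (t0 _))⟩

variable {C : Fin 4 → ℂ[X]} (hd : ∀ j, (C j).natDegree ≤ dj a b j)
  (h0 : ∀ q, Adm fun j => hv (dj a b j) (C j) q)
include hd h0

theorem free : IsFree O (M.sph a b C) := by
  intro q D hD
  have hs := M.cox_spec (h0 q)
  obtain ⟨s, s1, s2⟩ := exists_chart hs.1.1 hs.2.1 (M.hom_rel hs.1 hs.2)
  obtain ⟨δ, hδ⟩ := exists_dir s s1 s2 fun i => D (cv s M.α M.β i)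
  let Δ : Fin 4 → ℂ[X] := fun j => q.elim (monomial (dj a b j) (δ j)) fun _ => Polynomial.C (δ j)
  have d1 : ∀ j, (Δ j).natDegree ≤ dj a b j ∧ hv (dj a b j) (Δ j) q = δ j := fun j => by
    induction q using OnePoint.rec with
    | infty => exact ⟨natDegree_monomial_le _, coeff_monomial_same _ _⟩
    | coe z => exact ⟨(natDegree_C _).le.trans (Nat.zero_le _), eval_C⟩
  have d2 : ∀ (x : ℂ) j q', hv (dj a b j) (C j + x • Δ j) q' =
      hv (dj a b j) (C j) q' + x * hv (dj a b j) (Δ j) q' := fun x j q' => by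
    induction q' using OnePoint.rec <;> simp
  have H := fun q' => (M.holo_sph hab (C := fun (x : ℂ) j => C j + x • Δ j) (e := 0) (q := q')
    (fun x j => (natDegree_add_le _ _).trans (max_le (hd j) ((natDegree_smul_le _ _).trans (d1 j).1)))
    (fun j i => by simp only [coeff_add, coeff_smul, smul_eq_mul]; fun_prop)
    (by simpa using h0 q')).1
  have H' : ∀ q', HoloAt O (fun x : ℂ => M.sph a b (fun j => C j + x • Δ j) q') 0 := fun q' => by
    simpa using (H q').comp (t := fun x : ℂ => (x, 0)) (x := 0) (by fun_prop)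
  have T : ∀ q', IsTangent (O (M.sph a b C q')) fun f =>
      deriv (fun x : ℂ => val (O (M.sph a b (fun j => C j + x • Δ j) q')) f) 0 := fun q' => by
    simpa using (H' q').tangent M.isPt
  refine ⟨_, fun f hf => ?_, fun q' => ⟨T q', fun f hf =>
    analyticAt_deriv (H q' f (by simpa using hf)).2⟩⟩
  have e : M.sph a b C q = _ := M.eq_pt hs.1 hs.2 s1 s2
  obtain ⟨P, Q, hQ, hP⟩ := (M.mem _ _ _).1 (e ▸ hf)
  have co := M.co_spec s
    (cv s (ca fun j => hv (dj a b j) (C j) q) (cb fun j => hv (dj a b j) (C j) q))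
  rw [← e] at co
  refine (T q).ext (M.isPt _) hD (fun i => (co i).1) (fun i => ?_) hf ?_ hP
  · have : ∀ x : ℂ, val (O (M.sph a b (fun j => C j + x • Δ j) q)) (cv s M.α M.β i) =
        cv s (ca fun j => hv (dj a b j) (C j) q) (cb fun j => hv (dj a b j) (C j) q) i +
          x * D (cv s M.α M.β i) := fun x => by
      obtain ⟨p1, p2, p3⟩ := hδ x
      have p4 := M.cox_spec (c := fun j => hv (dj a b j) (C j) q + x * δ j)
        ⟨fun e => p1 (congrFun e _), fun e => p2 (congrFun e _)⟩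
      simp only [sph, d2, (d1 _).2]
      rw [M.eq_pt p4.1 p4.2 p1 p2, (M.co_spec _ _ _).2, p3]
    simp [this]
  · rw [((M.isPt _).aeval_mem (fun i => (co i).1) Q).2, funext fun i => (co i).2]
    exact hQ

/-- The polynomials of a sphere. -/
def sdata (u : Sphere → Y) (a b : ℕ) (C : Fin 4 → ℂ[X]) : Data (oneVertex u) :=
  ⟨fun _ => a, fun _ => b, fun _ => ca C, fun _ => cb C⟩

lemma valid_sph : M.Valid (sdata (M.sph a b C) a b C) := by
  refine ⟨fun _ j => ?_, fun _ j => ?_, fun _ q => ?_, fun _ q => ?_⟩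
  · fin_cases j
    exacts [hd 1, hd 3]
  · have h1 := hd 1
    have h2 := hd 2
    have h3 := hd 3
    simp only [dj, Matrix.cons_val] at h1 h2 h3
    fin_cases j
    exacts [natDegree_mul_le.trans (show _ ≤ b by omega),
      natDegree_mul_le.trans (show _ ≤ b by omega), hd 0]
  · exact (hvv_ca a b C q).symm ▸ (M.cox_spec (h0 q)).1
  · exact (hvv_cb hab hd q).symm ▸ (M.cox_spec (h0 q)).2

lemma stable_sph (hb : b ≠ 0) (h1 : ∀ j, (C j).coeff (dj a b j) = 1) :
    IsStable 2 O M.base (a + 2 * b) (oneVertex (M.sph a b C)) := by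
  have V := M.valid_sph hab hd h0
  have e : M.sph a b C ∞ = M.base := by simp [sph, base, ca, cb, h1]
  refine ⟨fun v hv => absurd (Subsingleton.elim (α := Fin 1) _ _) hv, fun _ q => ?_, e,
    fun _ h => ?_, fun _ => (a + 2 * b : ℕ), fun v => M.antiDeg (V.la v) (V.lb v) (V.ha v) (V.hb v),
    Fin.sum_univ_one _⟩
  · exact (M.holo_sph hab (C := fun _ : ℂ => C) (e := 0) (fun _ => hd) (fun _ _ => analyticAt_const)
      (h0 q)).1.comp (t := fun w : ℂ => (0, w)) (x := 0) (by fun_prop)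
  · obtain ⟨q, hq⟩ := exists_zero (hd 0) hb
    obtain ⟨c, -, hc⟩ := (M.cox_spec (h0 q)).2.unique (M.isPt _) M.hβ
      ((h q).trans e ▸ M.base_spec.2 : Hom (O (M.sph a b C q)) M.β _)
    simpa [cb, hq] using congrFun hc 2

end Model

end Pool.Agent.Lib.MP_02acd8_h53
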