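import Pool.Agent.Lib.MP_02acd8_h53.StChart
import Pool.Agent.Lib.MP_02acd8_h53.Fano

open AlgebraicGeometry CategoryTheory HomogeneousLocalization KaehlerDifferential

set_option linter.unusedSectionVars false

noncomputable section

namespace Pool.Agent.Lib.MP_02acd8_h53

lemma exists_equiv {A B K : Type} [CommRing A] [CommRing B] [Field K] (f : A →+* K) (g : B →+* K)
    (hf : Function.Injective f) (hg : Function.Injective g)
    (h : ∀ k, k ∈ g.range ↔ ∃ a, f a = k) : ∃ e : B ≃+* A, ∀ b, f (e b) = g b := by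
  choose e he using fun b : B => (h _).1 ⟨b, rfl⟩
  let e' : B →+* A :=
    { toFun := e
      map_one' := hf (by rw [he, map_one, map_one])
      map_mul' := fun a b => hf (by rw [he, map_mul, map_mul, he, he])
      map_zero' := hf (by rw [he, map_zero, map_zero])
      map_add' := fun a b => hf (by rw [he, map_add, map_add, he, he]) }
  refine ⟨RingEquiv.ofBijective e'
    ⟨fun a b h => hg (by rw [← he, ← he]; exact congrArg _ h), fun p => ?_⟩, he⟩
  obtain ⟨a, ha⟩ := (h _).2 ⟨p, rfl⟩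
  exact ⟨a, hf ((he a).trans ha)⟩

lemma gv_mem (s : Fin 4) : gv s ∈ TG 1 := el_mem _ _ _

lemma gv_ne_zero (s : Fin 4) : gv s ≠ 0 := el_ne_zero _ _ _

lemma vtx_sub : ∀ s t : Fin 4, 0 ≤ rho s (vtx t - vtx s) ∧ 0 ≤ rho (s + 1) (vtx t - vtx s) := by
  decide

lemma m_cone : ∀ s : Fin 4, (0 ≤ rho s (m0 s) ∧ 0 ≤ rho (s + 1) (m0 s)) ∧
    0 ≤ rho s (m1 s) ∧ 0 ≤ rho (s + 1) (m1 s) := by
  decide

namespace TData

variable (T : TData)

/-- The map to the line. -/
def al : Fin 2 → TK := ![chi T.lam ![0, 1], chi T.lam ![0, 0]]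

/-- The map to the plane. -/
def be : Fin 3 → TK := ![chi T.lam ![-1, 1], chi T.lam ![-1, 0], chi T.lam ![0, 0]]

lemma chi_congr {u v : Fin 2 → ℤ} (h0 : u 0 = v 0) (h1 : u 1 = v 1) : chi T.lam u = chi T.lam v := by
  rw [chi_eq, chi_eq _ v, h0, h1]

lemma cv_eq (s : Fin 4) : cv s T.al T.be = T.co s := by
  ext i
  fin_cases s <;> fin_cases i <;> simp only [cv, al, be, co, m0, m1] <;>
    simp [← chi_sub] <;> exact T.chi_congr (by simp) (by simp)

lemma anti_eq (s : Fin 4) :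
    (T.al (ia s) * T.be (ib s) ^ 2)⁻¹ * chi T.lam ![-1, 1] = chi T.lam (-vtx s) := by
  fin_cases s <;> simp only [al, be, ia, ib, vtx, m0, m1] <;>
    simp [sq, ← chi_add, ← chi_neg]

lemma cone_poly (s : Fin 4) {u : Fin 2 → ℤ} (h1 : 0 ≤ rho s u) (h2 : 0 ≤ rho (s + 1) u) :
    chi T.lam u = T.co s 0 ^ (rho s u).toNat * T.co s 1 ^ (rho (s + 1) u).toNat := by
  rw [← zpow_natCast, ← zpow_natCast, Int.toNat_of_nonneg h1, Int.toNat_of_nonneg h2]
  change chi _ u = chi _ _ ^ _ * chi _ _ ^ _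
  rw [← chi_zsmul, ← chi_zsmul, ← chi_add, ← decomp]

lemma mem_R_iff (s : Fin 4) (k : TK) :
    k ∈ R (vtx s) 1 (vtx_mem s) one_pos ↔ ∃ p, MvPolynomial.aeval (R := ℂ) (T.co s) p = k := by
  constructor
  · intro hb
    obtain ⟨F, hF, rfl⟩ := (T.mem_R (vtx_mem s) one_pos k).1 hb
    refine laurent_induction (P := fun F => ∃ p : MvPolynomial (Fin 2) ℂ,
      MvPolynomial.aeval (T.co s) p = T.lam F) ⟨0, by simp⟩ ?_ F fun u hu z => ?_
    · rintro a b ⟨p, hp⟩ ⟨q, hq⟩
      exact ⟨p + q, by rw [map_add, map_add, hp, hq]⟩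
    · obtain ⟨h1, h2⟩ := (inCone_vtx s u).1 (hF u (Finsupp.mem_support_iff.1 hu))
      refine ⟨z • (MvPolynomial.X 0 ^ (rho s u).toNat *
        MvPolynomial.X 1 ^ (rho (s + 1) u).toNat), ?_⟩
      rw [map_smul, map_smul, map_mul, map_pow, map_pow, MvPolynomial.aeval_X,
        MvPolynomial.aeval_X, ← T.cone_poly s h1 h2]
      rfl
  · rintro ⟨p, rfl⟩
    induction p using MvPolynomial.induction_on with
    | C z => exact ⟨_, (T.H.chart_const _ _ _ z).trans (MvPolynomial.aeval_C _ z).symm⟩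
    | add p q hp hq => rw [map_add]; exact add_mem hp hq
    | mul_X p i hp =>
      rw [map_mul, MvPolynomial.aeval_X]
      refine mul_mem hp ?_
      fin_cases i
      · exact T.chi_mem_R _ _ ((inCone_vtx s _).2 (m_cone s).1)
      · exact T.chi_mem_R _ _ ((inCone_vtx s _).2 (m_cone s).2)

lemma co_inj (s : Fin 4) : Function.Injective (MvPolynomial.aeval (R := ℂ) (T.co s)) :=
  aeval_injective_of_frac (xy_injective T.lam T.inj) fun k => by
    obtain ⟨a, b, hb, e⟩ := T.H.frac_chart (el_mem _ _ (vtx_mem s)) one_pos (el_ne_zero _ _ _) k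
    obtain ⟨p, hp⟩ := (T.mem_R_iff s _).1 ⟨a, rfl⟩
    obtain ⟨q, hq⟩ := (T.mem_R_iff s _).1 ⟨b, rfl⟩
    exact ⟨p, q, hq ▸ hb, by rw [hp, hq, e]⟩

lemma exists_iso (s : Fin 4) : ∃ e : Away TG (gv s) ≃+* MvPolynomial (Fin 2) ℂ, ∀ a,
    MvPolynomial.aeval (T.co s) (e a) =
      chartF TG (algebraMap ℂ (TG 0)) (gv_mem s) one_pos (gv_ne_zero s) a :=
  exists_equiv (MvPolynomial.aeval (R := ℂ) (T.co s)).toRingHom _ (T.co_inj s)
    (T.H.chart_injective (gv_mem s) one_pos (gv_ne_zero s)) (T.mem_R_iff s)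

lemma closed_iff (s : Fin 4) (p : PrimeSpectrum (Away TG (gv s))) :
    IsClosed {Proj.awayι TG (gv s) (gv_mem s) one_pos p} ↔ p.asIdeal.IsMaximal := by
  have := toric_proper
  have : JacobsonSpace (Proj TG) :=
    LocallyOfFiniteType.jacobsonSpace (projStr TG (algebraMap ℂ (TG 0)))
  rw [← PrimeSpectrum.isClosed_singleton_iff_isMaximal]
  exact Set.ext_iff.1 (Proj.awayι TG (gv s) (gv_mem s)
    one_pos).isOpenEmbedding.preimage_closedPoints p

include T in
theorem model : Nonempty (Model (closedLoc (projStr TG (algebraMap ℂ (TG 0))))) := by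
  choose e he using T.exists_iso
  let q : ∀ s, (Fin 2 → ℂ) → PrimeSpectrum (Away TG (gv s)) := fun s c =>
    PrimeSpectrum.comap (e s).toRingHom (MvPolynomial.pointToPoint c)
  have hq : ∀ s c a, a ∈ (q s c).asIdeal ↔ MvPolynomial.eval c (e s a) = 0 := fun s c a =>
    MvPolynomial.mem_vanishingIdeal_singleton_iff c (e s a)
  have hmax : ∀ s c, (q s c).asIdeal.IsMaximal := fun s c =>
    haveI := MvPolynomial.isMaximal_iff_eq_vanishingIdeal_singleton.2 ⟨c, rfl⟩
    Ideal.comap_isMaximal_of_surjective (e s).toRingHom (e s).surjective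
      (K := MvPolynomial.vanishingIdeal ℂ {c})
  let pt : Fin 4 → (Fin 2 → ℂ) → {x : Proj TG // IsClosed ({x} : Set (Proj TG))} := fun s c =>
    ⟨_, (closed_iff s _).2 (hmax s c)⟩
  have hpt : ∀ (y : {x : Proj TG // IsClosed ({x} : Set (Proj TG))}) s,
      gv s ∉ y.1.asHomogeneousIdeal → ∃ c, y = pt s c := by
    rintro ⟨y, hy⟩ s hs
    obtain ⟨p, rfl⟩ := exists_away (gv_mem s) one_pos hs
    have h1 := (closed_iff s p).1 hy
    obtain ⟨c, hc⟩ := MvPolynomial.isMaximal_iff_eq_vanishingIdeal_singleton.1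
      (Ideal.comap_isMaximal_of_surjective (e s).symm.toRingHom (e s).symm.surjective
        (K := p.asIdeal))
    have : p = q s c := PrimeSpectrum.ext (Ideal.ext fun a => by
      change _ ↔ e s a ∈ MvPolynomial.vanishingIdeal ℂ {c}
      rw [← hc, Ideal.mem_comap]
      exact iff_of_eq (congrArg (· ∈ p.asIdeal) ((e s).symm_apply_apply a).symm))
    exact ⟨c, Subtype.ext (congrArg (Proj.awayι TG (gv s) (gv_mem s) one_pos) this)⟩
  refine ⟨⟨T.al, T.be, chi T.lam ![-1, 1] • wedge (dlx T.lam) (dly T.lam), pt, fun i => ?_,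
    fun i => ?_, ?_, fun y => ?_, fun y s h => hpt y s ?_, fun s => T.cv_eq s ▸ T.co_inj s,
    fun s c k => ?_, fun s c => ?_⟩⟩
  · fin_cases i <;> exact chi_ne_zero _ _
  · fin_cases i <;> exact chi_ne_zero _ _
  · simp only [al, be]
    simp [← chi_add]
  · obtain ⟨s, hs⟩ := toric_cover y.1
    exact ⟨s, hpt y s hs⟩
  · obtain ⟨t, ht⟩ := toric_cover y.1
    rw [T.cv_eq] at h
    refine (T.H.unit_iff (el_mem _ _ (vtx_mem s)) (el_mem _ _ (vtx_mem t)) ht).1
      ⟨chi T.lam (vtx t - vtx s), ?_, ?_⟩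
    · rw [T.cone_poly s (u := vtx t - vtx s) (vtx_sub s t).1 (vtx_sub s t).2]
      exact mul_mem (pow_mem (h 0) _) (pow_mem (h 1) _)
    · rw [T.φ_el, T.φ_el, ← chi_sub, ← chi_add, sub_add_sub_cancel, sub_self, chi_zero]
  · rw [T.cv_eq]
    refine (T.H.loc_away_iff (gv_mem s) one_pos (gv_ne_zero s) (q s c) k).trans ⟨?_, ?_⟩
    · rintro ⟨a, b, hb, h⟩
      exact ⟨e s a, e s b, fun H => hb ((hq s c b).2 H), by rw [he, he, h]⟩
    · rintro ⟨P, Q, hQ, h⟩
      obtain ⟨a, rfl⟩ := (e s).surjective P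
      obtain ⟨b, rfl⟩ := (e s).surjective Q
      exact ⟨a, b, fun H => hQ ((hq s c b).1 H), by rw [← he, ← he, h]⟩
  · obtain ⟨-, ⟨b, hb⟩, hc⟩ := T.chart s
    rw [smul_smul, T.anti_eq, ← T.wedge_co]
    refine (hc _ (away_notMem _ _ _)).generates ?_
    rw [wedgeD_eq, ← hb, ← hb]
    exact wedge_ne_zero b

end TData

end Pool.Agent.Lib.MP_02acd8_h53
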