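import Pool.Agent.Lib.MP_02acd8_h53.StMain
import Pool.Agent.Lib.MP_02acd8_h53.StModel
import Pool.Agent.Lib.MP_02acd8_h53.Final

open AlgebraicGeometry

noncomputable section

namespace Pool.Agent.Lib.MP_02acd8_h53

theorem periodCondition : PeriodCondition (projStr TG (algebraMap ℂ (TG 0))) mirror := by
  obtain ⟨T⟩ := nonempty_TData
  obtain ⟨M⟩ := T.model
  refine ⟨fun d => ∑ b ∈ Finset.range (d / 2 + 1), gval (d - 2 * b) b, fun d => M.descendant, ?_⟩
  ext d
  rw [period, map_add, PowerSeries.coeff_mk, PowerSeries.coeff_mk, coeff_mirror_pow,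
    PowerSeries.coeff_one]
  rcases d with _ | _ | d
  · simp [gval]
  · simp [gval]
  · rw [if_neg (by omega), if_neg (by omega), zero_add]

theorem main_full : ∃ _ : IsIntegral (toricVar mirror),
    IsFano 2 (toricStr mirror) ∧ hOneOne (loc (toricStr mirror)) = 2 ∧
    PeriodCondition (toricStr mirror) mirror ∧
    ∃ (Y : Scheme.{0}) (_ : IsIntegral Y) (w : Y ⟶ Line),
      IsCYCompactification mirror w ∧ ∀ c, IsIrreducible (fibre w c) := by
  obtain ⟨T⟩ := nonempty_TData
  exact ⟨toric_integral, T.fano, T.hOneOne_toric, periodCondition,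
    Proj PG, pencil_integral, pw, pencil_CY, fibre_irreducible⟩

end Pool.Agent.Lib.MP_02acd8_h53
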