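import Pool.Agent.Lib.MP_02acd8_h53.StDefs

open Filter Topology OnePoint Polynomial

noncomputable section

namespace Pool.Agent.Lib.MP_02acd8_h53

instance decEqSphere : DecidableEq Sphere := Classical.decEq _

/-- Homogeneous coordinates of a point of the sphere. -/
def rep (q : Sphere) : Fin 2 → ℂ := q.elim ![1, 0] fun z => ![z, 1]

/-- The linear form vanishing at `w`, evaluated at `q`. -/
def br (q w : Sphere) : ℂ := rep q 0 * rep w 1 - rep q 1 * rep w 0

@[simp] lemma br_cc (z w : ℂ) : br z w = z - w := by simp [br, rep]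
@[simp] lemma br_ci (z : ℂ) : br z ∞ = -1 := by simp [br, rep]
@[simp] lemma br_ic (w : ℂ) : br ∞ w = 1 := by simp [br, rep]
@[simp] lemma br_ii : br ∞ ∞ = 0 := by simp [br, rep]

lemma br_eq_zero {q w : Sphere} : br q w = 0 ↔ q = w := by
  induction q using OnePoint.rec <;> induction w using OnePoint.rec <;> simp [sub_eq_zero]

lemma rep_smul (φ : Mob) (q : Sphere) : ∃ j : ℂ, j ≠ 0 ∧
    φ 0 0 * rep q 0 + φ 0 1 * rep q 1 = j * rep (φ • q) 0 ∧
    φ 1 0 * rep q 0 + φ 1 1 * rep q 1 = j * rep (φ • q) 1 := by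
  have hd := φ.det_ne_zero
  rw [Matrix.det_fin_two] at hd
  induction q using OnePoint.rec with
  | infty =>
    rw [smul_infty_eq_ite]
    split_ifs with h
    · exact ⟨φ 0 0, fun e => hd (by simp [e, h]), by simp [rep], by simp [rep, h]⟩
    · exact ⟨φ 1 0, h, by simp [rep]; field_simp, by simp [rep]⟩
  | coe z =>
    rw [smul_some_eq_ite]
    split_ifs with h
    · refine ⟨φ 0 0 * z + φ 0 1, fun e => hd ?_, by simp [rep], by simp [rep, h]⟩
      linear_combination (φ 0 0 : ℂ) * h - φ 1 0 * e
    · exact ⟨φ 1 0 * z + φ 1 1, h, by simp [rep, mul_div_cancel₀ _ h], by simp [rep]⟩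

lemma br_smul (φ : Mob) : ∃ κ μ : Sphere → ℂ, (∀ q, κ q ≠ 0) ∧ (∀ q, μ q ≠ 0) ∧
    ∀ q w, br (φ • q) w = κ q * μ w * br q (φ⁻¹ • w) := by
  choose j hj h0 h1 using rep_smul φ
  have hd := φ.det_ne_zero
  refine ⟨fun q => (j q)⁻¹, fun w => φ.val.det / j (φ⁻¹ • w), fun q => inv_ne_zero (hj q),
    fun w => div_ne_zero hd (hj _), fun q w => ?_⟩
  obtain ⟨w, rfl⟩ : ∃ w', w = φ • w' := ⟨φ⁻¹ • w, (smul_inv_smul _ _).symm⟩
  simp only [inv_smul_smul]
  have := hj q
  have := hj w
  field_simp
  rw [Matrix.det_fin_two, br, br]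
  linear_combination -(j w * rep (φ • w) 1) * h0 q - (φ 0 0 * rep q 0 + φ 0 1 * rep q 1) * h1 w +
    (j w * rep (φ • w) 0) * h1 q + (φ 1 0 * rep q 0 + φ 1 1 * rep q 1) * h0 w

/-- The form with the given zeros. -/
def pb (W : Multiset Sphere) (q : Sphere) : ℂ := (W.map (br q)).prod

lemma pb_add (W W' q) : pb (W + W') q = pb W q * pb W' q := by simp [pb]

lemma pb_ne_zero {W q} : pb W q ≠ 0 ↔ q ∉ W := by
  simp only [pb, Ne, Multiset.prod_eq_zero_iff, Multiset.mem_map, br_eq_zero]
  simp

/-- `g` is a form with zeros `W`. -/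
def IsForm (g : Sphere → ℂ) (W : Multiset Sphere) : Prop := ∃ c : ℂ, c ≠ 0 ∧ ∀ q, g q = c * pb W q

lemma IsForm.ne_zero {g W} (h : IsForm g W) {q} : g q ≠ 0 ↔ q ∉ W := by
  obtain ⟨c, hc, e⟩ := h
  rw [e, ← pb_ne_zero]
  simp [hc]

lemma IsForm.mul {g W g' W'} (h : IsForm g W) (h' : IsForm g' W') :
    IsForm (fun q => g q * g' q) (W + W') := by
  obtain ⟨c, hc, e⟩ := h
  obtain ⟨c', hc', e'⟩ := h'
  exact ⟨c * c', mul_ne_zero hc hc', fun q => by simp only [e, e', pb_add]; ring⟩

lemma isForm_pb (W) : IsForm (pb W) W := ⟨1, one_ne_zero, by simp⟩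

/-- The value at `q` of the form of degree `n` with dehomogenisation `P`. -/
def hv (n : ℕ) (P : ℂ[X]) (q : Sphere) : ℂ := q.elim (P.coeff n) fun z => P.eval z

@[simp] lemma hv_coe (n P) (z : ℂ) : hv n P z = P.eval z := rfl
@[simp] lemma hv_infty (n P) : hv n P ∞ = P.coeff n := rfl

/-- Its zeros. -/
def zr (n : ℕ) (P : ℂ[X]) : Multiset Sphere :=
  P.roots.map (↑) + Multiset.replicate (n - P.natDegree) ∞

lemma card_zr {n P} (h : P.natDegree ≤ n) : (zr n P).card = n := by
  simp only [zr, Multiset.card_add, Multiset.card_map, Multiset.card_replicate,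
    IsAlgClosed.card_roots_eq_natDegree]
  omega

lemma isForm_hv {n P} (h : P.natDegree ≤ n) (h0 : P ≠ 0) : IsForm (hv n P) (zr n P) := by
  refine ⟨P.leadingCoeff * (-1) ^ (n - P.natDegree),
    mul_ne_zero (leadingCoeff_ne_zero.2 h0) (by simp), fun q => ?_⟩
  induction q using OnePoint.rec with
  | infty =>
    rcases h.eq_or_lt with rfl | h
    · simp [zr, pb]
    · rw [hv_infty, coeff_eq_zero_of_natDegree_lt h, eq_comm, mul_eq_zero]
      refine Or.inr (not_not.1 fun H => pb_ne_zero.1 H ?_)
      simp [zr, Multiset.mem_replicate]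
      omega
  | coe z =>
    have := congrArg (eval z) (IsAlgClosed.splits P).eq_prod_roots
    rw [hv_coe, this, zr, pb_add]
    simp only [pb, Multiset.map_map, Multiset.map_replicate, Multiset.prod_replicate, br_ci,
      eval_mul, eval_C, eval_multiset_prod, Function.comp_def, br_cc, eval_sub, eval_X]
    rw [mul_mul_mul_comm, ← mul_pow]
    simp

/-- The polynomial of a point. -/
def lin (w : Sphere) : ℂ[X] := w.elim (-1) fun z => X - C z

lemma lin_ne_zero (w) : lin w ≠ 0 := by
  induction w using OnePoint.rec with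
  | infty => simp [lin]
  | coe z => exact X_sub_C_ne_zero z

lemma eval_lin (w) (z : ℂ) : (lin w).eval z = br z w := by
  induction w using OnePoint.rec <;> simp [lin]

lemma count_roots_lin (W : Multiset Sphere) (z : ℂ) :
    (W.map lin).prod ≠ 0 ∧ (W.map lin).prod.roots.count z = W.count (z : Sphere) := by
  induction W using Multiset.induction_on with
  | empty => simp
  | cons w W ih =>
    rw [Multiset.map_cons, Multiset.prod_cons]
    have h := mul_ne_zero (lin_ne_zero w) ih.1
    refine ⟨h, ?_⟩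
    rw [roots_mul h, Multiset.count_add, ih.2, Multiset.count_cons, add_comm]
    congr 1
    induction w using OnePoint.rec with
    | infty => simp [lin]
    | coe w => simp [lin, Multiset.count_singleton]

lemma form_unique {W W' : Multiset Sphere} {c c' : ℂ} (hc : c ≠ 0) (hcard : W.card = W'.card)
    {S : Set ℂ} (hS : S.Finite) (h : ∀ z : ℂ, z ∉ S → c * pb W z = c' * pb W' z) : W = W' := by
  have e : C c * (W.map lin).prod = C c' * (W'.map lin).prod := by
    refine eq_of_infinite_eval_eq _ _ (hS.infinite_compl.mono fun z hz => ?_)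
    simpa [eval_multiset_prod, eval_lin, pb] using h z hz
  have hc' : c' ≠ 0 := by
    rintro rfl
    rw [map_zero, zero_mul, mul_eq_zero, C_eq_zero] at e
    exact e.elim hc (count_roots_lin W 0).1
  have h1 : ∀ z : ℂ, W.count (z : Sphere) = W'.count (z : Sphere) := fun z => by
    rw [← (count_roots_lin W z).2, ← (count_roots_lin W' z).2, ← roots_C_mul _ hc, e,
      roots_C_mul _ hc']
  have h2 : W.filter (· ≠ ∞) = W'.filter (· ≠ ∞) := by
    ext q
    induction q using OnePoint.rec with
    | infty => simp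
    | coe z => simp [h1]
  ext q
  induction q using OnePoint.rec with
  | coe z => exact h1 z
  | infty =>
    have a := congrArg Multiset.card (Multiset.filter_add_not (· ≠ ∞) W)
    have b := congrArg Multiset.card (Multiset.filter_add_not (· ≠ ∞) W')
    simp only [Multiset.card_add, not_not, Multiset.filter_eq', Multiset.card_replicate] at a b
    rw [h2] at a
    omega

/-- The affine coordinate. -/
def toC (q : Sphere) : ℂ := q.elim 0 id

/-- The coordinate at infinity. -/
def iv (q : Sphere) : ℂ := q.elim 0 fun z => z⁻¹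

lemma tendsto_toC (z : ℂ) : Tendsto toC (𝓝 (z : Sphere)) (𝓝 z) := by
  rw [nhds_coe_eq, tendsto_map'_iff]
  exact tendsto_id

lemma tendsto_iv : Tendsto iv (𝓝 ∞) (𝓝 0) := by
  rw [tendsto_nhds_infty', coclosedCompact_eq_cocompact, ← Metric.cobounded_eq_cocompact]
  exact ⟨tendsto_pure_nhds iv ∞, tendsto_inv₀_cobounded⟩

lemma coe_toC {q : Sphere} (h : q ≠ ∞) : (toC q : Sphere) = q := by
  induction q using OnePoint.rec with
  | infty => exact absurd rfl h
  | coe z => rfl

lemma br_limit {ι : Type} {l : Filter ι} {w : ι → Sphere} {w0 : Sphere} (h : Tendsto w l (𝓝 w0)) :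
    ∃ m : ι → ℂ, (∀ i, m i ≠ 0) ∧ ∀ z : ℂ, Tendsto (fun i => m i * br z (w i)) l (𝓝 (br z w0)) := by
  induction w0 using OnePoint.rec with
  | coe z0 =>
    refine ⟨fun _ => 1, fun _ => one_ne_zero, fun z => ?_⟩
    have h1 : ∀ᶠ i in l, w i ≠ ∞ := h.eventually_ne (coe_ne_infty z0)
    rw [br_cc]
    refine (((tendsto_toC z0).comp h).const_sub z).congr' (h1.mono fun i hi => ?_)
    simp only [one_mul, Function.comp]
    conv_rhs => rw [← coe_toC hi, br_cc]
  | infty =>
    refine ⟨fun i => (w i).elim 1 fun z => if z = 0 then 1 else z⁻¹, fun i => ?_, fun z => ?_⟩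
    · dsimp only
      induction w i using OnePoint.rec with
      | infty => simp
      | coe z => by_cases hz : z = 0 <;> simp [hz]
    have h1 : ∀ᶠ i in l, w i ≠ (0 : ℂ) := h.eventually_ne (infty_ne_coe 0)
    have h2 := ((tendsto_iv.comp h).const_mul z).sub_const 1
    rw [mul_zero, zero_sub] at h2
    rw [br_ci]
    refine h2.congr' (h1.mono fun i hi => ?_)
    revert hi
    simp only [Function.comp]
    induction w i using OnePoint.rec with
    | infty => simp [iv]
    | coe y =>
      intro hi
      have : y ≠ 0 := fun e => hi (by rw [e])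
      simp only [iv, elim_some, if_neg this, br_cc]
      field_simp

/-- Indexing of a multiset. -/
lemma exists_index {α : Type} [Inhabited α] (W : Multiset α) :
    ∃ w : ℕ → α, W = (Multiset.range W.card).map w := by
  induction W using Quotient.inductionOn with
  | h L =>
    refine ⟨fun i => L.getD i default, ?_⟩
    change (L : Multiset α) = Multiset.map _ (List.range L.length : Multiset ℕ)
    rw [Multiset.map_coe]
    congr 1
    apply List.ext_getElem
    · simp
    · intro i h1 h2
      simp [List.getD_eq_getElem?_getD, h1]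

lemma pb_range (n : ℕ) (w : ℕ → Sphere) (q) :
    pb ((Multiset.range n).map w) q = ∏ i ∈ Finset.range n, br q (w i) := by
  rw [pb, Multiset.map_map]
  rfl

lemma count_range {α : Type} [DecidableEq α] (n : ℕ) (w : ℕ → α) (q : α) :
    ((Multiset.range n).map w).count q = ((Finset.range n).filter fun i => q = w i).card := by
  rw [Multiset.count_map]
  rfl

end Pool.Agent.Lib.MP_02acd8_h53
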