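import Pool.Agent.Lib.MP_02acd8_h53.StTree

open Filter Topology OnePoint Polynomial Bornology

set_option linter.unusedSectionVars false

noncomputable section

namespace Pool.Agent.Lib.MP_02acd8_h53

@[simp] lemma param_zero (q : Sphere) : param q 0 = q := by
  induction q using OnePoint.rec <;> simp [param]

@[simp] lemma param_coe (z w : ℂ) : param z w = ((z + w : ℂ) : Sphere) := rfl

lemma param_infty {w : ℂ} (h : w ≠ 0) : param ∞ w = ((w⁻¹ : ℂ) : Sphere) := by simp [param, h]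

lemma entire_poly (n : ℕ) : ∀ (h : ℂ → ℂ) (L : ℂ), Differentiable ℂ h →
    Tendsto (fun z => h z / z ^ n) (cobounded ℂ) (𝓝 L) →
    ∃ P : ℂ[X], P.natDegree ≤ n ∧ P.coeff n = L ∧ ∀ z, P.eval z = h z := by
  induction n with
  | zero =>
    intro h L hd ht
    rw [Metric.cobounded_eq_cocompact] at ht
    exact ⟨C L, by simp, by simp, fun z => by
      rw [eval_C, hd.apply_eq_of_tendsto_cocompact z (by simpa using ht)]⟩
  | succ n ih =>
    intro h L hd ht
    have h1 : Differentiable ℂ (dslope h 0) := differentiableOn_univ.1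
      ((Complex.differentiableOn_dslope univ_mem).2 hd.differentiableOn)
    have h2 : ∀ z, z * dslope h 0 z = h z - h 0 := fun z => by simpa using sub_smul_dslope h 0 z
    have h3 := ht.sub ((tendsto_inv₀_cobounded.pow (n + 1)).const_mul (h 0))
    rw [zero_pow (by omega), mul_zero, sub_zero] at h3
    obtain ⟨P, p1, p2, p3⟩ := ih _ L h1 (h3.congr' (by
      filter_upwards [eventually_ne_cobounded (0 : ℂ)] with z hz
      rw [eq_div_of_mul_eq hz ((mul_comm _ _).trans (h2 z)), inv_pow, div_div, ← pow_succ',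
        sub_div, div_eq_mul_inv (h 0)]))
    refine ⟨X * P + C (h 0), ?_, by simp [coeff_X_mul, p2], fun z => by simp [p3, h2]⟩
    refine (natDegree_add_le _ _).trans (max_le (natDegree_mul_le.trans ?_) (by simp))
    rw [natDegree_X]
    omega

variable {ι : Type} [Fintype ι] [DecidableEq ι]

theorem gaga_pure (v : Sphere → ι → ℂ) (h0 : ∀ q, v q ≠ 0)
    (H : ∀ q i, v q i ≠ 0 → (∀ᶠ w in 𝓝 0, v (param q w) i ≠ 0) ∧
      ∀ j, AnalyticAt ℂ (fun w => v (param q w) j / v (param q w) i) 0) :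
    ∃ (n : ℕ) (P : ι → ℂ[X]), (∀ j, (P j).natDegree ≤ n) ∧
      ∀ q, ∃ c : ℂ, c ≠ 0 ∧ hvv n P q = c • v q := by
  classical
  choose i hi using fun q => Function.ne_iff.1 (h0 q)
  replace hi : ∀ q, v q (i q) ≠ 0 := hi
  have hfin : ∀ z : ℂ, (∀ᶠ y : ℂ in 𝓝 z, v y (i z) ≠ 0) ∧
      ∀ j, AnalyticAt ℂ (fun y : ℂ => v y j / v y (i z)) z := by
    intro z
    have hc : Tendsto (fun y => y - z) (𝓝 z) (𝓝 0) := by
      simpa using (continuous_sub_right z).tendsto z
    refine ⟨by simpa using hc.eventually (H z _ (hi z)).1, fun j => ?_⟩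
    have := ((H z _ (hi z)).2 j).comp_of_eq (f := fun y => y - z) (x := z) (by fun_prop) (sub_self z)
    simpa [Function.comp_def] using this
  have hinf : (∀ᶠ y : ℂ in cobounded ℂ, v y (i ∞) ≠ 0) ∧
      ∀ j, Tendsto (fun y : ℂ => v y j / v y (i ∞)) (cobounded ℂ) (𝓝 (v ∞ j / v ∞ (i ∞))) := by
    have e : ∀ᶠ y : ℂ in cobounded ℂ, param ∞ y⁻¹ = y :=
      (eventually_ne_cobounded (0 : ℂ)).mono fun y hy => by rw [param_infty (inv_ne_zero hy), inv_inv]
    refine ⟨?_, fun j => ?_⟩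
    · filter_upwards [tendsto_inv₀_cobounded.eventually (H ∞ _ (hi ∞)).1, e] with y h1 h2
      rwa [h2] at h1
    · have := ((H ∞ _ (hi ∞)).2 j).continuousAt.tendsto.comp tendsto_inv₀_cobounded
      rw [param_zero] at this
      exact this.congr' (e.mono fun y hy => by simp [hy])
  have hT : ∀ z : ℂ, ¬ ∀ᶠ y : ℂ in 𝓝 z, v y (i ∞) = 0 := by
    have hcl : IsClopen {z : ℂ | ∀ᶠ y : ℂ in 𝓝 z, v y (i ∞) = 0} := by
      refine ⟨isClosed_of_closure_subset fun z hz => ?_, isOpen_setOfPred_eventually_nhds⟩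
      rcases ((hfin z).2 (i ∞)).eventually_eq_zero_or_eventually_ne_zero with h | h
      · filter_upwards [h, (hfin z).1] with y h1 h2
        simpa [h2] using h1
      · obtain ⟨y, hy, hy'⟩ := mem_closure_iff_nhds.1 hz _ (eventually_nhdsWithin_iff.1 h).eventually_nhds
        by_cases e : y = z
        · exact e ▸ hy'
        obtain ⟨t, h1, h2⟩ := ((hy.and hy').and (eventually_ne_nhds e)).exists
        exact absurd (by rw [h1.2, zero_div]) (h1.1 h2)
    rcases isClopen_iff.1 hcl with h | h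
    · exact fun z hz => (h ▸ hz : z ∈ (∅ : Set ℂ))
    · obtain ⟨y, hy⟩ := hinf.1.exists
      exact absurd (Eventually.self_of_nhds (h ▸ Set.mem_univ y :
        y ∈ {z : ℂ | ∀ᶠ y : ℂ in 𝓝 z, v y (i ∞) = 0})) hy
  have hord : ∀ z : ℂ, ∃ (m : ℕ) (g : ℂ → ℂ), AnalyticAt ℂ g z ∧ g z ≠ 0 ∧
      ∀ᶠ y : ℂ in 𝓝 z, v y (i ∞) / v y (i z) = (y - z) ^ m • g y := fun z =>
    ((hfin z).2 (i ∞)).exists_eventuallyEq_pow_smul_nonzero_iff.2 fun h => hT z (by
      filter_upwards [h, (hfin z).1] with y h1 h2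
      simpa [h2] using h1)
  choose m g hg hg0 hm using hord
  have hiso : ∀ z : ℂ, ∀ᶠ y : ℂ in 𝓝 z, y ≠ z → v y (i ∞) ≠ 0 := fun z => by
    filter_upwards [hm z, (hg z).continuousAt.eventually_ne (hg0 z)] with y h1 h2 h3 h4
    rw [h4, zero_div] at h1
    exact smul_ne_zero (pow_ne_zero _ (sub_ne_zero.2 h3)) h2 h1.symm
  have hS : {z : ℂ | v z (i ∞) = 0}.Finite := by
    have hb : IsBounded {z : ℂ | v z (i ∞) = 0} := by
      rw [isBounded_def]
      exact hinf.1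
    obtain ⟨t, -, ht⟩ := hb.isCompact_closure.elim_nhds_subcover
      (fun z => {y | y ≠ z → v y (i ∞) ≠ 0}) fun z _ => hiso z
    refine t.finite_toSet.subset fun y hy => ?_
    obtain ⟨z, hz, h⟩ := Set.mem_iUnion₂.1 (ht (subset_closure hy))
    by_contra e
    exact h (fun e' => e (e' ▸ hz)) hy
  let S := hS.toFinset
  have hm0 : ∀ y : ℂ, v y (i ∞) ≠ 0 → g y y = v y (i ∞) / v y (i y) := fun y hy => by
    have := (hm y).self_of_nhds
    rcases Nat.eq_zero_or_pos (m y) with e | e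
    · simpa [e] using this.symm
    · rw [sub_self, zero_pow e.ne', zero_smul] at this
      exact absurd this (div_ne_zero hy (hi y))
  let c : ℂ → ℂ := fun z => (∏ y ∈ S.erase z, (z - y) ^ m y) / g z z / v z (i z)
  have hc : ∀ z, c z ≠ 0 := fun z => div_ne_zero (div_ne_zero (Finset.prod_ne_zero_iff.2
    fun y hy => pow_ne_zero _ (sub_ne_zero.2 (Finset.ne_of_mem_erase hy).symm)) (hg0 z)) (hi z)
  have hc' : ∀ z : ℂ, v z (i ∞) ≠ 0 → c z = (∏ y ∈ S, (z - y) ^ m y) / v z (i ∞) := fun z hz => by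
    have := hi z
    simp only [c]
    rw [Finset.erase_eq_of_notMem (by simpa [S] using hz), hm0 z hz]
    field_simp
  have hd : ∀ j, Differentiable ℂ fun z => c z * v z j := by
    intro j z
    have h1 : AnalyticAt ℂ (fun y => (∏ x ∈ S.erase z, (y - x) ^ m x) / g z y *
        (v y j / v y (i z))) z :=
      ((Finset.analyticAt_fun_prod _ fun x _ => by fun_prop).div (hg z) (hg0 z)).mul
        ((hfin z).2 j)
    refine h1.differentiableAt.congr_of_eventuallyEq ?_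
    filter_upwards [hiso z, hm z, (hfin z).1, (hg z).continuousAt.eventually_ne (hg0 z)]
      with y a b d e
    by_cases hy : y = z
    · subst hy
      simp only [c]
      ring
    have a' := a hy
    have f : (∏ x ∈ S, (y - x) ^ m x) = (y - z) ^ m z * ∏ x ∈ S.erase z, (y - x) ^ m x := by
      by_cases hz : z ∈ S
      · exact (Finset.mul_prod_erase _ _ hz).symm
      have hz' : v z (i ∞) ≠ 0 := by simpa [S] using hz
      have := (hm z).self_of_nhds
      rcases Nat.eq_zero_or_pos (m z) with e | e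
      · rw [e, pow_zero, one_mul, Finset.erase_eq_of_notMem hz]
      · rw [sub_self, zero_pow e.ne', zero_smul] at this
        exact absurd this (div_ne_zero hz' (hi z))
    rw [hc' y a', f, (div_eq_iff d).1 b, smul_eq_mul]
    have := pow_ne_zero (m z) (sub_ne_zero.2 hy)
    field_simp
  have hl : ∀ j, Tendsto (fun z => c z * v z j / z ^ (∑ y ∈ S, m y)) (cobounded ℂ)
      (𝓝 (v ∞ j / v ∞ (i ∞))) := by
    intro j
    have h1 := (tendsto_finsetProd S fun y _ =>
      ((tendsto_inv₀_cobounded.const_mul y).const_sub 1).pow (m y)).mul (hinf.2 j)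
    simp only [mul_zero, sub_zero, one_pow, Finset.prod_const_one, one_mul] at h1
    refine h1.congr' ?_
    filter_upwards [hinf.1, eventually_ne_cobounded (0 : ℂ)] with z a b
    have : ∀ y, (1 - y * z⁻¹) ^ m y = (z - y) ^ m y / z ^ m y := fun y => by
      rw [← div_pow]
      congr 1
      field_simp
    simp only [this, Finset.prod_div_distrib, Finset.prod_pow_eq_pow_sum, hc' z a]
    ring
  choose P p1 p2 p3 using fun j => entire_poly _ _ _ (hd j) (hl j)
  refine ⟨_, P, p1, fun q => ?_⟩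
  induction q using OnePoint.rec with
  | infty => exact ⟨(v ∞ (i ∞))⁻¹, inv_ne_zero (hi _), funext fun j => by
      simp [hvv, p2, div_eq_inv_mul]⟩
  | coe z => exact ⟨c z, hc z, funext fun j => by simp [hvv, p3]⟩

variable {K : Type} [Field K] [Algebra ℂ K]

/-- A local ring with residue field `ℂ`. -/
structure IsPt (O : Subring K) : Prop where
  const : ∀ c, algebraMap ℂ K c ∈ O
  val_const : ∀ c, val O (algebraMap ℂ K c) = c
  val_add : ∀ {f g}, f ∈ O → g ∈ O → val O (f + g) = val O f + val O g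
  val_mul : ∀ {f g}, f ∈ O → g ∈ O → val O (f * g) = val O f * val O g
  unit : ∀ {f}, f ∈ O → (val O f ≠ 0 ↔ ∃ g ∈ O, f * g = 1)

lemma isPt_of_ev {O : Subring K} (ev : K → ℂ) (h0 : ∀ c, algebraMap ℂ K c ∈ O)
    (h1 : ∀ c, ev (algebraMap ℂ K c) = c) (h2 : ∀ f ∈ O, ∀ g ∈ O, ev (f + g) = ev f + ev g)
    (h3 : ∀ f ∈ O, ∀ g ∈ O, ev (f * g) = ev f * ev g)
    (h4 : ∀ f ∈ O, ev f ≠ 0 ↔ ∃ g ∈ O, f * g = 1) : IsPt O ∧ ∀ f ∈ O, val O f = ev f := by
  have key : ∀ f ∈ O, ∀ c, (¬ ∃ g ∈ O, (f - algebraMap ℂ K c) * g = 1) ↔ c = ev f := by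
    intro f hf c
    rw [← h4 _ (sub_mem hf (h0 c)), not_not, sub_eq_add_neg, ← map_neg, h2 _ hf _ (h0 _), h1,
      add_neg_eq_zero, eq_comm]
  have hv : ∀ f ∈ O, val O f = ev f := fun f hf =>
    (key f hf _).1 (Classical.epsilon_spec
      (p := fun c : ℂ => ¬ ∃ g ∈ O, (f - algebraMap ℂ K c) * g = 1) ⟨ev f, (key f hf _).2 rfl⟩)
  refine ⟨⟨h0, fun c => by rw [hv _ (h0 c), h1], fun hf hg => ?_, fun hf hg => ?_, fun hf => ?_⟩, hv⟩
  · rw [hv _ (add_mem hf hg), hv _ hf, hv _ hg, h2 _ hf _ hg]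
  · rw [hv _ (mul_mem hf hg), hv _ hf, hv _ hg, h3 _ hf _ hg]
  · rw [hv _ hf, h4 _ hf]

namespace IsPt

variable {O : Subring K} (h : IsPt O)
include h

lemma val_one : val O 1 = 1 := by simpa using h.val_const 1

lemma val_zero : val O 0 = 0 := by simpa using h.val_const 0

lemma val_pow {f} (hf : f ∈ O) (n : ℕ) : val O (f ^ n) = val O f ^ n := by
  induction n with
  | zero => simp [h.val_one]
  | succ n ih => rw [pow_succ, h.val_mul (pow_mem hf n) hf, ih, pow_succ]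

lemma inv_mem {f} (hf : f ∈ O) (h0 : val O f ≠ 0) : f⁻¹ ∈ O ∧ val O f⁻¹ = (val O f)⁻¹ := by
  obtain ⟨g, hg, e⟩ := (h.unit hf).1 h0
  have := h.val_mul hf hg
  rw [e, h.val_one] at this
  rw [← eq_inv_of_mul_eq_one_right e]
  exact ⟨hg, eq_inv_of_mul_eq_one_right this.symm⟩

lemma ne_zero {f} (h0 : val O f ≠ 0) : f ≠ 0 := fun e => h0 (by rw [e, h.val_zero])

lemma aeval_mem {t : Fin 2 → K} (ht : ∀ i, t i ∈ O) (P : MvPolynomial (Fin 2) ℂ) :
    MvPolynomial.aeval t P ∈ O ∧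
      val O (MvPolynomial.aeval t P) = MvPolynomial.eval (fun i => val O (t i)) P := by
  induction P using MvPolynomial.induction_on with
  | C z => simpa using ⟨h.const z, h.val_const z⟩
  | add p q hp hq =>
    rw [map_add, map_add, h.val_add hp.1 hq.1, hp.2, hq.2]
    exact ⟨add_mem hp.1 hq.1, rfl⟩
  | mul_X p i hp =>
    rw [map_mul, map_mul, MvPolynomial.aeval_X, h.val_mul hp.1 (ht i), hp.2, MvPolynomial.eval_X]
    exact ⟨mul_mem hp.1 (ht i), rfl⟩

end IsPt

/-- `v` is a vector of homogeneous coordinates of the point of `O` under the map `γ`. -/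
def Hom (O : Subring K) (γ : ι → K) (v : ι → ℂ) : Prop :=
  v ≠ 0 ∧ ∀ i, v i ≠ 0 → ∀ j, γ j / γ i ∈ O ∧ val O (γ j / γ i) = v j / v i

namespace Hom

variable {O : Subring K} {γ : ι → K} {v v' : ι → ℂ}

lemma smul (h : Hom O γ v) {c : ℂ} (hc : c ≠ 0) : Hom O γ (c • v) :=
  ⟨smul_ne_zero hc h.1, fun i hi j => by
    have := h.2 i (right_ne_zero_of_mul hi) j
    exact ⟨this.1, by rw [this.2, Pi.smul_apply, Pi.smul_apply, smul_eq_mul, smul_eq_mul,
      mul_div_mul_left _ _ hc]⟩⟩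

lemma ne_of_mem (hO : IsPt O) (hγ : ∀ i, γ i ≠ 0) (h : Hom O γ v) {i} (H : ∀ j, γ j / γ i ∈ O) :
    v i ≠ 0 := by
  obtain ⟨j, hj⟩ := Function.ne_iff.1 h.1
  have h1 := h.2 j hj i
  have h2 := (hO.unit h1.1).2 ⟨_, H j, by have := hγ i; have := hγ j; field_simp⟩
  rw [h1.2] at h2
  exact (div_ne_zero_iff.1 h2).1

lemma unique (hO : IsPt O) (hγ : ∀ i, γ i ≠ 0) (h : Hom O γ v) (h' : Hom O γ v') :
    ∃ c : ℂ, c ≠ 0 ∧ v' = c • v := by
  obtain ⟨i, hi⟩ := Function.ne_iff.1 h.1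
  replace hi : v i ≠ 0 := hi
  have hi' := h'.ne_of_mem hO hγ fun j => (h.2 i hi j).1
  refine ⟨v' i / v i, div_ne_zero hi' hi, funext fun j => ?_⟩
  have := ((h.2 i hi j).2.symm.trans (h'.2 i hi' j).2)
  rw [Pi.smul_apply, smul_eq_mul]
  field_simp at this ⊢
  linear_combination -this

end Hom

variable {Y : Type} {O : Y → Subring K} (hO : ∀ y, IsPt (O y)) {γ : ι → K} (hγ : ∀ i, γ i ≠ 0)
include hO hγ

lemma near_ratio {α : Type} {l : Filter α} {g : α → Y} {v : α → ι → ℂ}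
    (hv : ∀ a, Hom (O (g a)) γ (v a)) {i} (H : ∀ j, ∀ᶠ a in l, γ j / γ i ∈ O (g a)) :
    ∀ᶠ a in l, v a i ≠ 0 ∧ ∀ j, val (O (g a)) (γ j / γ i) = v a j / v a i :=
  (eventually_all.2 H).mono fun a ha =>
    ⟨(hv a).ne_of_mem (hO _) hγ ha, fun j => ((hv a).2 i ((hv a).ne_of_mem (hO _) hγ ha) j).2⟩

lemma Conv.ratio {α : Type} {l : Filter α} {g : α → Y} {y : Y} (h : Conv O l g y) {v : α → ι → ℂ}
    (hv : ∀ a, Hom (O (g a)) γ (v a)) {v0} (h0 : Hom (O y) γ v0) {i} (hi : v0 i ≠ 0) :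
    (∀ᶠ a in l, v a i ≠ 0) ∧ ∀ j, Tendsto (fun a => v a j / v a i) l (𝓝 (v0 j / v0 i)) := by
  have := near_ratio hO hγ hv fun j => (h _ (h0.2 i hi j).1).1
  refine ⟨this.mono fun _ h => h.1, fun j => ?_⟩
  rw [← (h0.2 i hi j).2]
  exact (h _ (h0.2 i hi j).1).2.congr' (this.mono fun _ h => h.2 j)

theorem gaga {u : Sphere → Y} (hu : ∀ q, HoloAt O (fun w => u (param q w)) 0)
    (hex : ∀ y, ∃ v, Hom (O y) γ v) :
    ∃ (n : ℕ) (P : ι → ℂ[X]), (∀ j, (P j).natDegree ≤ n) ∧ ∀ q, Hom (O (u q)) γ (hvv n P q) := by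
  choose v hv using hex
  obtain ⟨n, P, h1, h2⟩ := gaga_pure (fun q => v (u q)) (fun q => (hv _).1) fun q i hi => by
    have h0 := (hv (u q)).2 i hi
    have h3 := fun j => hu q (γ j / γ i) (by simpa using (h0 j).1)
    have := near_ratio hO hγ (fun w => hv (u (param q w))) fun j => (h3 j).1
    exact ⟨this.mono fun _ h => h.1, fun j => (h3 j).2.congr (this.mono fun _ h => h.2 j)⟩
  refine ⟨n, P, h1, fun q => ?_⟩
  obtain ⟨c, hc, e⟩ := h2 q
  exact e ▸ (hv _).smul hc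

end Pool.Agent.Lib.MP_02acd8_h53
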