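import Pool.Agent.Lib.MP_02acd8_h53.StBd

open Filter Topology OnePoint Polynomial

set_option linter.unusedSectionVars false

noncomputable section

namespace Pool.Agent.Lib.MP_02acd8_h53

variable {K : Type} [Field K] [Algebra ℂ K] {Y : Type} {O : Y → Subring K}

lemma ultra_const {𝒰 : Ultrafilter ℕ} {g : ℕ → ℕ} {d : ℕ} (h : ∀ i, g i ≤ d) :
    ∃ c, ∀ᶠ i in 𝒰, g i = c := by
  obtain ⟨c, hc⟩ := (Ultrafilter.eventually_exists_iff (f := 𝒰)
    (P := fun (c : Fin (d + 1)) i => g i = c)).1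
    (Eventually.of_forall fun i => ⟨⟨g i, Nat.lt_succ_of_le (h i)⟩, rfl⟩)
  exact ⟨c, hc⟩

lemma roots_limit {𝒰 : Ultrafilter ℕ} {W : ℕ → Multiset ℂ} {W0 : Multiset ℂ} {φ : ℕ → Mob}
    {a b : ℕ → ℂ} (hφ : ∀ i (w : ℂ), (φ i)⁻¹ • (w : Sphere) = ((a i * w + b i : ℂ) : Sphere))
    {n : ℕ} (h : ∃ (w : ℕ → ℕ → Sphere) (L : ℕ → Sphere),
      (∀ᶠ i in 𝒰, (W i).map (↑) = (Multiset.range n).map (w i)) ∧
      W0.map (↑) = (Multiset.range n).map L ∧
      ∀ k, Tendsto (fun i => (φ i)⁻¹ • w i k) 𝒰 (𝓝 (L k))) :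
    ∃ (w : ℕ → ℕ → ℂ) (L : ℕ → ℂ),
      (∀ᶠ i in 𝒰, (W i).map (fun z => a i * z + b i) = (Multiset.range n).map (w i)) ∧
      W0 = (Multiset.range n).map L ∧ ∀ k, Tendsto (fun i => w i k) 𝒰 (𝓝 (L k)) := by
  obtain ⟨w, L, h1, h2, h3⟩ := h
  refine ⟨fun i k => if k < n then toC ((φ i)⁻¹ • w i k) else 0,
    fun k => if k < n then toC (L k) else 0, h1.mono fun i hi => ?_, ?_, fun k => ?_⟩
  · have := congrArg (Multiset.map fun q => toC ((φ i)⁻¹ • q)) hi
    simp only [Multiset.map_map, Function.comp_def, hφ] at this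
    exact this.trans (Multiset.map_congr rfl fun k hk => (if_pos (Multiset.mem_range.1 hk)).symm)
  · have := congrArg (Multiset.map toC) h2
    simp only [Multiset.map_map, Function.comp_def] at this
    exact ((Multiset.map_id' W0).symm.trans this).trans
      (Multiset.map_congr rfl fun k hk => (if_pos (Multiset.mem_range.1 hk)).symm)
  · dsimp only
    split_ifs with hk
    · obtain ⟨z, -, hz⟩ := Multiset.mem_map.1
        (h2 ▸ Multiset.mem_map_of_mem L (Multiset.mem_range.2 hk))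
      have := h3 k
      rw [← hz] at this ⊢
      exact (tendsto_toC z).comp this
    · exact tendsto_const_nhds

lemma Conv.comp {ι κ : Type} {l : Filter ι} {l' : Filter κ} {g : ι → Y} {y : Y} (h : Conv O l g y)
    {t : κ → ι} (ht : Tendsto t l' l) : Conv O l' (fun i => g (t i)) y :=
  fun f hf => ⟨ht.eventually (h f hf).1, (h f hf).2.comp ht⟩

namespace Model

variable {M : Model O} {d : ℕ}

theorem data_limit {A : ℕ → PreMap Y} {B : PreMap Y} {φ : ℕ → Fin (B.len + 1) → Mob}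
    {D : ∀ i, Data (A i)} {D0 : Data B} (V : ∀ i, M.Valid (D i)) (V0 : M.Valid D0)
    (S : ∀ i, IsStable 2 O M.base d (A i)) (S0 : IsStable 2 O M.base d B)
    (G : GromovTo O A B φ) {𝒰 : Ultrafilter ℕ} (hU : (𝒰 : Filter ℕ) ≤ atTop) :
    (∀ᶠ i in 𝒰, sub (A i) (D i).na 0 = sub B D0.na 0 ∧ sub (A i) (D i).nb 0 = sub B D0.nb 0) ∧
      Tendsto (fun i => φ i 0 1 1 / φ i 0 0 0 * ctr (D i).cfg + -(φ i 0 0 1 / φ i 0 0 0)) 𝒰
        (𝓝 (ctr D0.cfg)) ∧
      ∀ j k, Tendsto (fun i => (φ i 0 1 1 / φ i 0 0 0) ^ k * tc (D i).cfg j k) 𝒰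
        (𝓝 (tc D0.cfg j k)) := by
  obtain ⟨f, g0, g1, g2⟩ := G
  have H : Lim 𝒰 A B f φ := by
    refine ⟨fun v hv => (S0.1 v hv).2.2, fun v hv h x z hx => ?_, fun v hv h => ?_⟩
    · have := ((g2 v hv).1 z).comp (Tendsto.prodMk (tendsto_id'.2 (le_inf hU (le_principal_iff.2 h)))
        ((tendsto_toC z).comp hx))
      refine this.congr' ((hx.eventually_ne (coe_ne_infty z)).mono fun i hi => ?_)
      simp [coe_toC hi]
    · have := (g2 v hv).2.2.mono_left (le_inf hU (le_principal_iff.2 h))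
      exact ⟨h.mono (g2 v hv).2.1, (continuous_fst.tendsto _).comp this,
        (continuous_snd.tendsto _).comp this⟩
  have conv : ∀ v (z : ℂ), (∀ w ∈ kids B v, B.node w ≠ z) →
      Conv O (𝒰 : Filter ℕ) (fun i => (A i).maps (f i v) (φ i v • (z : Sphere))) (B.maps v z) := by
    intro v z hz
    have t : Tendsto (fun i : ℕ => (i, z)) 𝒰 (atTop ×ˢ 𝓝 z) :=
      Tendsto.prodMk (tendsto_id'.2 hU) tendsto_const_nhds
    have := (g1 v z fun w h1 h2 => hz w (mem_kids.2 ⟨h1, h2⟩)).comp t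
    exact this
  have tot := fun i => (V i).total (S i)
  obtain ⟨a, ha⟩ := ultra_const (𝒰 := 𝒰) (g := fun i => sub (A i) (D i).na 0) (d := d)
    fun i => by have := tot i; omega
  obtain ⟨b, hb⟩ := ultra_const (𝒰 := 𝒰) (g := fun i => sub (A i) (D i).nb 0) (d := d)
    fun i => by have := tot i; omega
  obtain ⟨a1, a2⟩ := tree_limit H (fun i => (V i).goodA (S i)) (V0.goodA S0) ha fun v z hz j hj =>
    (conv v z hz).ratio M.isPt M.hα (fun i => (V i).ha _ _) (V0.ha v z) hj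
  obtain ⟨b1, b2⟩ := tree_limit H (fun i => (V i).goodB (S i)) (V0.goodB S0) hb fun v z hz j hj =>
    (conv v z hz).ratio M.isPt M.hβ (fun i => (V i).hb _ _) (V0.hb v z) hj
  obtain ⟨i, hi, hi'⟩ := (ha.and hb).exists
  have t1 := tot i
  have t2 := V0.total S0
  obtain rfl : sub B D0.na 0 = a := by omega
  obtain rfl : sub B D0.nb 0 = b := by omega
  have hφ := fun i w => (inv_smul_coe (g0 i).2 w).2.2
  have ra := fun j => roots_limit (W := fun i => rt (A i) (D i).na (D i).Pa j)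
    (W0 := rt B D0.na D0.Pa j) hφ (by
      simpa only [(g0 _).1, tw_eq_rt ((V _).degA (S _) j).2, tw_eq_rt (V0.degA S0 j).2] using
        a2 rfl (LinearMap.proj j) (lp_proj j (D0.Pa 0) ▸ (V0.degA S0 j).1))
  have rb := fun j => roots_limit (W := fun i => rt (A i) (D i).nb (D i).Pb j)
    (W0 := rt B D0.nb D0.Pb j) hφ (by
      simpa only [(g0 _).1, tw_eq_rt ((V _).degB (S _) j).2, tw_eq_rt (V0.degB S0 j).2] using
        b2 rfl (LinearMap.proj j) (lp_proj j (D0.Pb 0) ▸ (V0.degB S0 j).1))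
  have : ∀ j, ∃ (w : ℕ → ℕ → ℂ) (L : ℕ → ℂ), (∀ᶠ i in 𝒰, ((D i).cfg j).map
      (fun z => φ i 0 1 1 / φ i 0 0 0 * z + -(φ i 0 0 1 / φ i 0 0 0)) =
      (Multiset.range (sz (sub B D0.na 0) (sub B D0.nb 0) j)).map (w i)) ∧
      D0.cfg j = (Multiset.range (sz (sub B D0.na 0) (sub B D0.nb 0) j)).map L ∧
      ∀ k, Tendsto (fun i => w i k) 𝒰 (𝓝 (L k)) := by
    intro j
    fin_cases j
    exacts [rb 2, ra 0, rb 0, ra 1]
  choose w L h1 h2 h3 using this
  have hc : ∀ i, ((D i).cfg 0).card ≠ 0 := fun i => (V i).card_cfg (S i) 0 ▸ (V i).b_pos (S i)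
  rw [funext h2]
  refine ⟨ha.and hb, ?_, fun j k => (tc_tendsto _ (w := fun i j => w j i) h3 j k).congr' ?_⟩
  · refine Tendsto.congr' (f₁ := fun i => ctr fun j =>
      (Multiset.range (sz (sub B D0.na 0) (sub B D0.nb 0) j)).map (w j i)) ?_ ?_
    · filter_upwards [eventually_all.2 h1] with i hi
      rw [← funext hi, ctr_affine (hc i)]
    · simp only [ctr, Multiset.card_map]
      exact (tendsto_multiset_sum _ fun k _ => h3 0 k).div_const _
  · filter_upwards [eventually_all.2 h1] with i hi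
    rw [← funext hi, tc_affine (hc i)]

lemma gromov_single {u u' : Sphere → Y} {φ : Mob} (h : Repar u u' φ)
    (hu : ∀ q, HoloAt O (fun w => u' (param q w)) 0) {B : PreMap Y} (hn : B.len = 0)
    (hB : B.maps 0 = u') : GromovTo O (fun _ => oneVertex u) B fun _ _ => φ := by
  have h0 : ∀ v : Fin (B.len + 1), v = 0 := fun v => Fin.ext (by have := v.2; simp; omega)
  refine ⟨fun _ _ => 0, fun _ => ⟨rfl, h.1⟩, fun v z _ r hr => ?_, fun v hv => absurd (h0 v) hv⟩
  rw [h0 v, hB] at hr ⊢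
  have t : Tendsto (fun t : ℕ × ℂ => t.2 - z) (atTop ×ˢ 𝓝 z) (𝓝 0) := by
    simpa using (tendsto_snd (f := (atTop : Filter ℕ)) (g := 𝓝 z)).sub_const z
  have := hu z r (by simpa using hr)
  exact ⟨by simpa [oneVertex, h.2] using t.eventually this.1,
    by simpa [oneVertex, h.2, Function.comp_def] using this.2.continuousAt.tendsto.comp t⟩

theorem data_repar {u : Sphere → Y} {B : PreMap Y} {φ : Mob} (h : Repar u (B.maps 0) φ) (hn : B.len = 0)
    {D : Data (oneVertex u)} {D0 : Data B} (V : M.Valid D) (V0 : M.Valid D0)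
    (S : IsStable 2 O M.base d (oneVertex u)) (S0 : IsStable 2 O M.base d B) :
    (sub _ D.na 0 = sub B D0.na 0 ∧ sub _ D.nb 0 = sub B D0.nb 0) ∧
      φ 1 1 / φ 0 0 * ctr D.cfg + -(φ 0 1 / φ 0 0) = ctr D0.cfg ∧
      ∀ j k, (φ 1 1 / φ 0 0) ^ k * tc D.cfg j k = tc D0.cfg j k := by
  obtain ⟨h1, h2, h3⟩ := data_limit (D := fun _ => D) (fun _ => V) V0 (fun _ => S) S0
    (gromov_single h (S0.2.1 0) hn rfl) (Ultrafilter.of_le atTop)
  exact ⟨h1.exists.choose_spec, tendsto_nhds_unique tendsto_const_nhds h2,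
    fun j k => tendsto_nhds_unique tendsto_const_nhds (h3 j k)⟩

end Model

end Pool.Agent.Lib.MP_02acd8_h53
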