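import Pool.Agent.Lib.MP_02acd8_h53.StZero
import Pool.Agent.Lib.MP_02acd8_h53.GW

open Filter Topology OnePoint Polynomial

set_option linter.unusedSectionVars false

noncomputable section

namespace Pool.Agent.Lib.MP_02acd8_h53

variable {K : Type} [Field K] [Algebra ℂ K] {Y : Type} {O : Y → Subring K}

lemma eval_mp_affine (R : Multiset ℂ) (t m z : ℂ) :
    (mp (R.map fun w => t * w + m)).eval (t * z + m) = t ^ R.card * (mp R).eval z := by
  induction R using Multiset.induction_on with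
  | empty => simp [mp]
  | cons w R ih =>
    simp only [mp, Multiset.map_cons, Multiset.prod_cons, eval_mul, Multiset.card_cons] at ih ⊢
    rw [ih]
    simp only [eval_sub, eval_X, eval_C]
    ring

lemma eval_eq_mp {P : ℂ[X]} {n : ℕ} (h : P.natDegree = n) (z : ℂ) :
    P.eval z = P.coeff n * (mp P.roots).eval z := by
  conv_lhs => rw [(IsAlgClosed.splits P).eq_prod_roots]
  rw [eval_mul, eval_C, leadingCoeff, h, mp]

lemma mp_add (R R' : Multiset ℂ) : mp (R + R') = mp R * mp R' := by simp [mp]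

lemma cp_eq_mp {d a b : ℕ} (h : a + 2 * b = d) {s : Fin (d - 2) → ℂ} {R : Fin 4 → Multiset ℂ}
    (hR : ∀ j, (R j).card = dj a b j) (h0 : ctr R = 0)
    (ht : ∀ l : Ix d, tc (mcf R) l.1 (l.2 + 1) = tv a b s l) (j) : cp a b s j = mp (R j) := by
  have hd := (natDegree_mp (R j)).trans (hR j)
  refine (ext_iff_natDegree_le (cp_spec s j).1 hd.le).2 fun i hi => ?_
  rcases hi.eq_or_lt with rfl | hi
  · rw [(cp_spec s j).2.1, ← hd]
    exact (mp_monic _).symm
  · have hle : dj a b j ≤ d := by fin_cases j <;> simp [dj] <;> omega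
    have h1 := (cp_spec (a := a) (b := b) s j).2.2 ⟨dj a b j - i - 1, by omega⟩ (by
      show dj a b j - i - 1 < _
      omega)
    have h2 := ht (j, ⟨dj a b j - i - 1, by omega⟩)
    rw [tc_mcf, h0, hR, if_pos (by show dj a b j - i - 1 + 1 ≤ dj a b j; omega)] at h2
    simp only [sub_zero, Multiset.map_id', show dj a b j - (dj a b j - i - 1 + 1) = i by omega]
      at h1 h2
    rw [h1, h2]

namespace Model

variable (M : Model O) {d : ℕ}

theorem zero_main {A : PreMap Y} (S : IsStable 2 O M.base d A) (h0 : M.sig d A = 0) :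
    A.len = 0 ∧ ∃ (a b : ℕ) (h : a + 2 * b = d) (_ : a ≤ b) (hb : b ≠ 0) (s : Fin (d - 2) → ℂ),
      (∀ i, s i ^ ex (en d a b i) = gp d a b (j0 a, ⟨0, by omega⟩) i) ∧
      ∃ φ, Repar (M.sph a b (cp a b s)) (A.maps 0) φ := by
  classical
  obtain ⟨D, V, e⟩ := M.sig_eq S
  rw [h0] at e
  have hn : A.len = 0 := by
    by_contra hn
    obtain ⟨s, h1, h2⟩ := V.few S hn
    exact (avoid d _ _).choose_spec.2 (V.total S) (V.b_pos S) _ (V.card_cfg S) (V.two S) s h1 h2
      e.symm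
  have hk : kids A 0 = ∅ := Finset.eq_empty_of_forall_notMem fun w hw =>
    (mem_kids.1 hw).1 (Fin.ext (by have := w.2; simp; omega))
  have ha : sub A D.na 0 = D.na 0 := by rw [(V.ord S).sub_eq, hk]; simp
  have hb' : sub A D.nb 0 = D.nb 0 := by rw [(V.ord S).sub_eq, hk]; simp
  have h := V.total S
  have hb := V.b_pos S
  have hab := V.na_le S
  rw [ha, hb'] at h e
  rw [hb'] at hb
  set a := D.na 0
  set b := D.nb 0
  let R : Fin 4 → Multiset ℂ := ![(D.Pb 0 2).roots, (D.Pa 0 0).roots,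
    (D.Pb 0 0).roots - (D.Pa 0 0).roots, (D.Pa 0 1).roots]
  have hR : D.cfg = mcf R := by
    ext1 j
    fin_cases j <;> simp [Data.cfg, rt, hk, mcf, R, Multiset.sub_add_cancel (V.roots_le S)]
  have cR : ∀ j, (R j).card = dj a b j := fun j => by
    fin_cases j <;> simp [R, dj, Multiset.card_sub (V.roots_le S),
      IsAlgClosed.card_roots_eq_natDegree, (V.degA S _).2, (V.degB S _).2, a, b]
  have hT : ∀ l : Ix d, ¬ IsFreeIx a b l → l ≠ (j0 a, ⟨0, by omega⟩) →
      tc (mcf R) l.1 (l.2 + 1) = 0 := by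
    rintro ⟨j, k⟩ h1 h2
    by_cases hk : k < dj a b j
    · obtain ⟨h3, h4 | h4⟩ := not_not.1 (not_and.1 h1 hk)
      · simp only at h3 h4
        rw [h3, h4]
        exact tc_center (cR 0 ▸ hb)
      · exact absurd (Prod.ext h4 (Fin.ext h3)) h2
    · rw [tc_mcf, cR, if_neg (by show ¬ k + 1 ≤ dj a b j; omega)]
  have hE := fun i => (congrFun e i).trans (lin2_main h hab hb _ (fun l h1 h2 => by
    rw [tt, hR, hT l h1 h2, zero_pow (ex_ne_zero l)]) i)
  simp only [Pi.zero_apply, eq_comm (a := (0 : ℂ)), sub_eq_zero, hR, tt, zero_add] at hE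
  set t := tc (mcf R) (j0 a) 1 with ht
  have t0 : t ≠ 0 := fun t0 => V.two S _ (eq_of_tt (d := d) (fun j => by
    rw [V.card_cfg S, ha, hb']
    fin_cases j <;> simp [sz] <;> omega) fun l => by
      rw [hR, tt]
      by_cases h1 : IsFreeIx a b l
      · obtain ⟨i, rfl⟩ := ((en_spec h hab hb).2.1 l).2 h1
        rw [hE, t0, zero_pow (ex_ne_zero _), mul_zero]
      · by_cases h2 : l = (j0 a, ⟨0, by omega⟩)
        · rw [h2]
          exact (congrArg (· ^ _) t0).trans (zero_pow (ex_ne_zero _))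
        · rw [hT l h1 h2, zero_pow (ex_ne_zero l)])
  let s : Fin (d - 2) → ℂ := fun i =>
    (1 / t) ^ ((en d a b i).2 + 1 : ℕ) * tc (mcf R) (en d a b i).1 ((en d a b i).2 + 1)
  let R' : Fin 4 → Multiset ℂ := fun j => (R j).map fun w => 1 / t * w + -(ctr R / t)
  have c0 : (R 0).card ≠ 0 := cR 0 ▸ hb
  have e1 : mcf R' = fun j => (mcf R j).map fun w => 1 / t * w + -(ctr R / t) := by
    ext1 j
    fin_cases j <;> simp [mcf, R']
  have e2 : ∀ j, cp a b s j = mp (R' j) := cp_eq_mp h (fun j => by simp [R', cR])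
    (by rw [ctr_affine c0]; ring) fun l => by
      rw [e1, tc_affine (W := mcf R) c0]
      by_cases h1 : IsFreeIx a b l
      · obtain ⟨i, rfl⟩ := ((en_spec h hab hb).2.1 l).2 h1
        rw [tv_en h hab hb]
      · rw [tv_other h hab hb s h1]
        split_ifs with h2
        · rw [h2.1, h2.2, ← ht, zero_add, pow_one, one_div_mul_cancel t0]
        · rw [hT l h1 fun H => h2 (by simp [H]), mul_zero]
  let ψ : Mob := Matrix.GeneralLinearGroup.mkOfDetNeZero !![t, ctr R; 0, 1] (by simpa using t0)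
  have p1 : ψ • (∞ : Sphere) = ∞ := smul_infty_eq_self_iff.2 rfl
  have p2 : ψ⁻¹ • (∞ : Sphere) = ∞ := inv_smul_eq_iff.2 p1.symm
  refine ⟨hn, a, b, h, hab, hb, s, fun i => ?_, ψ⁻¹, p2, fun q => ?_⟩
  · have := ex_mul (d := d) (j0 a, ⟨0, by omega⟩)
    rw [mul_pow, hE, ← pow_mul, ex_mul, ← this]
    simp only [zero_add, one_mul]
    rw [mul_left_comm, ← mul_pow, one_div_mul_cancel t0, one_pow, mul_one]
  induction q using OnePoint.rec with
  | infty =>
    rw [p2, S.2.2.1]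
    simp [sph, base, ca, cb, (cp_spec s _).2.1]
  | coe z =>
    obtain ⟨c, c', hc, hc', l1, l2⟩ := V.lead S
    have q1 := fun z j => eval_eq_mp (V.degA S j).2 z
    have q2 := fun z j => eval_eq_mp (V.degB S j).2 z
    simp only [l1, l2] at q1 q2
    have q3 : ∀ z, (mp (D.Pb 0 0).roots).eval z = (mp (R 2)).eval z * (mp (R 1)).eval z := by
      intro z
      rw [← eval_mul, ← mp_add]
      exact congrArg (fun r => (mp r).eval z) (Multiset.sub_add_cancel (V.roots_le S)).symm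
    have q4 : D.Pb 0 1 = C c' * (mp (R 2) * mp (R 3)) := by
      refine mul_left_cancel₀ (V.degA S 0).1 ((V.rel S).trans (Polynomial.funext fun z => ?_))
      simp only [eval_mul, q1, q2 z 0, q3, eval_C, R, Matrix.cons_val]
      ring
    have hw : ψ⁻¹ • (z : Sphere) = ((1 / t * z + -(ctr R / t) : ℂ) : Sphere) :=
      (inv_smul_coe p1 z).2.2
    have hz : (fun j => hv (dj a b j) (cp a b s j) (ψ⁻¹ • (z : Sphere))) =
        fun j => (1 / t) ^ dj a b j * (mp (R j)).eval z := funext fun j => by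
      rw [hw, hv_coe, e2, eval_mp_affine, cR]
    have t1 := one_div_ne_zero t0
    have H1 : Hom (O (A.maps 0 z)) M.α (ca fun j => (1 / t) ^ dj a b j * (mp (R j)).eval z) := by
      convert (V.ha 0 z).smul (div_ne_zero (pow_ne_zero a t1) hc) using 1
      ext j
      fin_cases j <;> simp [ca, hvv, q1, dj, R] <;> field_simp
    have H2 : Hom (O (A.maps 0 z)) M.β (cb fun j => (1 / t) ^ dj a b j * (mp (R j)).eval z) := by
      have : (1 / t) ^ b = (1 / t) ^ (b - a) * (1 / t) ^ a := by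
        rw [← pow_add, Nat.sub_add_cancel hab]
      convert (V.hb 0 z).smul (div_ne_zero (pow_ne_zero b t1) hc') using 1
      have r0 : (D.Pb 0 0).eval z = c' * ((mp (R 2)).eval z * (mp (R 1)).eval z) := by rw [q2, q3]
      have r1 : (D.Pb 0 1).eval z = c' * ((mp (R 2)).eval z * (mp (R 3)).eval z) := by simp [q4]
      have r2 : (D.Pb 0 2).eval z = c' * (mp (R 0)).eval z := q2 z 2
      generalize 1 / t = x at this ⊢
      clear_value R
      ext j
      fin_cases j <;> simp [cb, hvv, dj, r0, r1, r2] <;> try rw [this]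
      all_goals field_simp
    have H := M.cox_spec ⟨H1.1, H2.1⟩
    rw [sph, hz]
    exact M.ext H.1 H.2 H1 H2

lemma card_roots {n : ℕ} (hn : n ≠ 0) {g : ℂ} (hg : g ≠ 0) : (nthRootsFinset n g).card = n := by
  classical
  have h := Complex.isPrimitiveRoot_exp n hn
  rw [nthRootsFinset_def, Multiset.toFinset_card_eq_card_iff_nodup.2 (h.nthRoots_nodup hg),
    h.card_nthRoots, if_pos (IsAlgClosed.exists_pow_nat_eq g (Nat.pos_of_ne_zero hn))]

include M in
theorem descendant (hd : 2 ≤ d) :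
    Descendant 2 O d (∑ b ∈ Finset.range (d / 2 + 1), gval (d - 2 * b) b) := by
  classical
  let I := ((Finset.range (d / 2 + 1)).filter fun b => d - 2 * b ≤ b).sigma fun b =>
    Fintype.piFinset fun i => nthRootsFinset (ex (en d (d - 2 * b) b i))
      (gp d (d - 2 * b) b (j0 (d - 2 * b), ⟨0, by omega⟩) i)
  let F : (Σ _ : ℕ, Fin (d - 2) → ℂ) → Sphere → Y := fun x =>
    M.sph (d - 2 * x.1) x.1 (cp (d - 2 * x.1) x.1 x.2)
  have hI : ∀ x, x ∈ I ↔ (d - 2 * x.1 + 2 * x.1 = d ∧ d - 2 * x.1 ≤ x.1 ∧ x.1 ≠ 0) ∧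
      ∀ i, x.2 i ^ ex (en d (d - 2 * x.1) x.1 i) =
        gp d (d - 2 * x.1) x.1 (j0 (d - 2 * x.1), ⟨0, by omega⟩) i := fun x => by
    simp only [I, Finset.mem_sigma, Finset.mem_filter, Finset.mem_range, Fintype.mem_piFinset,
      mem_nthRootsFinset (Nat.pos_of_ne_zero (ex_ne_zero _))]
    exact and_congr_left' (by omega)
  have inj : ∀ x ∈ I, ∀ y ∈ I, ∀ φ, Repar (F x) (F y) φ → x = y := by
    rintro ⟨b, s⟩ hx ⟨b', s'⟩ hy φ R
    obtain ⟨⟨h1, h2, h3⟩, h4⟩ := (hI _).1 hx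
    obtain ⟨⟨h1', h2', h3'⟩, h4'⟩ := (hI _).1 hy
    obtain ⟨rfl, rfl, -⟩ := M.repar_cp h1 h2 h3 h1' h2' h3' (adm_cp h1 h2 h3 h4)
      (adm_cp h1' h2' h3' h4') R
    rfl
  refine ⟨M.base, d.factorial, M.sig d, I.image F, d.factorial_pos, M.isSection, fun u hu => ?_,
    fun A S => ⟨fun h0 => ?_, ?_⟩, ?_⟩
  · obtain ⟨x, hx, rfl⟩ := Finset.mem_image.1 hu
    obtain ⟨⟨h1, h2, h3⟩, h4⟩ := (hI _).1 hx
    refine ⟨M.simple h1 h2 h3 h4, fun u' hu' φ R => ?_⟩
    obtain ⟨y, hy, rfl⟩ := Finset.mem_image.1 hu'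
    rw [inj x hx y hy φ R]
  · obtain ⟨hn, a, b, h, hab, hb, s, hs, R⟩ := M.zero_main S h0
    obtain rfl : a = d - 2 * b := by omega
    exact ⟨hn, _, Finset.mem_image_of_mem F ((hI ⟨b, s⟩).2 ⟨⟨h, hab, hb⟩, hs⟩), R⟩
  · rintro ⟨hn, u, hu, φ, R⟩
    obtain ⟨x, hx, rfl⟩ := Finset.mem_image.1 hu
    obtain ⟨⟨h1, h2, h3⟩, h4⟩ := (hI _).1 hx
    have h5 := adm_cp h1 h2 h3 h4
    have := M.isSection _ A _ (fun _ => M.stable_cp h1 h2 h3 h5) S
      (gromov_single R (S.2.1 0) hn rfl)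
    rw [show M.sig d (oneVertex (F x)) = 0 from
      funext fun i => (M.sig_cp h1 h2 h3 h5 i).trans (sub_eq_zero.2 (h4 i)), smul_zero] at this
    exact tendsto_nhds_unique this tendsto_const_nhds
  · rw [Finset.card_image_of_injOn fun x hx y hy e => inj x hx y hy 1
      ⟨one_smul _ _, fun q => by rw [one_smul, e]⟩, Finset.card_sigma, Nat.cast_sum,
      Finset.sum_div, Finset.sum_filter]
    refine Finset.sum_congr rfl fun b hb => if_ctx_congr Iff.rfl (fun hab => ?_) fun _ => rfl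
    have h : d - 2 * b + 2 * b = d := by
      rw [Finset.mem_range] at hb
      omega
    have h1 := (en_spec h hab (by omega)).2.2
    have h2 : (∏ i, ((en d (d - 2 * b) b i).2.1 + 1)) * ∏ i, ex (en d (d - 2 * b) b i) =
        d.factorial ^ (d - 2) := by
      simp [← Finset.prod_mul_distrib, ex_mul]
    rw [Fintype.card_piFinset, Finset.prod_congr rfl fun i _ =>
      card_roots (g := gp d _ b _ i) (ex_ne_zero _) ((avoid d _ b).choose_spec.1 _ i),
      ← Nat.cast_pow d.factorial, ← h2, h1]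
    have h3 : ((∏ i, ex (en d (d - 2 * b) b i) : ℕ) : ℚ) ≠ 0 :=
      Nat.cast_ne_zero.2 (Finset.prod_ne_zero_iff.2 fun i _ => ex_ne_zero _)
    rw [Nat.cast_mul, div_mul_cancel_right₀ h3, one_div]
    simp [Fin.prod_univ_four, dj]
    ring

end Model

end Pool.Agent.Lib.MP_02acd8_h53
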