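import Pool.Agent.Lib.MP_02acd8_h53.StFam

open Filter Topology Polynomial

noncomputable section

namespace Pool.Agent.Lib.MP_02acd8_h53

/-- Indices of the coordinates. -/
abbrev Ix (d : ℕ) : Type := Fin 4 × Fin d

/-- The exponent that gives a coordinate the weight `d!`. -/
def ex {d : ℕ} (l : Ix d) : ℕ := d.factorial / (l.2 + 1)

lemma ex_mul {d : ℕ} (l : Ix d) : (l.2 + 1) * ex l = d.factorial :=
  Nat.mul_div_cancel' (Nat.dvd_factorial (Nat.succ_pos _) l.2.2)

lemma ex_ne_zero {d : ℕ} (l : Ix d) : ex l ≠ 0 := fun e => by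
  have := ex_mul l
  rw [e, mul_zero] at this
  exact d.factorial_ne_zero this.symm

/-- The coordinates of weight `d!`. -/
def tt {d : ℕ} (W : Fin 4 → Multiset ℂ) (l : Ix d) : ℂ := tc W l.1 (l.2 + 1) ^ ex l

/-- The part that carries the normalised coordinate. -/
def j0 (a : ℕ) : Fin 4 := if a = 0 then 2 else 1

lemma j0_ne (a) : j0 a ≠ 0 := by unfold j0; split_ifs <;> decide

lemma dj_j0 {a b : ℕ} (hb : b ≠ 0) : dj a b (j0 a) ≠ 0 := by
  unfold j0
  split_ifs with h <;> simp [dj, h, hb]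

/-- The free coordinates. -/
def IsFreeIx {d : ℕ} (a b : ℕ) (l : Ix d) : Prop :=
  l.2 < dj a b l.1 ∧ ¬ (l.2.1 = 0 ∧ (l.1 = 0 ∨ l.1 = j0 a))

lemma exists_enum (a b : ℕ) : ∃ ι : Fin (a + 2 * b - 2) → Ix (a + 2 * b), a ≤ b → b ≠ 0 →
    Function.Injective ι ∧ (∀ l, (∃ i, ι i = l) ↔ IsFreeIx a b l) ∧
      ∏ i, ((ι i).2.1 + 1) = ∏ j, (dj a b j).factorial := by
  classical
  by_cases h : a ≤ b ∧ b ≠ 0
  swap
  · exact ⟨fun i => (0, ⟨0, by have := i.2; omega⟩), fun h1 h2 => absurd ⟨h1, h2⟩ h⟩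
  have hle : ∀ j, dj a b j ≤ a + 2 * b := fun j => by fin_cases j <;> simp [dj] <;> omega
  have key : ∀ {M : Type} [CommMonoid M] (f : ℕ → M),
      ∏ l ∈ Finset.univ.filter (fun l : Ix (a + 2 * b) => l.2 < dj a b l.1), f l.2 =
        ∏ j, ∏ k ∈ Finset.range (dj a b j), f k := by
    intro M _ f
    rw [Finset.prod_filter, Fintype.prod_prod_type]
    refine Finset.prod_congr rfl fun j _ => ?_
    rw [Fin.prod_univ_eq_prod_range (fun k => if k < dj a b j then f k else 1), ← Finset.prod_filter]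
    congr 1
    ext k
    have := hle j
    simp only [Finset.mem_filter, Finset.mem_range]
    omega
  let z : Fin (a + 2 * b) := ⟨0, by omega⟩
  let I := Finset.univ.filter fun l : Ix (a + 2 * b) => l.2 < dj a b l.1
  have m1 : (0, z) ∈ I := by simpa [I, dj, z] using Nat.pos_of_ne_zero h.2
  have m2 : (j0 a, z) ∈ I.erase (0, z) := by
    simpa [I, z, j0_ne] using Nat.pos_of_ne_zero (dj_j0 h.2)
  have hc : ((I.erase (0, z)).erase (j0 a, z)).card = a + 2 * b - 2 := by
    have := key (M := Multiplicative ℕ) fun _ => Multiplicative.ofAdd 1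
    simp only [Finset.prod_const, Finset.card_range, ← ofAdd_nsmul, ← ofAdd_sum, smul_eq_mul,
      mul_one, EmbeddingLike.apply_eq_iff_eq, Fin.sum_univ_four] at this
    rw [Finset.card_erase_of_mem m2, Finset.card_erase_of_mem m1, this]
    simp [dj]
    omega
  let e := Finset.equivFinOfCardEq hc
  refine ⟨fun i => e.symm i, fun _ _ => ⟨Subtype.val_injective.comp e.symm.injective,
    fun l => ?_, ?_⟩⟩
  · have : l ∈ (I.erase (0, z)).erase (j0 a, z) ↔ IsFreeIx a b l := by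
      simp only [I, z, IsFreeIx, Finset.mem_erase, Finset.mem_filter, Finset.mem_univ, true_and,
        Ne, Prod.ext_iff, Fin.ext_iff]
      tauto
    rw [← this]
    exact ⟨fun ⟨i, hi⟩ => hi ▸ (e.symm i).2, fun H => ⟨e ⟨l, H⟩, by simp⟩⟩
  · rw [e.symm.prod_comp fun l => l.1.2.1 + 1, Finset.prod_coe_sort _ fun l : Ix _ => l.2.1 + 1]
    have h1 := Finset.mul_prod_erase _ (fun l : Ix _ => l.2.1 + 1) m2
    have h2 := Finset.mul_prod_erase _ (fun l : Ix _ => l.2.1 + 1) m1
    simp only [z, zero_add, one_mul] at h1 h2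
    rw [h1, h2, key (· + 1)]
    simp only [Finset.prod_range_add_one_eq_factorial]

/-- An enumeration of the free coordinates. -/
def en (d a b : ℕ) (i : Fin (d - 2)) : Ix d :=
  if h : a + 2 * b = d then h ▸ (exists_enum a b).choose (h ▸ i) else (0, ⟨0, by have := i.2; omega⟩)

lemma en_spec {d a b : ℕ} (h : a + 2 * b = d) (hab : a ≤ b) (hb : b ≠ 0) :
    Function.Injective (en d a b) ∧ (∀ l, (∃ i, en d a b i = l) ↔ IsFreeIx a b l) ∧
      ∏ i, ((en d a b i).2.1 + 1) = ∏ j, (dj a b j).factorial := by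
  subst h
  have : en (a + 2 * b) a b = (exists_enum a b).choose := funext fun i => dif_pos rfl
  rw [this]
  exact (exists_enum a b).choose_spec hab hb

open Classical in
/-- The section with parameters `g`, as a linear map. -/
def lin2 {d : ℕ} (a b : ℕ) (g : Ix d → Fin (d - 2) → ℂ) (T : Ix d → ℂ) (i : Fin (d - 2)) : ℂ :=
  (if a ≤ b then T (en d a b i) else 0) -
    ∑ l, g l i * if a ≤ b ∧ ∃ i, en d a b i = l then 0 else T l

lemma lin2_smul {d : ℕ} (a b g) (c : ℂ) (T : Ix d → ℂ) :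
    c • lin2 a b g T = lin2 a b g (fun l => c * T l) := by
  ext i
  simp only [Pi.smul_apply, lin2, smul_eq_mul, mul_sub, Finset.mul_sum, mul_ite, mul_zero,
    mul_left_comm]

lemma lin2_continuous {d : ℕ} (a b g) : Continuous (lin2 (d := d) a b g) := by
  refine continuous_pi fun i => Continuous.sub ?_
    (continuous_finsetSum _ fun l _ => continuous_const.mul ?_) <;> split_ifs <;> fun_prop

lemma tt_affine {d : ℕ} {W : Fin 4 → Multiset ℂ} (h : (W 0).card ≠ 0) (a b : ℂ) (l : Ix d) :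
    tt (fun j => (W j).map fun w => a * w + b) l = a ^ d.factorial * tt W l := by
  rw [tt, tc_affine h, mul_pow, ← pow_mul, ex_mul, tt]

lemma eq_of_tt {d : ℕ} {W : Fin 4 → Multiset ℂ} (hd : ∀ j, (W j).card ≤ d)
    (h : ∀ l : Ix d, tt W l = 0) : ∀ j, ∀ w ∈ W j, w = ctr W :=
  eq_of_tc fun j k hk => eq_zero_of_pow_eq_zero (h (j, ⟨k, hk.trans_le (hd j)⟩))

theorem avoid (d a b : ℕ) : ∃ g : Ix d → Fin (d - 2) → ℂ, (∀ l i, g l i ≠ 0) ∧
    (a + 2 * b = d → b ≠ 0 → ∀ W : Fin 4 → Multiset ℂ, (∀ j, (W j).card = sz a b j) →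
      (∀ m, ¬ ∀ j, ∀ w ∈ W j, w = m) → ∀ s : Finset ℂ, s.card < d → (∀ j, ∀ w ∈ W j, w ∈ s) →
      lin2 a b g (tt W) ≠ 0) := by
  classical
  have two : b ≠ 0 → ∀ W : Fin 4 → Multiset ℂ, (∀ j, (W j).card = sz a b j) →
      (∀ m, ¬ ∀ j, ∀ w ∈ W j, w = m) → ∃ x ∈ W 0, ∃ j, ∃ y ∈ W j, y ≠ x := by
    intro hb W hW h
    obtain ⟨x, hx⟩ := Multiset.card_pos_iff_exists_mem.1 ((hW 0).symm ▸ (Nat.pos_of_ne_zero hb : 0 < sz a b 0))
    simpa using ⟨x, hx, by simpa using h x⟩
  by_cases hd : d < 3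
  · refine ⟨fun _ _ => 1, fun _ _ => one_ne_zero, fun _ hb W hW h s hs hm _ => ?_⟩
    obtain ⟨x, hx, j, y, hy, hne⟩ := two hb W hW h
    have := Finset.one_lt_card.2 ⟨y, hm j y hy, x, hm 0 x hx, hne⟩
    omega
  let pos : (Fin (d - 3) → ℂ) → Option (Option (Fin (d - 3))) → ℂ := fun t o =>
    o.elim 0 fun o => o.elim 1 t
  let cf : (Fin 4 → Fin d → Option (Option (Fin (d - 3)))) → (Fin (d - 3) → ℂ) → Fin 4 →
      Multiset ℂ := fun τ t j =>
    (Multiset.range (sz a b j)).map fun i => if h : i < d then pos t (τ j ⟨i, h⟩) else 0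
  have sm : ∀ τ (l : Ix d), ContDiff ℂ 1 fun t => tt (cf τ t) l := fun τ l =>
    ContDiff.pow (𝕜 := ℂ) (n := 1) (f := fun t => tc (cf τ t) l.1 (l.2 + 1)) (tc_mem (smoothAlg _) (sz a b)
      (w := fun t j i => if h : i < d then pos t (τ j ⟨i, h⟩) else 0) (fun j i => by
      change ContDiff ℂ 1 _
      split_ifs with h
      · rcases τ j ⟨i, h⟩ with _ | _ | k
        exacts [contDiff_const, contDiff_const, contDiff_apply ℂ ℂ k]
      · exact contDiff_const) _ _) _
  obtain ⟨g, g0, hg⟩ := generic (k := d - 2) (m := d - 3) (by omega)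
    (fun τ t i => if a ≤ b then tt (cf τ t) (en d a b i) else 0)
    (fun τ t l => if a ≤ b ∧ ∃ i, en d a b i = l then 0 else tt (cf τ t) l)
    (fun τ i => by split_ifs; exacts [sm τ _, contDiff_const])
    (fun τ l => by split_ifs; exacts [contDiff_const, sm τ _])
  refine ⟨g, g0, fun hab hb W hW h s hs hm h0 => ?_⟩
  obtain ⟨x, hx, j1, y, hy, hne⟩ := two hb W hW h
  have hyx := sub_ne_zero.2 hne
  let φ : ℂ → ℂ := fun w => (y - x)⁻¹ * w + -(x / (y - x))
  have p0 : φ x = 0 := by simp only [φ]; field_simp; ring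
  have p1 : φ y = 1 := by simp only [φ]; field_simp; ring
  obtain ⟨t, ht⟩ := exists_index ((s.erase x).erase y).val
  have hc : ((s.erase x).erase y).card ≤ d - 3 := by
    rw [Finset.card_erase_of_mem (Finset.mem_erase.2 ⟨hne, hm _ _ hy⟩),
      Finset.card_erase_of_mem (hm _ _ hx)]
    omega
  have cov : ∀ w ∈ s, ∃ o, pos (fun i => φ (t i)) o = φ w := by
    intro w hw
    by_cases e1 : w = x
    · exact ⟨none, by rw [e1, p0]; rfl⟩
    by_cases e2 : w = y
    · exact ⟨some none, by rw [e2, p1]; rfl⟩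
    have : w ∈ ((s.erase x).erase y).val := Finset.mem_erase.2 ⟨e2, Finset.mem_erase.2 ⟨e1, hw⟩⟩
    rw [ht] at this
    obtain ⟨i, hi, e⟩ := Multiset.mem_map.1 this
    exact ⟨some (some ⟨i, (Multiset.mem_range.1 hi).trans_le hc⟩), congrArg φ e⟩
  choose! o ho using cov
  choose w hw using fun j => exists_index (W j)
  have hsz : ∀ j, sz a b j ≤ d := fun j => by fin_cases j <;> simp [sz] <;> omega
  have e : cf (fun j i => o (w j i)) (fun i => φ (t i)) = fun j => (W j).map φ := by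
    ext1 j
    conv_rhs => rw [hw j, hW, Multiset.map_map]
    refine Multiset.map_congr rfl fun i hi => ?_
    rw [dif_pos ((Multiset.mem_range.1 hi).trans_le (hsz j))]
    refine ho _ (hm j _ ?_)
    rw [hw j, hW]
    exact Multiset.mem_map_of_mem _ hi
  have h1 : lin2 a b g (tt fun j => (W j).map φ) = 0 := by
    rw [funext (tt_affine (hW 0 ▸ hb) _ _), ← lin2_smul, h0, smul_zero]
  have h2 := hg (fun j i => o (w j i)) (fun i => φ (t i)) fun i => by
    rw [e]
    exact sub_eq_zero.1 (congrFun h1 i)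
  simp only [e] at h2
  have h3 := eq_of_tt (d := d) (W := fun j => (W j).map φ) (fun j => by simpa [hW] using hsz j)
    fun l => by
      by_cases H : a ≤ b ∧ ∃ i, en d a b i = l
      · obtain ⟨H, i, rfl⟩ := H
        have := congrFun h1 i
        simp only [lin2, h2] at this
        simpa [H] using this
      · simpa [H] using h2 l
  have := (h3 0 _ (Multiset.mem_map_of_mem _ hx)).trans (h3 j1 _ (Multiset.mem_map_of_mem _ hy)).symm
  rw [p0, p1] at this
  exact zero_ne_one this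

/-- The configuration of an irreducible curve. -/
def mcf (R : Fin 4 → Multiset ℂ) : Fin 4 → Multiset ℂ := ![R 0, R 1, R 2 + R 1, R 3]

/-- The monic polynomial with given roots. -/
def mp (R : Multiset ℂ) : ℂ[X] := (R.map fun w => X - C w).prod

lemma tc_mcf (R : Fin 4 → Multiset ℂ) (j k) : tc (mcf R) j k = if k ≤ (R j).card then
    (mp ((R j).map fun w => w - ctr R)).coeff ((R j).card - k) else 0 := by
  have : gs (mcf R) j = rs (1 - PowerSeries.X) (R j) (ctr R) := by
    have : ctr (mcf R) = ctr R := rfl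
    rw [gs, this]
    fin_cases j <;> simp [mcf, rs_add, mul_assoc, rs_inv]
  rw [tc, this, coeff_rs, mp, Multiset.map_map]
  rfl

lemma mp_monic (R) : (mp R).Monic := monic_multiset_prod_of_monic _ _ fun _ _ => monic_X_sub_C _

lemma natDegree_mp (R) : (mp R).natDegree = R.card := natDegree_multiset_prod_X_sub_C_eq_card R

lemma coeff_mp {R : Multiset ℂ} (h : R.card ≠ 0) : (mp R).coeff (R.card - 1) = -R.sum := by
  have := (IsAlgClosed.splits (mp R)).nextCoeff_eq_neg_sum_roots_of_monic (mp_monic R)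
  rwa [nextCoeff_of_natDegree_pos (by rw [natDegree_mp]; omega), natDegree_mp, mp,
    roots_multiset_prod_X_sub_C] at this

lemma tc_center {R : Fin 4 → Multiset ℂ} (h : (R 0).card ≠ 0) : tc (mcf R) 0 1 = 0 := by
  have := coeff_mp (R := (R 0).map fun w => w - ctr R) (by simpa using h)
  rw [Multiset.card_map] at this
  have h1 : ((R 0).card : ℂ) ≠ 0 := Nat.cast_ne_zero.2 h
  rw [tc_mcf, if_pos (by omega), this, Multiset.sum_map_sub, Multiset.map_id']
  simp [ctr, mul_div_cancel₀ _ h1]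

variable {d a b : ℕ}

/-- All coordinates of the point with free coordinates `s`. -/
def tv (a b : ℕ) (s : Fin (d - 2) → ℂ) (l : Ix d) : ℂ :=
  if l.1 = j0 a ∧ l.2.1 = 0 then 1 else ∑ i, if en d a b i = l then s i else 0

/-- The Cox polynomials with free coordinates `s`. -/
def cp (a b : ℕ) (s : Fin (d - 2) → ℂ) (j : Fin 4) : ℂ[X] :=
  X ^ dj a b j + ∑ k : Fin d, if k < dj a b j then monomial (dj a b j - (k + 1)) (tv a b s (j, k)) else 0

lemma coeff_cp (s : Fin (d - 2) → ℂ) (j i) : (cp a b s j).coeff i = (if i = dj a b j then 1 else 0) +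
    ∑ k : Fin d, if k < dj a b j ∧ dj a b j - (k + 1) = i then tv a b s (j, k) else 0 := by
  simp only [cp, coeff_add, coeff_X_pow, finsetSum_coeff, apply_ite (coeff · i), coeff_monomial,
    coeff_zero, ite_and]

lemma cp_spec (s : Fin (d - 2) → ℂ) (j) : (cp a b s j).natDegree ≤ dj a b j ∧
    (cp a b s j).coeff (dj a b j) = 1 ∧
    ∀ k : Fin d, k < dj a b j → (cp a b s j).coeff (dj a b j - (k + 1)) = tv a b s (j, k) := by
  refine ⟨natDegree_le_iff_coeff_eq_zero.2 fun i hi => ?_, ?_, fun k hk => ?_⟩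
  · rw [coeff_cp, if_neg hi.ne', Finset.sum_eq_zero fun k _ => if_neg (by omega), add_zero]
  · rw [coeff_cp, if_pos rfl, Finset.sum_eq_zero fun k _ => if_neg (by omega), add_zero]
  · rw [coeff_cp, if_neg (by omega), zero_add, Finset.sum_eq_single k
      (fun k' _ h => if_neg fun H => h (Fin.ext (by omega))) (by simp), if_pos ⟨hk, rfl⟩]

lemma cp_analytic (s : Fin (d - 2) → ℂ) (j i) (t) :
    AnalyticAt ℂ (fun t => (cp a b (s + t) j).coeff i) t := by
  simp only [coeff_cp, tv]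
  refine analyticAt_const.fun_add (Finset.analyticAt_fun_sum _ fun k _ => ?_)
  split_ifs
  · exact analyticAt_const
  · refine Finset.analyticAt_fun_sum _ fun i _ => ?_
    split_ifs
    · exact analyticAt_const.fun_add ((ContinuousLinearMap.proj i :
        (Fin (d - 2) → ℂ) →L[ℂ] ℂ).analyticAt t)
    · exact analyticAt_const
  · exact analyticAt_const

lemma cp_monic (s : Fin (d - 2) → ℂ) (j) :
    (cp a b s j).Monic ∧ (cp a b s j).roots.card = dj a b j := by
  have := natDegree_eq_of_le_of_coeff_ne_zero (cp_spec (a := a) (b := b) s j).1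
    ((cp_spec s j).2.1 ▸ one_ne_zero)
  exact ⟨by rw [Monic, leadingCoeff, this, (cp_spec s j).2.1],
    IsAlgClosed.card_roots_eq_natDegree.trans this⟩

lemma mp_cp (s : Fin (d - 2) → ℂ) (j) : mp (cp a b s j).roots = cp a b s j :=
  ((IsAlgClosed.splits _).eq_prod_roots_of_monic (cp_monic s j).1).symm

variable (h : a + 2 * b = d) (hab : a ≤ b) (hb : b ≠ 0)
include h hab hb

lemma tv_en (s : Fin (d - 2) → ℂ) (i) : tv a b s (en d a b i) = s i := by
  obtain ⟨h1, h2, -⟩ := en_spec h hab hb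
  rw [tv, if_neg fun H => ((h2 _).1 ⟨i, rfl⟩).2 ⟨H.2, Or.inr H.1⟩]
  simp [h1.eq_iff]

lemma tv_other (s : Fin (d - 2) → ℂ) {l} (hl : ¬ IsFreeIx a b l) :
    tv a b s l = if l.1 = j0 a ∧ l.2.1 = 0 then 1 else 0 := by
  rw [tv, Finset.sum_eq_zero fun i _ => if_neg fun H => hl (((en_spec h hab hb).2.1 l).1 ⟨i, H⟩)]

lemma ctr_cp (s : Fin (d - 2) → ℂ) : ctr (fun j => (cp a b s j).roots) = 0 := by
  have h1 := coeff_mp (R := (cp a b s 0).roots) ((cp_monic s 0).2 ▸ hb)
  have h2 := (cp_spec (a := a) (b := b) s 0).2.2 ⟨0, by omega⟩ (Nat.pos_of_ne_zero hb)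
  rw [tv_other h hab hb s (fun H => H.2 ⟨rfl, Or.inl rfl⟩),
    if_neg fun H => j0_ne a H.1.symm] at h2
  rw [mp_cp, (cp_monic s 0).2, h2] at h1
  rw [ctr, neg_eq_zero.1 h1.symm, zero_div]

lemma tc_cp (s : Fin (d - 2) → ℂ) (l : Ix d) :
    tc (mcf fun j => (cp a b s j).roots) l.1 (l.2 + 1) = tv a b s l := by
  rw [tc_mcf, ctr_cp h hab hb]
  simp only [sub_zero, Multiset.map_id', mp_cp, (cp_monic s _).2]
  split_ifs with H
  · exact (cp_spec s _).2.2 _ H
  · rw [tv_other h hab hb s fun H' => H H'.1, if_neg fun H' => ?_]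
    have := dj_j0 (a := a) hb
    rw [H'.1, H'.2] at H
    omega

lemma lin2_main (g : Ix d → Fin (d - 2) → ℂ) {T : Ix d → ℂ}
    (hT : ∀ l, ¬ IsFreeIx a b l → l ≠ (j0 a, ⟨0, by omega⟩) → T l = 0) (i) :
    lin2 a b g T i = T (en d a b i) - g (j0 a, ⟨0, by omega⟩) i * T (j0 a, ⟨0, by omega⟩) := by
  have e := (en_spec h hab hb).2.1
  rw [lin2, if_pos hab, Finset.sum_eq_single (j0 a, ⟨0, by omega⟩),
    if_neg fun H => ((e _).1 H.2).2 ⟨rfl, Or.inr rfl⟩]
  · intro l _ hl
    split_ifs with H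
    exacts [mul_zero _, by rw [hT l (fun H' => H ⟨hab, (e l).2 H'⟩) hl, mul_zero]]
  · simp

lemma lin2_cp (g : Ix d → Fin (d - 2) → ℂ) (s : Fin (d - 2) → ℂ) (i) :
    lin2 a b g (tt (mcf fun j => (cp a b s j).roots)) i =
      s i ^ ex (en d a b i) - g (j0 a, ⟨0, by omega⟩) i := by
  rw [lin2_main h hab hb]
  · rw [tt, tt, tc_cp h hab hb, tc_cp h hab hb, tv_en h hab hb, tv, if_pos ⟨rfl, rfl⟩, one_pow,
      mul_one]
  · intro l h1 h2
    rw [tt, tc_cp h hab hb, tv_other h hab hb s h1, if_neg fun H => h2 (Prod.ext H.1 (Fin.ext H.2)),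
      zero_pow (ex_ne_zero l)]

end Pool.Agent.Lib.MP_02acd8_h53
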