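import Pool.Agent.Lib.MP_02acd8_h53.StForm

open Filter Topology OnePoint Polynomial

set_option linter.unusedSectionVars false

noncomputable section

namespace Pool.Agent.Lib.MP_02acd8_h53

variable {Y : Type}

/-- The children of a vertex. -/
def kids (A : PreMap Y) (v : Fin (A.len + 1)) : Finset (Fin (A.len + 1)) :=
  Finset.univ.filter fun w => w ≠ 0 ∧ A.par w = v

lemma mem_kids {A : PreMap Y} {v w} : w ∈ kids A v ↔ w ≠ 0 ∧ A.par w = v := by simp [kids]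

/-- The degree of the branch at a vertex. -/
def sub (A : PreMap Y) (dg : Fin (A.len + 1) → ℕ) (v : Fin (A.len + 1)) : ℕ :=
  dg v + ∑ w, if _h : v < w ∧ A.par w = v then sub A dg w else 0
termination_by A.len + 1 - v
decreasing_by
  have := w.2
  have : v.1 < w.1 := _h.1
  omega

/-- Parents come first. -/
def Ordered (A : PreMap Y) : Prop := ∀ v, v ≠ 0 → A.par v < v

namespace Ordered

variable {A : PreMap Y} (h : Ordered A) (dg : Fin (A.len + 1) → ℕ)
include h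

lemma sub_eq (v) : sub A dg v = dg v + ∑ w ∈ kids A v, sub A dg w := by
  rw [sub, kids, Finset.sum_filter]
  congr 1
  refine Finset.sum_congr rfl fun w _ => ?_
  rw [dite_eq_ite]
  refine if_congr ⟨fun H => ⟨(Fin.pos_iff_ne_zero.1 ((Fin.zero_le _).trans_lt H.1)), H.2⟩,
    fun H => ⟨H.2 ▸ h w H.1, H.2⟩⟩ rfl rfl

lemma down {P : Fin (A.len + 1) → Prop} (H : ∀ v, (∀ w ∈ kids A v, P w) → P v) (v) : P v := by
  induction v using WellFoundedGT.induction with
  | ind v ih => exact H v fun w hw => ih w ((mem_kids.1 hw).2 ▸ h w (mem_kids.1 hw).1)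

lemma sub_zero : sub A dg 0 = ∑ v, dg v := by
  have h1 : ∑ v, sub A dg v = ∑ v, dg v + ∑ v, ∑ w ∈ kids A v, sub A dg w := by
    rw [← Finset.sum_add_distrib]
    exact Finset.sum_congr rfl fun v _ => h.sub_eq dg v
  have h2 : ∑ v, ∑ w ∈ kids A v, sub A dg w = ∑ w ∈ Finset.univ.erase 0, sub A dg w := by
    rw [← Finset.sum_fiberwise (Finset.univ.erase 0) A.par]
    refine Finset.sum_congr rfl fun v _ => Finset.sum_congr ?_ fun _ _ => rfl
    ext w
    simp [mem_kids]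
  rw [h2, ← Finset.add_sum_erase _ _ (Finset.mem_univ 0)] at h1
  omega

lemma sub_le_par {v} (hv : v ≠ 0) : sub A dg v ≤ sub A dg (A.par v) := by
  rw [h.sub_eq dg (A.par v)]
  exact (Finset.single_le_sum (f := sub A dg) (fun _ _ => Nat.zero_le _)
    (mem_kids.2 ⟨hv, rfl⟩)).trans (Nat.le_add_left _ _)

lemma sub_le (v) : sub A dg v ≤ sub A dg 0 := by
  induction v using WellFoundedLT.induction with
  | ind v ih =>
    by_cases hv : v = 0
    · rw [hv]
    · exact (h.sub_le_par dg hv).trans (ih _ (h v hv))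

end Ordered

variable {ι : Type} [Fintype ι] [DecidableEq ι]

/-- A vector of forms. -/
def hvv (n : ℕ) (P : ι → ℂ[X]) (q : Sphere) : ι → ℂ := fun j => hv n (P j) q

/-- A linear combination of polynomials. -/
def lp (ℓ : Module.Dual ℂ (ι → ℂ)) (P : ι → ℂ[X]) : ℂ[X] := ∑ j, C (ℓ (Pi.single j 1)) * P j

lemma dual_eq (ℓ : Module.Dual ℂ (ι → ℂ)) (x : ι → ℂ) : ℓ x = ∑ j, ℓ (Pi.single j 1) * x j := by
  conv_lhs => rw [← Finset.univ_sum_single x, map_sum]
  refine Finset.sum_congr rfl fun j _ => ?_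
  rw [mul_comm, ← smul_eq_mul, ← _root_.map_smul, ← Pi.single_smul, smul_eq_mul, mul_one]

lemma hv_lp (n) (ℓ : Module.Dual ℂ (ι → ℂ)) (P q) : hv n (lp ℓ P) q = ℓ (hvv n P q) := by
  rw [dual_eq]
  induction q using OnePoint.rec <;> simp [lp, hvv, eval_finsetSum]

lemma natDegree_lp {n} (ℓ : Module.Dual ℂ (ι → ℂ)) {P : ι → ℂ[X]} (h : ∀ j, (P j).natDegree ≤ n) :
    (lp ℓ P).natDegree ≤ n :=
  natDegree_sum_le_of_forall_le _ _ fun j _ => (natDegree_C_mul_le _ _).trans (h j)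

lemma lp_proj (j : ι) (P : ι → ℂ[X]) : lp (LinearMap.proj j) P = P j := by
  simp [lp, Pi.single_apply]

lemma lp_ne_zero {n} {ℓ : Module.Dual ℂ (ι → ℂ)} {P q} (h : ℓ (hvv n P q) ≠ 0) : lp ℓ P ≠ 0 := by
  intro e
  rw [← hv_lp, e] at h
  induction q using OnePoint.rec <;> simp at h

/-- The nodes of a vertex, weighted by the degrees of the branches. -/
def extra (A : PreMap Y) (dg : Fin (A.len + 1) → ℕ) (v : Fin (A.len + 1)) : Multiset Sphere :=
  ∑ w ∈ kids A v, Multiset.replicate (sub A dg w) (A.node w : Sphere) +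
    Multiset.replicate (sub A dg 0 - sub A dg v) ∞

/-- The zeros of a section, seen from a vertex. -/
def tw (A : PreMap Y) (dg : Fin (A.len + 1) → ℕ) (P : Fin (A.len + 1) → ι → ℂ[X])
    (ℓ : Module.Dual ℂ (ι → ℂ)) (v : Fin (A.len + 1)) : Multiset Sphere :=
  zr (dg v) (lp ℓ (P v)) + extra A dg v

/-- Forms without common zero on an ordered tree. -/
structure Good (A : PreMap Y) (dg : Fin (A.len + 1) → ℕ) (P : Fin (A.len + 1) → ι → ℂ[X]) : Prop where
  ord : Ordered A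
  le : ∀ v j, (P v j).natDegree ≤ dg v
  ne : ∀ v q, hvv (dg v) (P v) q ≠ 0

lemma Good.card_tw {A : PreMap Y} {dg} {P : Fin (A.len + 1) → ι → ℂ[X]} (h : Good A dg P) (ℓ v) :
    (tw A dg P ℓ v).card = sub A dg 0 := by
  have h1 := h.ord.sub_eq dg v
  have h2 := h.ord.sub_le dg v
  simp only [tw, extra, Multiset.card_add, card_zr (natDegree_lp ℓ (h.le v)),
    Multiset.card_replicate, Multiset.card_sum]
  omega

lemma dual_div (ℓ : Module.Dual ℂ (ι → ℂ)) (x : ι → ℂ) (c : ℂ) :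
    ℓ x / c = ∑ j, ℓ (Pi.single j 1) * (x j / c) := by
  rw [dual_eq, Finset.sum_div]
  simp only [mul_div_assoc]

/-- Limits of the zeros of two sections on one component. -/
lemma ratio_limit {𝒰 : Ultrafilter ℕ} {n n' : ℕ} {P : ι → ℂ[X]} (hP : ∀ j, (P j).natDegree ≤ n)
    (hne : ∀ q, hvv n P q ≠ 0) (b : ℕ → Sphere → ι → ℂ) (E : ℕ → Sphere → ℂ) (φ : ℕ → Mob)
    {S : Set ℂ} (hS : S.Finite)
    (hmap : ∀ z : ℂ, z ∉ S → ∀ j, hvv n P z j ≠ 0 → (∀ᶠ i in 𝒰, b i (φ i • (z : Sphere)) j ≠ 0) ∧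
      ∀ j', Tendsto (fun i => b i (φ i • (z : Sphere)) j' / b i (φ i • (z : Sphere)) j) 𝒰
        (𝓝 (hvv n P z j' / hvv n P z j)))
    {ℓ ℓ' : Module.Dual ℂ (ι → ℂ)} (hl : lp ℓ P ≠ 0) (hl' : lp ℓ' P ≠ 0)
    {w w' : ℕ → ℕ → Sphere} {L L' : ℕ → Sphere}
    (hw : ∀ᶠ i in 𝒰, IsForm (fun q => ℓ (b i q) * E i q) ((Multiset.range n').map (w i)))
    (hw' : ∀ᶠ i in 𝒰, IsForm (fun q => ℓ' (b i q) * E i q) ((Multiset.range n').map (w' i)))
    (hL : ∀ k, Tendsto (fun i => (φ i)⁻¹ • w i k) 𝒰 (𝓝 (L k)))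
    (hL' : ∀ k, Tendsto (fun i => (φ i)⁻¹ • w' i k) 𝒰 (𝓝 (L' k))) :
    (Multiset.range n').map L + zr n (lp ℓ' P) = (Multiset.range n').map L' + zr n (lp ℓ P) := by
  choose κ μ hκ hμ hbr using br_smul
  choose m hm hml using fun k => br_limit (hL k)
  choose m' hm' hml' using fun k => br_limit (hL' k)
  have key : ∀ᶠ i in 𝒰, ∃ R : ℂ, ∀ z : ℂ,
      ℓ (b i (φ i • (z : Sphere))) * ∏ k ∈ Finset.range n', m' k i * br z ((φ i)⁻¹ • w' i k) =
      R * (ℓ' (b i (φ i • (z : Sphere))) *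
        ∏ k ∈ Finset.range n', m k i * br z ((φ i)⁻¹ • w i k)) := by
    filter_upwards [hw, hw'] with i ⟨c, hc, e⟩ ⟨c', hc', e'⟩
    refine ⟨c / c' * ∏ k ∈ Finset.range n', (μ (φ i) (w i k) * m' k i) /
      (μ (φ i) (w' i k) * m k i), fun z => ?_⟩
    have e1 := e (φ i • (z : Sphere))
    have e2 := e' (φ i • (z : Sphere))
    simp only [pb_range, hbr, Finset.prod_mul_distrib, Finset.prod_div_distrib] at e1 e2 ⊢
    have n1 : ∏ k ∈ Finset.range n', μ (φ i) (w' i k) ≠ 0 :=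
      Finset.prod_ne_zero_iff.2 fun _ _ => hμ _ _
    have n2 : ∏ k ∈ Finset.range n', m k i ≠ 0 := Finset.prod_ne_zero_iff.2 fun _ _ => hm _ _
    have n3 : ∏ k ∈ Finset.range n', κ (φ i) z ≠ 0 := Finset.prod_ne_zero_iff.2 fun _ _ => hκ _ _
    field_simp
    apply mul_left_cancel₀ n3
    linear_combination (∏ k ∈ Finset.range n', m' k i) * ℓ' (b i (φ i • (z : Sphere))) * e1 -
      (∏ k ∈ Finset.range n', m' k i) * ℓ (b i (φ i • (z : Sphere))) * e2
  obtain ⟨R, hR⟩ := key.choice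
  have lim : ∀ z : ℂ, z ∉ S → ∀ j, hvv n P z j ≠ 0 → ∀ (ℓ : Module.Dual ℂ (ι → ℂ))
      (w : ℕ → ℕ → Sphere) (L : ℕ → Sphere) (m : ℕ → ℕ → ℂ),
      (∀ k (z : ℂ), Tendsto (fun i => m k i * br z ((φ i)⁻¹ • w i k)) 𝒰 (𝓝 (br z (L k)))) →
      Tendsto (fun i => ℓ (b i (φ i • (z : Sphere))) / b i (φ i • (z : Sphere)) j *
        ∏ k ∈ Finset.range n', m k i * br z ((φ i)⁻¹ • w i k)) 𝒰
        (𝓝 (ℓ (hvv n P z) / hvv n P z j * pb ((Multiset.range n').map L) z)) := by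
    intro z hz j hj ℓ w L m hml
    simp only [dual_div, pb_range]
    exact (tendsto_finsetSum _ fun j' _ => ((hmap z hz j hj).2 j').const_mul _).mul
      (tendsto_finsetProd _ fun k _ => hml k z)
  have rel : ∀ z : ℂ, ∀ j, ∀ᶠ i in 𝒰,
      ℓ (b i (φ i • (z : Sphere))) / b i (φ i • (z : Sphere)) j *
        ∏ k ∈ Finset.range n', m' k i * br z ((φ i)⁻¹ • w' i k) =
      R i * (ℓ' (b i (φ i • (z : Sphere))) / b i (φ i • (z : Sphere)) j *
        ∏ k ∈ Finset.range n', m k i * br z ((φ i)⁻¹ • w i k)) := fun z j =>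
    hR.mono fun i hi => by linear_combination (b i (φ i • (z : Sphere)) j)⁻¹ * hi z
  obtain ⟨c, hc, e⟩ := (isForm_pb ((Multiset.range n').map L')).mul
    (isForm_hv (natDegree_lp ℓ hP) hl)
  obtain ⟨c', hc', e'⟩ := (isForm_pb ((Multiset.range n').map L)).mul
    (isForm_hv (natDegree_lp ℓ' hP) hl')
  simp only [hv_lp] at e e'
  have fin : ∀ W : Multiset Sphere, {z : ℂ | (z : Sphere) ∈ W}.Finite := fun W =>
    (W.finite_toSet.preimage coe_injective.injOn)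
  obtain ⟨z0, hz0⟩ := ((hS.union (fin ((Multiset.range n').map L' + zr n (lp ℓ P)))).union
    (fin ((Multiset.range n').map L + zr n (lp ℓ' P)))).infinite_compl.nonempty
  simp only [Set.mem_compl_iff, Set.mem_union, not_or, Set.mem_ofPred_eq, ← pb_ne_zero] at hz0
  obtain ⟨j0, hj0⟩ := Function.ne_iff.1 (hne z0)
  have a1 := lim z0 hz0.1.1 j0 hj0 ℓ w' L' m' hml'
  have a2 := lim z0 hz0.1.1 j0 hj0 ℓ' w L m hml
  have n2 : ℓ' (hvv n P z0) / hvv n P z0 j0 * pb ((Multiset.range n').map L) z0 ≠ 0 := by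
    rw [div_mul_eq_mul_div, mul_comm, e']
    exact div_ne_zero (mul_ne_zero hc' hz0.2) hj0
  have n1 : ℓ (hvv n P z0) / hvv n P z0 j0 * pb ((Multiset.range n').map L') z0 ≠ 0 := by
    rw [div_mul_eq_mul_div, mul_comm, e]
    exact div_ne_zero (mul_ne_zero hc hz0.1.2) hj0
  have hRl := (a1.div a2 n2).congr' (f₂ := R) (by
    filter_upwards [rel z0 j0, a2.eventually_ne n2] with i h1 h2
    rw [Pi.div_apply, h1, mul_div_cancel_right₀ _ h2])
  refine form_unique (mul_ne_zero (div_ne_zero n1 n2) hc') (c' := c) ?_ hS fun z hz => ?_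
  · simp [card_zr (natDegree_lp _ hP)]
  obtain ⟨j, hj⟩ := Function.ne_iff.1 (hne z)
  have := tendsto_nhds_unique ((lim z hz j hj ℓ w' L' m' hml').congr' (rel z j))
    (hRl.mul (lim z hz j hj ℓ' w L m hml))
  rw [mul_assoc, ← e, ← e']
  have hj' : hvv n P z j ≠ 0 := hj
  generalize ℓ (hvv n P z0) / hvv n P z0 j0 * pb ((Multiset.range n').map L') z0 /
    (ℓ' (hvv n P z0) / hvv n P z0 j0 * pb ((Multiset.range n').map L) z0) = r at this ⊢
  field_simp at this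
  linear_combination -this

lemma card_limit {𝒰 : Ultrafilter ℕ} (n' : ℕ) (w : ℕ → ℕ → Sphere) (x : ℕ → Sphere) (φ : ℕ → Mob)
    {L : ℕ → Sphere} {q : Sphere} (hL : ∀ k, Tendsto (fun i => (φ i)⁻¹ • w i k) 𝒰 (𝓝 (L k)))
    (hx : Tendsto (fun i => (φ i)⁻¹ • x i) 𝒰 (𝓝 q)) :
    ∀ᶠ i in 𝒰, ((Multiset.range n').map (w i)).count (x i) ≤ ((Multiset.range n').map L).count q := by
  have : ∀ k ∈ Finset.range n', ∀ᶠ i in 𝒰, x i = w i k → q = L k := by
    intro k _
    rcases 𝒰.em (fun i => x i = w i k) with h | h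
    · have := tendsto_nhds_unique (hx.congr' (h.mono fun i hi => by rw [hi])) (hL k)
      exact Eventually.of_forall fun _ _ => this
    · exact h.mono fun i hi hi' => absurd hi' hi
  filter_upwards [(Finset.eventually_all _).2 this] with i hi
  rw [count_range, count_range]
  exact Finset.card_le_card fun k hk => by
    rw [Finset.mem_filter] at hk ⊢
    exact ⟨hk.1, hi k hk.1 hk.2⟩

/-- The hypotheses of Gromov convergence along an ultrafilter. -/
structure Lim (𝒰 : Ultrafilter ℕ) (A : ℕ → PreMap Y) (B : PreMap Y)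
    (f : ∀ i, Fin (B.len + 1) → Fin ((A i).len + 1)) (φ : ℕ → Fin (B.len + 1) → Mob) : Prop where
  inj : ∀ v, v ≠ 0 → ∀ w, w ≠ 0 → B.par v = B.par w → B.node v = B.node w → v = w
  resc : ∀ v, v ≠ 0 → (∀ᶠ i in 𝒰, f i v = f i (B.par v)) → ∀ (x : ℕ → Sphere) (z : ℂ),
    Tendsto x 𝒰 (𝓝 z) → Tendsto (fun i => (φ i (B.par v))⁻¹ • φ i v • x i) 𝒰 (𝓝 (B.node v))
  node : ∀ v, v ≠ 0 → (∀ᶠ i in 𝒰, f i v ≠ f i (B.par v)) →
    (∀ᶠ i in 𝒰, f i v ≠ 0 ∧ (A i).par (f i v) = f i (B.par v)) ∧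
      Tendsto (fun i => (φ i v)⁻¹ • (∞ : Sphere)) 𝒰 (𝓝 ∞) ∧
      Tendsto (fun i => (φ i (B.par v))⁻¹ • ((A i).node (f i v) : Sphere)) 𝒰 (𝓝 (B.node v))

lemma count_nodes {B : PreMap Y}
    (inj : ∀ v, v ≠ 0 → ∀ w, w ≠ 0 → B.par v = B.par w → B.node v = B.node w → v = w)
    (v : Fin (B.len + 1)) (Z W : Multiset Sphere) (m : Fin (B.len + 1) → ℕ) (m' : ℕ) (hZ : Z ≤ W)
    (h1 : ∀ w ∈ kids B v, (B.node w : Sphere) ∉ Z ∧ m w ≤ W.count (B.node w : Sphere))
    (h2 : ∞ ∉ Z ∧ m' ≤ W.count ∞) :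
    Z + (∑ w ∈ kids B v, Multiset.replicate (m w) (B.node w : Sphere) +
      Multiset.replicate m' ∞) ≤ W := by
  rw [Multiset.le_iff_count]
  intro q
  simp only [Multiset.count_add, Multiset.count_sum', Multiset.count_replicate]
  by_cases hq : ∃ w ∈ kids B v, (B.node w : Sphere) = q
  · obtain ⟨w, hw, rfl⟩ := hq
    rw [Finset.sum_eq_single w, Multiset.count_eq_zero.2 (h1 w hw).1, if_neg (infty_ne_coe _)]
    · simpa using (h1 w hw).2
    · intro w' hw' hne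
      rw [mem_kids] at hw hw'
      exact if_neg fun e => hne (inj _ hw'.1 _ hw.1 (hw'.2.trans hw.2.symm) (coe_injective e))
    · exact fun H => absurd hw H
  rw [Finset.sum_eq_zero fun w hw => if_neg fun e => hq ⟨w, hw, e⟩]
  split_ifs with e
  · subst e
    simpa [Multiset.count_eq_zero.2 h2.1] using h2.2
  · simpa using Multiset.le_iff_count.1 hZ q

theorem tree_limit {𝒰 : Ultrafilter ℕ} {A : ℕ → PreMap Y} {B : PreMap Y} {f φ}
    (H : Lim 𝒰 A B f φ) {dg : ∀ i, Fin ((A i).len + 1) → ℕ}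
    {P : ∀ i, Fin ((A i).len + 1) → ι → ℂ[X]} {dg0 : Fin (B.len + 1) → ℕ}
    {P0 : Fin (B.len + 1) → ι → ℂ[X]} (hA : ∀ i, Good (A i) (dg i) (P i)) (hB : Good B dg0 P0)
    {n' : ℕ} (htot : ∀ᶠ i in 𝒰, sub (A i) (dg i) 0 = n')
    (hmap : ∀ v (z : ℂ), (∀ w ∈ kids B v, B.node w ≠ z) → ∀ j, hvv (dg0 v) (P0 v) z j ≠ 0 →
      (∀ᶠ i in 𝒰, hvv (dg i (f i v)) (P i (f i v)) (φ i v • (z : Sphere)) j ≠ 0) ∧
      ∀ j', Tendsto (fun i => hvv (dg i (f i v)) (P i (f i v)) (φ i v • (z : Sphere)) j' /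
        hvv (dg i (f i v)) (P i (f i v)) (φ i v • (z : Sphere)) j) 𝒰
        (𝓝 (hvv (dg0 v) (P0 v) z j' / hvv (dg0 v) (P0 v) z j))) :
    sub B dg0 0 ≤ n' ∧ (sub B dg0 0 = n' → ∀ ℓ, lp ℓ (P0 0) ≠ 0 →
      ∃ (w : ℕ → ℕ → Sphere) (L : ℕ → Sphere),
        (∀ᶠ i in 𝒰, tw (A i) (dg i) (P i) ℓ (f i 0) = (Multiset.range n').map (w i)) ∧
        tw B dg0 P0 ℓ 0 = (Multiset.range n').map L ∧
        ∀ k, Tendsto (fun i => (φ i 0)⁻¹ • w i k) 𝒰 (𝓝 (L k))) := by
  choose w hw using fun i ℓ v => exists_index (tw (A i) (dg i) (P i) ℓ v)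
  have hw' : ∀ᶠ i in 𝒰, ∀ ℓ v, tw (A i) (dg i) (P i) ℓ v = (Multiset.range n').map (w i ℓ v) :=
    htot.mono fun i hi ℓ v => by rw [← hi, ← (hA i).card_tw ℓ v]; exact hw i ℓ v
  let L : Fin (B.len + 1) → Module.Dual ℂ (ι → ℂ) → ℕ → Sphere := fun v ℓ k =>
    (𝒰.map fun i => (φ i v)⁻¹ • w i ℓ (f i v) k).lim
  have hL : ∀ v ℓ k, Tendsto (fun i => (φ i v)⁻¹ • w i ℓ (f i v) k) 𝒰 (𝓝 (L v ℓ k)) :=
    fun v ℓ k => Ultrafilter.le_nhds_lim _
  have hS : ∀ v, {z | ∃ w ∈ kids B v, B.node w = z}.Finite := fun v =>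
    ((kids B v).finite_toSet.image B.node).subset fun z hz => hz
  have hform : ∀ v ℓ, lp ℓ (P0 v) ≠ 0 → ∀ᶠ i in 𝒰, IsForm (fun q =>
      ℓ (hvv (dg i (f i v)) (P i (f i v)) q) * pb (extra (A i) (dg i) (f i v)) q)
      ((Multiset.range n').map (w i ℓ (f i v))) := by
    intro v ℓ hl
    obtain ⟨z, hz⟩ := ((hS v).union (lp ℓ (P0 v)).roots.finite_toSet).infinite_compl.nonempty
    simp only [Set.mem_compl_iff, Set.mem_union, not_or, Set.mem_ofPred_eq, mem_roots hl,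
      IsRoot.def, not_exists, not_and] at hz
    obtain ⟨j, hj⟩ := Function.ne_iff.1 (hB.ne v z)
    have h1 := hmap v z hz.1 j hj
    have h2 := tendsto_finsetSum Finset.univ fun j' _ =>
      (h1.2 j').const_mul (ℓ (Pi.single j' 1))
    simp only [← dual_div] at h2
    have h3 := h2.eventually_ne (div_ne_zero (by rw [← hv_lp]; exact hz.2) hj)
    filter_upwards [h3, hw'] with i hi hi'
    rw [← hi']
    have := (isForm_hv (natDegree_lp ℓ ((hA i).le (f i v)))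
      (lp_ne_zero (div_ne_zero_iff.1 hi).1)).mul (isForm_pb (extra (A i) (dg i) (f i v)))
    simpa only [hv_lp, tw] using this
  have ratio : ∀ v ℓ ℓ', lp ℓ (P0 v) ≠ 0 → lp ℓ' (P0 v) ≠ 0 →
      (Multiset.range n').map (L v ℓ) + zr (dg0 v) (lp ℓ' (P0 v)) =
      (Multiset.range n').map (L v ℓ') + zr (dg0 v) (lp ℓ (P0 v)) := fun v ℓ ℓ' hl hl' =>
    ratio_limit (hB.le v) (hB.ne v) (fun i => hvv (dg i (f i v)) (P i (f i v)))
      (fun i => pb (extra (A i) (dg i) (f i v))) (fun i => φ i v) (hS v)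
      (fun z hz => hmap v z fun w hw e => hz ⟨w, hw, e⟩) hl hl' (hform v ℓ hl) (hform v ℓ' hl')
      (hL v ℓ) (hL v ℓ')
  have notmem : ∀ v ℓ q, ℓ (hvv (dg0 v) (P0 v) q) ≠ 0 → q ∉ zr (dg0 v) (lp ℓ (P0 v)) :=
    fun v ℓ q h => (isForm_hv (natDegree_lp ℓ (hB.le v)) (lp_ne_zero h)).ne_zero.1
      (by rwa [hv_lp])
  have zle : ∀ v ℓ, lp ℓ (P0 v) ≠ 0 →
      zr (dg0 v) (lp ℓ (P0 v)) ≤ (Multiset.range n').map (L v ℓ) := by
    intro v ℓ hl
    rw [Multiset.le_iff_count]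
    intro q
    obtain ⟨j, hj⟩ := Function.ne_iff.1 (hB.ne v q)
    have h1 := congrArg (Multiset.count q) (ratio v ℓ (LinearMap.proj j) hl (lp_ne_zero hj))
    rw [Multiset.count_add, Multiset.count_add,
      Multiset.count_eq_zero.2 (notmem v (LinearMap.proj j) q hj)] at h1
    omega
  obtain ⟨ℓ, hℓ⟩ := Module.exists_dual_forall_apply_ne_zero (K := ℂ)
    (fun t : Fin (B.len + 1) × Option (Fin (B.len + 1)) =>
      hvv (dg0 t.1) (P0 t.1) (t.2.elim ∞ fun w => (B.node w : Sphere))) fun t => hB.ne _ _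
  have hl : ∀ v, lp ℓ (P0 v) ≠ 0 := fun v => lp_ne_zero (hℓ (v, none))
  have edge : ∀ v, v ≠ 0 → n' ≤ ((Multiset.range n').map (L (B.par v) ℓ)).count
      (B.node v : Sphere) + ((Multiset.range n').map (L v ℓ)).count ∞ := by
    intro v hv
    rw [count_range, count_range]
    rcases 𝒰.em (fun i => f i v = f i (B.par v)) with h | h
    · refine le_trans ?_ (Finset.card_union_le _ _)
      conv_lhs => rw [← Finset.card_range n']
      refine Finset.card_le_card fun k hk => ?_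
      simp only [Finset.mem_union, Finset.mem_filter, hk, true_and]
      by_cases e : L v ℓ k = ∞
      · exact Or.inr e.symm
      have h1 := hL v ℓ k
      rw [← coe_toC e] at h1
      refine Or.inl (tendsto_nhds_unique ((H.resc v hv h _ _ h1).congr' ?_) (hL _ ℓ k))
      exact h.mono fun i hi => by simp only [smul_inv_smul, hi]
    · obtain ⟨h1, h2, h3⟩ := H.node v hv h
      obtain ⟨i, ⟨⟨⟨a, b⟩, c⟩, d⟩, e⟩ := ((((card_limit n' _ _ _ (hL v ℓ) h2).and
        (card_limit n' _ _ _ (hL (B.par v) ℓ) h3)).and h1).and hw').and htot |>.exists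
      rw [← d, count_range] at a b
      have a' : sub (A i) (dg i) 0 - sub (A i) (dg i) (f i v) ≤
          (tw (A i) (dg i) (P i) ℓ (f i v)).count ∞ := by
        simp only [tw, extra, Multiset.count_add, Multiset.count_replicate_self]
        omega
      have b' : sub (A i) (dg i) (f i v) ≤ (tw (A i) (dg i) (P i) ℓ (f i (B.par v))).count
          ((A i).node (f i v) : Sphere) := by
        simp only [tw, extra, Multiset.count_add, Multiset.count_sum']
        have := Finset.single_le_sum (f := fun w => (Multiset.replicate (sub (A i) (dg i) w)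
          ((A i).node w : Sphere)).count ((A i).node (f i v) : Sphere)) (fun _ _ => Nat.zero_le _)
          (mem_kids.2 c)
        rw [Multiset.count_replicate_self] at this
        omega
      omega
  have vert : ∀ v, dg0 v + (∑ w ∈ kids B v, ((Multiset.range n').map (L v ℓ)).count
      (B.node w : Sphere) + ((Multiset.range n').map (L v ℓ)).count ∞) ≤ n' := by
    intro v
    have := Multiset.card_le_card (count_nodes H.inj v _ _
      (fun w => ((Multiset.range n').map (L v ℓ)).count (B.node w : Sphere)) _ (zle v ℓ (hl v))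
      (fun w _ => ⟨notmem v ℓ _ (hℓ (v, Option.some w)), le_rfl⟩) ⟨notmem v ℓ _ (hℓ (v, none)), le_rfl⟩)
    simpa [card_zr (natDegree_lp ℓ (hB.le v))] using this
  have low : ∀ v, v ≠ 0 → sub B dg0 v ≤
      ((Multiset.range n').map (L (B.par v) ℓ)).count (B.node v : Sphere) := by
    refine hB.ord.down fun v ih hv => ?_
    have h1 := edge v hv
    have h2 := vert v
    have h3 : ∑ w ∈ kids B v, sub B dg0 w ≤ ∑ w ∈ kids B v,
        ((Multiset.range n').map (L v ℓ)).count (B.node w : Sphere) :=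
      Finset.sum_le_sum fun w hw => by
        have := ih w hw (mem_kids.1 hw).1
        rwa [(mem_kids.1 hw).2] at this
    rw [hB.ord.sub_eq]
    omega
  have top : tw B dg0 P0 ℓ 0 ≤ (Multiset.range n').map (L 0 ℓ) :=
    count_nodes H.inj 0 _ _ _ _ (zle 0 ℓ (hl 0)) (fun w hw => ⟨notmem 0 ℓ _ (hℓ (0, Option.some w)), by
      have := low w (mem_kids.1 hw).1
      rwa [(mem_kids.1 hw).2] at this⟩) ⟨notmem 0 ℓ _ (hℓ (0, none)), by simp⟩
  refine ⟨by simpa [hB.card_tw] using Multiset.card_le_card top, fun e ℓ' hl' =>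
    ⟨fun i => w i ℓ' (f i 0), L 0 ℓ', hw'.mono fun i hi => hi _ _, ?_, hL 0 ℓ'⟩⟩
  have h1 := Multiset.eq_of_le_of_card_le top (by simp [hB.card_tw, e])
  have h2 := ratio 0 ℓ' ℓ hl' (hl 0)
  rw [← h1, tw] at h2
  apply add_right_cancel (b := zr (dg0 0) (lp ℓ (P0 0)))
  rw [h2, tw]
  abel

end Pool.Agent.Lib.MP_02acd8_h53
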