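import Pool.Agent.Lib.MP_02acd8_h53.StSig
import Pool.Agent.Lib.MP_02acd8_h53.StLim

open Filter Topology OnePoint Polynomial

set_option linter.unusedSectionVars false

noncomputable section

namespace Pool.Agent.Lib.MP_02acd8_h53

variable {K : Type} [Field K] [Algebra ℂ K] {Y : Type} {O : Y → Subring K}

/-- The generic parameters. -/
def gp (d a b : ℕ) : Ix d → Fin (d - 2) → ℂ := (avoid d a b).choose

lemma exists_coord (q : Sphere) : ∃ c : Sphere → ℂ, Tendsto c (𝓝 q) (𝓝 0) ∧
    ∀ᶠ q' in 𝓝 q, param q (c q') = q' := by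
  induction q using OnePoint.rec with
  | coe z =>
    refine ⟨fun q => toC q - z, by simpa using (tendsto_toC z).sub_const z, ?_⟩
    exact (eventually_ne_nhds (coe_ne_infty z)).mono fun q hq => by simp [coe_toC hq]
  | infty =>
    refine ⟨iv, tendsto_iv, (eventually_ne_nhds (infty_ne_coe (0 : ℂ))).mono fun q hq => ?_⟩
    induction q using OnePoint.rec with
    | infty => exact param_zero _
    | coe z => exact (param_infty (inv_ne_zero fun e => hq (by rw [e]))).trans (by simp)

lemma cfg_sdata (u : Sphere → Y) {d a b : ℕ} (s : Fin (d - 2) → ℂ) :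
    (Model.sdata u a b (cp a b s)).cfg = mcf fun j => (cp a b s j).roots := by
  have : kids (oneVertex u) 0 = ∅ := Finset.eq_empty_of_forall_notMem fun w hw =>
    (mem_kids.1 hw).1 (Subsingleton.elim (α := Fin 1) _ _)
  ext1 j
  fin_cases j <;> simp [Data.cfg, rt, this, mcf, Model.sdata, ca, cb,
    roots_mul (mul_ne_zero (cp_monic s 2).1.ne_zero (cp_monic s 1).1.ne_zero)]

lemma sub_single (u : Sphere → Y) (n : ℕ) : sub (oneVertex u) (fun _ => n) 0 = n := by
  rw [Ordered.sub_zero fun v hv => absurd (Subsingleton.elim (α := Fin 1) _ _) hv]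
  exact Fin.sum_univ_one _

lemma adm_cp {d a b : ℕ} (h : a + 2 * b = d) (hab : a ≤ b) (hb : b ≠ 0) {s : Fin (d - 2) → ℂ}
    (hs : ∀ i, s i ^ ex (en d a b i) = gp d a b (j0 a, ⟨0, by omega⟩) i) (q : Sphere) :
    Adm fun j => hv (dj a b j) (cp a b s j) q := by
  classical
  induction q using OnePoint.rec with
  | infty => simp [Adm, ca, cb, (cp_spec s _).2.1]
  | coe z =>
    have c := fun j => (cp_monic (a := a) (b := b) s j).2
    have m : ∀ j, z ∈ (cp a b s j).roots ↔ (cp a b s j).eval z = 0 := fun j =>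
      mem_roots (cp_monic s j).1.ne_zero
    by_contra H
    refine (avoid d a b).choose_spec.2 h hb (mcf fun j => (cp a b s j).roots) (fun j => ?_)
      (fun x hx => ?_) (∑ j, (cp a b s j).roots).toFinset ?_ (fun j w hw => ?_)
      (funext fun i => (lin2_cp h hab hb _ s i).trans (sub_eq_zero.2 (hs i)))
    · fin_cases j <;> simp [mcf, c, sz, dj, hab]
    · have h1 : ∀ j, ∀ w ∈ (cp a b s j).roots, w = x := fun j w hw => by
        fin_cases j
        exacts [hx 0 w hw, hx 1 w hw, hx 2 w (Multiset.mem_add.2 (Or.inl hw)), hx 3 w hw]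
      have h2 : ∀ j, (cp a b s j).roots.sum = dj a b j * x := fun j => by
        rw [Multiset.eq_replicate.2 ⟨c j, h1 j⟩, Multiset.sum_replicate, nsmul_eq_mul]
      have h3 := ctr_cp h hab hb s
      rw [ctr, h2, c, mul_div_cancel_left₀ _ (Nat.cast_ne_zero.2 hb)] at h3
      have h4 := coeff_mp (R := (cp a b s (j0 a)).roots) (c _ ▸ dj_j0 hb)
      rw [mp_cp, c, h2, h3, (cp_spec s _).2.2 ⟨0, by omega⟩ (Nat.pos_of_ne_zero (dj_j0 hb)), tv,
        if_pos ⟨rfl, rfl⟩] at h4
      simp at h4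
    · have h1 : (∑ j, (cp a b s j).roots).card = d := by
        simp [Fin.sum_univ_four, c, dj]
        omega
      refine lt_of_le_of_ne ((Multiset.toFinset_card_le _).trans h1.le) fun e => H ?_
      have h2 := Multiset.nodup_iff_count_le_one.1
        (Multiset.toFinset_card_eq_card_iff_nodup.1 (e.trans h1.symm)) z
      simp only [Fin.sum_univ_four, Multiset.count_add] at h2
      simp only [← Multiset.one_le_count_iff_mem] at m
      simp only [Adm, ca, cb, Ne, Matrix.cons_eq_zero_iff, mul_eq_zero, hv_coe, ← m]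
      omega
    · rw [Multiset.mem_toFinset, Multiset.mem_sum]
      fin_cases j
      exacts [⟨0, by simp, hw⟩, ⟨1, by simp, hw⟩,
        (Multiset.mem_add.1 hw).elim (⟨2, by simp, ·⟩) (⟨1, by simp, ·⟩), ⟨3, by simp, hw⟩]

namespace Model

variable (M : Model O) (d : ℕ)

open Classical in
/-- The section. -/
def sig (A : PreMap Y) : Fin (d - 2) → ℂ :=
  if h : ∃ D : Data A, M.Valid D then lin2 (sub A h.choose.na 0) (sub A h.choose.nb 0)
    (gp d (sub A h.choose.na 0) (sub A h.choose.nb 0)) (tt h.choose.cfg) else 0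

variable {d}

lemma sig_eq {A : PreMap Y} (S : IsStable 2 O M.base d A) : ∃ D : Data A, M.Valid D ∧ M.sig d A =
    lin2 (sub A D.na 0) (sub A D.nb 0) (gp d (sub A D.na 0) (sub A D.nb 0)) (tt D.cfg) :=
  ⟨_, (M.exists_data S.2.1).choose_spec, dif_pos (M.exists_data S.2.1)⟩

theorem isSection : IsSection 2 O M.base d d.factorial (M.sig d) := by
  intro A B φ S S0 G
  choose D V e using fun i => M.sig_eq (S i)
  obtain ⟨D0, V0, e0⟩ := M.sig_eq S0
  rw [tendsto_iff_ultrafilter]
  intro 𝒰 hU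
  obtain ⟨h1, -, h2⟩ := data_limit V V0 S S0 G hU
  rw [e0]
  refine (((lin2_continuous _ _ _).tendsto _).comp
    (tendsto_pi_nhds.2 fun l : Ix d => (h2 l.1 (l.2 + 1)).pow (ex l))).congr' ?_
  filter_upwards [h1] with i hi
  rw [e, hi.1, hi.2, lin2_smul, Function.comp]
  simp only [mul_pow, ← pow_mul, ex_mul, tt]

variable {a b : ℕ} (h : a + 2 * b = d) (hab : a ≤ b) (hb : b ≠ 0)
include h hab hb

lemma stable_cp {s : Fin (d - 2) → ℂ} (h0 : ∀ q, Adm fun j => hv (dj a b j) (cp a b s j) q) :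
    IsStable 2 O M.base d (oneVertex (M.sph a b (cp a b s))) := by
  have := M.stable_sph hab (fun j => (cp_spec s j).1) h0 hb fun j => (cp_spec s j).2.1
  rwa [h] at this

lemma sig_cp {s : Fin (d - 2) → ℂ} (h0 : ∀ q, Adm fun j => hv (dj a b j) (cp a b s j) q) (i) :
    M.sig d (oneVertex (M.sph a b (cp a b s))) i =
      s i ^ ex (en d a b i) - gp d a b (j0 a, ⟨0, by omega⟩) i := by
  have S := M.stable_cp h hab hb h0
  obtain ⟨D, V, e⟩ := M.sig_eq S
  obtain ⟨h1, -, h2⟩ := data_repar (φ := 1) (B := oneVertex _) ⟨one_smul _ _, fun q => by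
    rw [one_smul]; rfl⟩ rfl (M.valid_sph hab (fun j => (cp_spec s j).1) h0) V S S
  have h3 : tt (d := d) D.cfg = tt (mcf fun j => (cp a b s j).roots) := funext fun l => by
    rw [tt, ← h2, cfg_sdata]
    simp [tt]
  rw [e, ← h1.1, ← h1.2, h3]
  simp only [sdata, sub_single]
  exact lin2_cp h hab hb _ s i

lemma repar_cp {a' b' : ℕ} (h' : a' + 2 * b' = d) (hab' : a' ≤ b') (hb' : b' ≠ 0)
    {s s' : Fin (d - 2) → ℂ} (h0 : ∀ q, Adm fun j => hv (dj a b j) (cp a b s j) q)
    (h0' : ∀ q, Adm fun j => hv (dj a' b' j) (cp a' b' s' j) q) {φ}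
    (R : Repar (M.sph a b (cp a b s)) (M.sph a' b' (cp a' b' s')) φ) :
    b = b' ∧ s = s' ∧ ∀ q : Sphere, φ • q = q := by
  obtain ⟨h1, h2, h3⟩ := data_repar (B := oneVertex (M.sph a' b' (cp a' b' s'))) R rfl
    (M.valid_sph hab (fun j => (cp_spec s j).1) h0)
    (M.valid_sph hab' (fun j => (cp_spec s' j).1) h0') (M.stable_cp h hab hb h0)
    (M.stable_cp h' hab' hb' h0')
  obtain rfl : a = a' := (sub_single _ _).symm.trans (h1.1.trans (sub_single _ _))
  obtain rfl : b = b' := (sub_single _ _).symm.trans (h1.2.trans (sub_single _ _))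
  rw [cfg_sdata _ s, cfg_sdata _ s'] at h2 h3
  have h4 := h3 (j0 a) (0 + 1)
  rw [tc_cp h hab hb s (j0 a, ⟨0, by omega⟩), tc_cp h hab hb s' (j0 a, ⟨0, by omega⟩), tv, tv,
    if_pos ⟨rfl, rfl⟩, if_pos ⟨rfl, rfl⟩, zero_add, pow_one, mul_one] at h4
  have h5 : ∀ s : Fin (d - 2) → ℂ, ctr (mcf fun j => (cp a b s j).roots) = 0 := ctr_cp h hab hb
  rw [h5, h5, mul_zero, zero_add] at h2
  refine ⟨rfl, funext fun i => ?_, fun q => ?_⟩
  · have := h3 (en d a b i).1 ((en d a b i).2 + 1)
    rwa [h4, one_pow, one_mul, tc_cp h hab hb, tc_cp h hab hb, tv_en h hab hb,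
      tv_en h hab hb] at this
  · induction q using OnePoint.rec with
    | infty => exact R.1
    | coe z =>
      have := (inv_smul_coe R.1 z).2.2
      rw [h4, h2, one_mul, add_zero, inv_smul_eq_iff] at this
      exact this.symm

theorem simple {s : Fin (d - 2) → ℂ}
    (hs : ∀ i, s i ^ ex (en d a b i) = gp d a b (j0 a, ⟨0, by omega⟩) i) :
    IsSimple 2 O M.base d (M.sig d) (M.sph a b (cp a b s)) := by
  have h0 := adm_cp h hab hb hs
  have H := fun t q => M.holo_sph hab (C := fun t => cp a b (s + t)) (e := t) (q := q)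
    (fun _ j => (cp_spec _ j).1) fun j i => cp_analytic s j i t
  have hU : {t | ∀ q, Adm fun j => hv (dj a b j) (cp a b (s + t) j) q} ∈ 𝓝 0 := by
    have := isCompact_univ.eventually_forall_of_forall_eventually (x₀ := 0)
      (P := fun t q => Adm fun j => hv (dj a b j) (cp a b (s + t) j) q) fun q _ => by
        obtain ⟨c, c1, c2⟩ := exists_coord q
        have t : Tendsto (fun z : (Fin (d - 2) → ℂ) × Sphere => (z.1, c z.2)) (𝓝 (0, q))
            (𝓝 (0, 0)) := (continuous_fst.tendsto _).prodMk_nhds (c1.comp (continuous_snd.tendsto _))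
        filter_upwards [t.eventually (H 0 q (by simpa using h0 q)).2,
          (continuous_snd.tendsto (0, q)).eventually c2] with z p r
        rwa [r] at p
    exact this.mono fun t ht q => ht q trivial
  have s0 : ∀ i, (ex (en d a b i) : ℂ) * s i ^ (ex (en d a b i) - 1) ≠ 0 := fun i =>
    mul_ne_zero (Nat.cast_ne_zero.2 (ex_ne_zero _)) (pow_ne_zero _ fun e =>
      (avoid d a b).choose_spec.1 _ i ((hs i).symm.trans (by rw [e, zero_pow (ex_ne_zero _)])))
  refine ⟨M.free hab (fun j => (cp_spec s j).1) h0, fun t => M.sph a b (cp a b (s + t)), _,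
    ContinuousLinearEquiv.piCongrRight fun i =>
      ContinuousLinearEquiv.unitsEquivAut ℂ (Units.mk0 _ (s0 i)), by simp, hU,
    fun t ht => ⟨M.stable_cp h hab hb ht, fun q => (H t q (ht q)).1, fun t' ht' φ R => ?_⟩, ?_⟩
  · obtain ⟨-, p, r⟩ := M.repar_cp h hab hb h hab hb ht ht' R
    exact ⟨add_left_cancel p, r⟩
  · refine HasFDerivAt.congr_of_eventuallyEq (f := fun t i => (s i + t i) ^ ex (en d a b i) -
      gp d a b (j0 a, ⟨0, by omega⟩) i) (hasFDerivAt_pi'.2 fun i => ?_)
      (Filter.mem_of_superset hU fun t ht => funext (M.sig_cp h hab hb ht))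
    have h1 : HasDerivAt (fun x : ℂ => (s i + x) ^ ex (en d a b i) -
        gp d a b (j0 a, ⟨0, by omega⟩) i) (ex (en d a b i) * s i ^ (ex (en d a b i) - 1))
        ((0 : Fin (d - 2) → ℂ) i) := by
      simpa using (((hasDerivAt_id (0 : ℂ)).const_add (s i)).fun_pow (ex (en d a b i))).sub_const
        (gp d a b (j0 a, ⟨0, by omega⟩) i)
    refine (h1.comp_hasFDerivAt (f := fun t : Fin (d - 2) → ℂ => t i) 0
      (hasFDerivAt_apply (𝕜 := ℂ) i (0 : Fin (d - 2) → ℂ))).congr_fderiv ?_
    ext x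
    simp [mul_comm]

end Model

end Pool.Agent.Lib.MP_02acd8_h53
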