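import Pool.Agent.Lib.MP_02acd8_h53.Model

open AlgebraicGeometry CategoryTheory HomogeneousLocalization KaehlerDifferential

set_option linter.unusedSectionVars false

noncomputable section

namespace Pool.Agent.Lib.MP_02acd8_h53

/-- The rays of the fan. -/
def ray : Fin 4 → Fin 2 → ℤ := ![![1, 0], ![0, 1], ![-1, 0], ![-1, -1]]

/-- Pairing with a ray. -/
def rho (j : Fin 4) (u : Fin 2 → ℤ) : ℤ := u 0 * ray j 0 + u 1 * ray j 1

lemma rho_add (j u v) : rho j (u + v) = rho j u + rho j v := by simp [rho]; ring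

lemma rho_sub (j u v) : rho j (u - v) = rho j u - rho j v := by simp [rho]; ring

lemma rho_nsmul (j) (n : ℕ) (u) : rho j (n • u) = n * rho j u := by simp [rho]; ring

lemma ray_injective : Function.Injective ray := by decide

lemma mirror_eq : mirror = ∑ j, mono (ray j) := by
  simp [mirror, Fin.sum_univ_four, mono, ray]

lemma mem_support_mirror (v : Fin 2 → ℤ) : v ∈ mirror.coeff.support ↔ ∃ j, v = ray j := by
  classical
  rw [mirror_eq, Finsupp.mem_support_iff, AddMonoidAlgebra.coeff_sum, Finsupp.finsetSum_apply]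
  simp only [mono, AddMonoidAlgebra.coeff_single, Finsupp.single_apply]
  constructor
  · intro H
    obtain ⟨j, -, hj⟩ := Finset.exists_ne_zero_of_sum_ne_zero H
    exact ⟨j, by by_contra e; exact hj (if_neg fun e' => e e'.symm)⟩
  · rintro ⟨j, rfl⟩
    simp [ray_injective.eq_iff]

lemma mem_cone (u : Fin 2 → ℤ) (k : ℕ) :
    (u, k) ∈ dualCone mirror ↔ ∀ j, -(k : ℤ) ≤ rho j u := by
  change (∀ v ∈ mirror.coeff.support, -(k : ℤ) ≤ ∑ i, u i * v i) ↔ _
  simp only [mem_support_mirror, Fin.sum_univ_two]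
  exact ⟨fun H j => H _ ⟨j, rfl⟩, fun H v ⟨j, e⟩ => e ▸ H j⟩

lemma mem_cone' (u : Fin 2 → ℤ) (k : ℕ) : (u, k) ∈ dualCone mirror ↔
    -(k : ℤ) ≤ u 0 ∧ -(k : ℤ) ≤ u 1 ∧ u 0 ≤ k ∧ u 0 + u 1 ≤ k := by
  rw [mem_cone]
  simp only [Fin.forall_fin_succ, rho, ray]
  simp
  omega

/-- The homogeneous coordinate ring. -/
abbrev TA : Type := AddMonoidAlgebra ℂ (dualCone mirror)

/-- Its grading. -/
abbrev TG : ℕ → Submodule ℂ TA := AddMonoidAlgebra.gradeBy ℂ (height mirror)

instance : UniqueSums (dualCone mirror) :=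
  UniqueSums.of_injective_addHom (dualCone mirror).subtype.toAddHom Subtype.val_injective
    inferInstance

instance : IsDomain TA := NoZeroDivisors.to_isDomain _

/-- A monomial of the coordinate ring. -/
def el (u : Fin 2 → ℤ) (k : ℕ) (h : (u, k) ∈ dualCone mirror) : TA :=
  AddMonoidAlgebra.single ⟨(u, k), h⟩ 1

lemma el_mem (u k h) : el u k h ∈ TG k :=
  AddMonoidAlgebra.single_mem_gradeBy (height mirror) (⟨(u, k), h⟩ : dualCone mirror) (1 : ℂ)

lemma el_ne_zero (u k h) : el u k h ≠ 0 := by simp [el]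

lemma el_mul (u k h v l h') : el u k h * el v l h' = el (u + v) (k + l) (add_mem h h') := by
  simp only [el, AddMonoidAlgebra.single_mul_single, mul_one]
  rfl

lemma el_congr {u v k l} (h) (e : u = v) (e' : k = l) : el u k h = el v l (e ▸ e' ▸ h) := by
  subst e e'
  rfl

/-- Forgetting the height. -/
def tev : TA →ₐ[ℂ] Laurent 2 :=
  AddMonoidAlgebra.mapDomainAlgHom ℂ ℂ ((AddMonoidHom.fst _ _).comp (dualCone mirror).subtype)

lemma tev_el (u k h) : tev (el u k h) = mono u := AddMonoidAlgebra.mapDomain_single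

lemma tev_inj (n : ℕ) (r : TA) (hr : r ∈ TG n) (e : tev r = 0) : r = 0 := by
  ext a
  by_contra ha
  have ha' : a ∈ r.coeff.support := Finsupp.mem_support_iff.2 ha
  have := Finsupp.mapDomain_apply' (f := fun p : dualCone mirror => p.1.1) {p : dualCone mirror | p.1.2 = n} r.coeff
    (fun p hp => hr p hp) (fun p hp q hq e => Subtype.ext (Prod.ext e (hp.trans hq.symm)))
    (hr a ha')
  have e' : Finsupp.mapDomain (fun p : dualCone mirror => p.1.1) r.coeff = 0 :=
    congrArg AddMonoidAlgebra.coeff e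
  rw [e'] at this
  exact ha this.symm

lemma graded_induction {n : ℕ} {P : TA → Prop} (h0 : P 0) (hadd : ∀ a b, P a → P b → P (a + b))
    (hs : ∀ u h (z : ℂ), P (z • el u n h)) (r : TA) (hr : r ∈ TG n) : P r := by
  rw [← AddMonoidAlgebra.sum_coeff_single r]
  refine Finset.sum_induction _ P hadd h0 fun p hp => ?_
  obtain ⟨⟨u, k⟩, hu⟩ := p
  obtain rfl : k = n := hr _ hp
  have := hs u hu (r.coeff ⟨(u, k), hu⟩)
  simpa [el] using this

lemma zero_one_mem : ((0 : Fin 2 → ℤ), 1) ∈ dualCone mirror := by simp [mem_cone']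

/-- The interior lattice point. -/
def th : TA := el 0 1 zero_one_mem

lemma th_pow (n : ℕ) : th ^ n ∈ TG n := by
  have := SetLike.pow_mem_graded n (el_mem 0 1 zero_one_mem)
  rwa [smul_eq_mul, mul_one] at this

lemma coeff_smul_mono {z : ℂ} {u u' : Fin 2 → ℤ} (h : (z • mono u).coeff u' ≠ 0) : u = u' := by
  by_contra e
  simp [mono, e] at h

lemma laurent_induction {P : Laurent 2 → Prop} (h0 : P 0) (hadd : ∀ a b, P a → P b → P (a + b))
    (F : Laurent 2) (hs : ∀ u ∈ F.coeff.support, ∀ z : ℂ, P (z • mono u)) : P F := by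
  rw [← AddMonoidAlgebra.sum_coeff_single F]
  refine Finset.sum_induction _ P hadd h0 fun u hu => ?_
  rw [single_eq_smul]
  exact hs u hu _

lemma tev_surj (b : Laurent 2) : ∃ n, ∃ r ∈ TG (n • 1), b * tev th ^ n = tev r := by
  have h1 : tev th = 1 := tev_el _ _ _
  simp only [h1, one_pow, mul_one, smul_eq_mul]
  refine laurent_induction (P := fun b => ∃ n, ∃ r ∈ TG n, b = tev r) ⟨0, 0, zero_mem _, by simp⟩
    ?_ b fun u _ z => ?_
  · rintro _ _ ⟨n, r, hr, rfl⟩ ⟨m, t, ht, rfl⟩
    refine ⟨n + m, r * th ^ m + th ^ n * t, add_mem (SetLike.mul_mem_graded hr ?_)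
      (SetLike.mul_mem_graded ?_ ht), by simp [h1]⟩
    · exact th_pow m
    · exact th_pow n
  · exact ⟨(u 0).natAbs + (u 1).natAbs, z • el u _ ((mem_cone' _ _).2 (by omega)),
      Submodule.smul_mem _ _ (el_mem _ _ _), by rw [map_smul, tev_el]⟩

instance toric_integral : IsIntegral (Proj TG) :=
  proj_integral TG (el_mem 0 1 zero_one_mem) (el_ne_zero _ _ _)

/-- The function field of the toric surface. -/
abbrev TK : Type := FF (projStr TG (algebraMap ℂ (TG 0)))

/-- The package of data describing the toric surface inside its function field. -/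
structure TData where
  φ : TA →+* TK
  lam : Laurent 2 →ₐ[ℂ] TK
  H : Dehom TG (algebraMap ℂ (TG 0)) th φ
  inj : Function.Injective lam
  eq : ∀ n, ∀ r ∈ TG n, φ r = lam (tev r)

lemma nonempty_TData : Nonempty TData := by
  obtain ⟨φ, H⟩ := exists_Dehom TG (algebraMap ℂ (TG 0)) (el_mem 0 1 zero_one_mem)
    (el_ne_zero _ _ _)
  obtain ⟨lam, h1, h2⟩ := H.exists_lam (el_mem 0 1 zero_one_mem) tev.toRingHom (tev_el _ _ _)
    (fun z => tev.commutes z) tev_inj (el_mem 0 1 zero_one_mem) one_pos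
    (by change IsUnit (tev (el _ _ _)); rw [tev_el, mono_zero]; exact isUnit_one) tev_surj
  exact ⟨⟨φ, lam, H, h1, h2⟩⟩

/-- The cone of exponents regular on the chart of `(v, d)`. -/
def InCone (v : Fin 2 → ℤ) (d : ℕ) (u : Fin 2 → ℤ) : Prop := ∀ j, rho j v = -d → 0 ≤ rho j u

lemma inCone_iff {v d} (h : (v, d) ∈ dualCone mirror) (u : Fin 2 → ℤ) :
    InCone v d u ↔ ∃ n : ℕ, (u + n • v, n * d) ∈ dualCone mirror := by
  simp only [mem_cone, rho_add, rho_nsmul] at *
  constructor
  · intro H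
    refine ⟨∑ j, (rho j u).natAbs, fun j => ?_⟩
    have h1 : (rho j u).natAbs ≤ ∑ j, (rho j u).natAbs :=
      Finset.single_le_sum (f := fun j => (rho j u).natAbs) (fun _ _ => Nat.zero_le _)
        (Finset.mem_univ j)
    generalize ∑ j, (rho j u).natAbs = n at *
    have h2 := h j
    push_cast
    rcases h2.eq_or_lt with e | e
    · have := H j e.symm
      rw [← e]
      linarith
    · have : -(n : ℤ) ≤ rho j u := by omega
      nlinarith
  · rintro ⟨n, hn⟩ j e
    have := hn j
    rw [e] at this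
    push_cast at this
    linarith

namespace TData

variable (T : TData)

lemma φ_el (u k h) : T.φ (el u k h) = chi T.lam u := by rw [T.eq k _ (el_mem u k h), tev_el, chi]

/-- The coordinate ring of the chart of `(v, d)`. -/
def R (v : Fin 2 → ℤ) (d : ℕ) (h : (v, d) ∈ dualCone mirror) (hd : 0 < d) : Subring TK :=
  (chartF TG (algebraMap ℂ (TG 0)) (el_mem v d h) hd (el_ne_zero v d h)).range

lemma mem_R {v d} (h : (v, d) ∈ dualCone mirror) (hd : 0 < d) (k : TK) : k ∈ R v d h hd ↔
    ∃ F : Laurent 2, (∀ u, F.coeff u ≠ 0 → InCone v d u) ∧ k = T.lam F := by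
  classical
  constructor
  · intro hk
    obtain ⟨n, r, hr, rfl⟩ := (T.H.mem_range_iff _ hd _ k).1 hk
    rw [T.φ_el]
    refine graded_induction (P := fun r => ∃ F : Laurent 2, (∀ u, F.coeff u ≠ 0 → InCone v d u) ∧
      T.φ r / chi T.lam v ^ n = T.lam F) ⟨0, by simp, by simp⟩ ?_ ?_ r hr
    · rintro a b ⟨F, hF, e⟩ ⟨G, hG, e'⟩
      refine ⟨F + G, fun u hu => ?_, by rw [map_add, add_div, e, e', map_add]⟩
      by_cases h1 : F.coeff u = 0
      · exact hG u (by simpa [h1] using hu)
      · exact hF u h1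
    · intro u hu z
      refine ⟨z • mono (u - n • v), fun u' hu' => ?_, ?_⟩
      · obtain rfl := coeff_smul_mono hu'
        exact (inCone_iff h _).2 ⟨n, by simpa using hu⟩
      · rw [T.eq _ _ (Submodule.smul_mem _ _ (el_mem _ _ _)), map_smul, tev_el, map_smul, map_smul,
          smul_div_assoc, ← chi_nsmul]
        exact congrArg _ (chi_sub _ _ _).symm
  · rintro ⟨F, hF, rfl⟩
    refine laurent_induction (P := fun F => T.lam F ∈ R v d h hd) (by simp) ?_ F fun u hu z => ?_
    · intro a b ha hb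
      rw [map_add]
      exact add_mem ha hb
    · obtain ⟨n, hn⟩ := (inCone_iff h u).1 (hF u (Finsupp.mem_support_iff.1 hu))
      refine (T.H.mem_range_iff _ hd _ _).2 ⟨n, z • el _ _ hn,
        Submodule.smul_mem _ _ (el_mem _ _ _), ?_⟩
      rw [T.eq _ _ (Submodule.smul_mem _ _ (el_mem _ _ _)), map_smul, map_smul, tev_el, map_smul,
        T.φ_el, smul_div_assoc, ← chi_nsmul]
      refine congrArg _ ?_
      change chi _ _ = chi _ _ / _
      rw [← chi_sub, add_sub_cancel_right]

end TData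

/-- First edge direction at a vertex. -/
def m0 : Fin 4 → Fin 2 → ℤ := ![![1, 0], ![0, 1], ![-1, 1], ![0, -1]]

/-- Second edge direction at a vertex. -/
def m1 : Fin 4 → Fin 2 → ℤ := ![![0, 1], ![-1, 0], ![0, -1], ![1, -1]]

/-- The vertices of the dual polygon. -/
def vtx (s : Fin 4) : Fin 2 → ℤ := -(m0 s + m1 s)

lemma vtx_mem (s : Fin 4) : (vtx s, 1) ∈ dualCone mirror := by
  rw [mem_cone]
  revert s
  decide

lemma inCone_vtx (s : Fin 4) (u) : InCone (vtx s) 1 u ↔ 0 ≤ rho s u ∧ 0 ≤ rho (s + 1) u := by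
  have : ∀ s j : Fin 4, rho j (vtx s) = -(1 : ℕ) ↔ j = s ∨ j = s + 1 := by decide
  simp only [InCone, this]
  simp

lemma decomp (s : Fin 4) (u : Fin 2 → ℤ) : u = rho s u • m0 s + rho (s + 1) u • m1 s := by
  ext i
  fin_cases s <;> fin_cases i <;> simp [rho, ray, m0, m1]

/-- The monomial of a vertex. -/
def gv (s : Fin 4) : TA := el (vtx s) 1 (vtx_mem s)

lemma toric_cover (x : Proj TG) : ∃ s, gv s ∉ x.asHomogeneousIdeal := by
  by_contra H
  push Not at H
  apply x.not_irrelevant_le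
  intro r hr
  rw [← DirectSum.sum_support_decompose TG r]
  refine sum_mem fun n _ => ?_
  rcases Nat.eq_zero_or_pos n with rfl | hn
  · have : (DirectSum.decompose TG r 0 : TA) = 0 := hr
    rw [this]
    exact zero_mem _
  refine graded_induction (P := fun r => r ∈ x.asHomogeneousIdeal) (zero_mem _)
    (fun a b => add_mem) (fun u hu z => ?_) _ (DirectSum.decompose TG r n).2
  rw [Algebra.smul_def]
  refine Ideal.mul_mem_left x.asHomogeneousIdeal.toIdeal _ (x.isPrime.mem_of_pow_mem 3 ?_)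
  have key : ∃ s, (3 • u - vtx s, 3 * n - 1) ∈ dualCone mirror := by
    rw [mem_cone'] at hu
    simp only [mem_cone', Fin.exists_fin_succ, vtx, m0, m1]
    simp
    omega
  obtain ⟨s, hs⟩ := key
  have : el u n hu ^ 3 = el _ _ hs * gv s := by
    rw [pow_three, el_mul, el_mul, gv, el_mul]
    exact el_congr _ (by rw [sub_add_cancel, three_nsmul]) (by omega)
  rw [this]
  exact Ideal.mul_mem_left _ _ (H s)

end Pool.Agent.Lib.MP_02acd8_h53
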